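import Pool.Agent.H95.TB.Target

/-!
# The quotient of a product of two odd spheres by the diagonal circle action
-/

namespace Pool.Agent.H95.TB

/-- `q` is obtained from `p` by multiplying both points by a complex number of absolute value 1. -/
def HopfRel (m : ℕ) (p q : SC 2 × SC m) : Prop := ∃ z : ℂ, ‖z‖ = 1 ∧ q.1.1 = z • p.1.1 ∧ q.2.1 = z • p.2.1

/-- `(S³ × S^(2m-1)) / S¹`, where `S³ ⊆ ℂ²` and `S^(2m-1) ⊆ ℂ^m` are the unit spheres and `S¹ ⊆ ℂ` acts
diagonally by multiplication.  This is the unit sphere bundle of the `m`-fold sum of the line bundle of degree 1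
(with the orientation conventions: of degree `±1`) over the complex projective line. -/
def HopfSphere (m : ℕ) : Type := Quot (HopfRel m)

instance (m : ℕ) : TopologicalSpace (HopfSphere m) := inferInstanceAs (TopologicalSpace (Quot (HopfRel m)))

lemma twRel_true {m : ℕ} {tw : Fin m → Bool} (h : ∀ k, tw k = true) : TwRel tw = HopfRel m := by
  funext p q
  apply propext
  unfold TwRel HopfRel
  refine exists_congr fun z => and_congr_right fun _ => and_congr ?_ ?_
  · constructor
    · intro h; ext j; exact h j
    · intro h j; rw [h]; rfl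
  · constructor
    · intro h2; ext k; rw [h2 k, if_pos (h k)]; rfl
    · intro h2 k; rw [h2, if_pos (h k)]; rfl

lemma homeo_hopf {X : Type*} [TopologicalSpace X] {m : ℕ} {tw : Fin m → Bool} (h : ∀ k, tw k = true)
    (e : Nonempty (X ≃ₜ Tw tw)) : Nonempty (X ≃ₜ HopfSphere m) := by
  have e' : Nonempty (X ≃ₜ Quot (TwRel tw)) := e
  rw [twRel_true h] at e'
  exact e'

end Pool.Agent.H95.TB
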