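import Pool.Agent.H95.TB.SoundT

/-!
# Soundness of the checks: facets and classes of faces
-/

open Finset

namespace Pool.Agent.H95.TB

open Pool.Agent.H34.PLE

lemma map_val_finRange (m : ℕ) : (List.finRange m).map Fin.val = List.range m := by
  apply List.ext_getElem
  · simp
  · intro i h1 h2; simp

lemma filterMap_finRange {α : Type*} (m : ℕ) (g : ℕ → Option α) :
    (List.finRange m).filterMap (fun a : Fin m => g a.1) = (List.range m).filterMap g := by
  rw [← map_val_finRange, List.filterMap_map]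
  rfl

lemma length_filterMap_range {α : Type*} (g : ℕ → Option α) (p : ℕ → Bool) (m : ℕ)
    (h : ∀ a < m, (g a).isSome = p a) : ((List.range m).filterMap g).length = cnt p m := by
  induction m with
  | zero => simp [cnt_zero]
  | succ m ih =>
    rw [List.range_succ, List.filterMap_append, List.length_append, ih fun a ha => h a (by omega), cnt_succ,
      ← h m (Nat.lt_succ_self m)]
    congr 1
    cases hg : g m <;> simp [hg]

lemma getD_filterMap_range {α : Type*} (g : ℕ → Option α) (p : ℕ → Bool) (m : ℕ)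
    (h : ∀ a < m, (g a).isSome = p a) (d : α) {t : ℕ} (ht : t < m) {v : α} (hv : g t = some v) :
    ((List.range m).filterMap g).getD (cnt p t) d = v := by
  induction m with
  | zero => omega
  | succ m ih =>
    have h' : ∀ a < m, (g a).isSome = p a := fun a ha => h a (by omega)
    rw [List.range_succ, List.filterMap_append]
    have hlen := length_filterMap_range g p m h'
    rcases Nat.lt_succ_iff_lt_or_eq.1 ht with h1 | rfl
    · have hpt : p t = true := by rw [← h' t h1, hv]; rfl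
      have h2 : cnt p t < cnt p m := by
        have h3 : cnt p (t + 1) ≤ cnt p m := Nat.count_monotone _ h1
        rw [cnt_succ, if_pos hpt] at h3
        omega
      rw [List.getD_append _ _ _ _ (by rw [hlen]; exact h2)]
      exact ih h' h1
    · rw [List.getD_append_right _ _ _ _ (by rw [hlen]), hlen, Nat.sub_self]
      simp [hv]

namespace Tab

variable {D : Tab} (h : D.OK)

include h

/-! ### facets with given path and windows -/

lemma facet (e : Bool) (E : ℕ → ℕ) (q : Fin D.r → Fin 3) (h0 : E 0 = 0) (hr : E D.r = 2)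
    (hm : ∀ k < D.r, E k ≤ E (k + 1)) (hq : ∀ k : Fin D.r, E k ≤ q k ∧ (q k : ℕ) ≤ E (k + 1)) :
    ∃ i, (model D h.hr).ε i = e ∧ ∀ (k : Fin D.r) (b : Bool) (X : Fin 3),
      E k ≤ X → (X : ℕ) ≤ E (k + 1) →
      (if b = true then sg ((model D h.hr).tw k && !e) X ≤ sg ((model D h.hr).tw k && !e) (q k)
        else sg ((model D h.hr).tw k && !e) (q k) ≤ sg ((model D h.hr).tw k && !e) X) →
      ∃ a, (model D h.hr).slot i a = (k, b, X) := by
  have hE2 : ∀ k ≤ D.r, E k ≤ 2 := by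
    intro k hk
    obtain ⟨d, hd⟩ := Nat.exists_eq_add_of_le hk
    have : ∀ d k, k + d = D.r → E k ≤ 2 := by
      intro d
      induction d with
      | zero => intro k hk; rw [← hk, add_zero] at hr; omega
      | succ d ih =>
        intro k hk
        exact (hm k (by omega)).trans (ih (k + 1) (by omega))
    exact this d k hd.symm
  obtain ⟨E', hE', hE3⟩ := exists_base3 (D.r + 1) E fun k hk => by have := hE2 k (by omega); omega
  obtain ⟨Q', hQ', hQ3⟩ := exists_base3 D.r (fun k => if hk : k < D.r then (q ⟨k, hk⟩ : ℕ) else 0) fun k hk => by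
    rw [dif_pos hk]; exact (q ⟨k, hk⟩).2
  have hQ4 : ∀ k : Fin D.r, dE Q' k = q k := fun k => by rw [hQ3 k k.2, dif_pos k.2]
  have hE4 : ∀ k ≤ D.r, dE E' k = E k := fun k hk => hE3 k (by omega)
  have hc := h.cE
  unfold chkEE at hc
  have h1 := List.all_eq_true.1 hc e (by cases e <;> simp)
  have h2 := List.all_eq_true.1 h1 E' (List.mem_range.2 hE')
  have vE' : D.vE E' = true := by
    unfold vE
    rw [Bool.and_eq_true, decide_eq_true_eq, List.all_eq_true]
    refine ⟨⟨by rw [hE4 0 (Nat.zero_le _), h0], by rw [hE4 D.r le_rfl, hr]⟩, fun k hk => ?_⟩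
    rw [List.mem_range] at hk
    rw [decide_eq_true_eq, hE4 k (by omega), hE4 (k + 1) (by omega)]
    exact hm k hk
  have vQ' : D.vQ E' Q' = true := by
    unfold vQ
    rw [List.all_eq_true]
    intro k hk
    rw [List.mem_range] at hk
    have := hQ4 ⟨k, hk⟩
    rw [decide_eq_true_eq, hE4 k (by omega), hE4 (k + 1) (by omega)]
    simp only at this
    rw [this]
    exact hq ⟨k, hk⟩
  rw [vE', Bool.not_true, Bool.false_or] at h2
  have h3 := List.all_eq_true.1 h2 Q' (List.mem_range.2 hQ')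
  rw [vQ', Bool.not_true, Bool.false_or] at h3
  unfold chkE at h3
  simp only [fc_eq] at h3
  rw [Bool.and_eq_true, decide_eq_true_eq] at h3
  obtain ⟨⟨h4, h5⟩, h6⟩ := h3
  set t := D.fnd e E' Q' with ht
  have ht' : t < D.rows.length := by rw [h.len]; exact h4
  refine ⟨(⟨t, ht'⟩ : Fin D.rows.length), h5, fun k b X hX1 hX2 hX3 => ?_⟩
  have h7 := List.all_eq_true.1 h6 k (List.mem_range.2 k.2)
  have h8 := List.all_eq_true.1 h7 b (by cases b <;> simp)
  have h9 := List.all_eq_true.1 h8 X (List.mem_range.2 X.2)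
  rw [decide_eq_true_eq, hE4 k k.2.le, hE4 (k + 1) k.2] at h9
  have h10 := h9 hX1 hX2 (by
    rw [hQ4 k, ← sg_eq, ← sg_eq]
    exact hX3)
  obtain ⟨a, ha, ha2⟩ := bit_mk h10
  let i : (K D).ι := (⟨t, ht'⟩ : Fin D.rows.length)
  have ha3 : D.S t a = 6 * k + (if b = true then 3 else 0) + ltN (D.tw.testBit k && !e) X := ha2
  have hlt : ltN (D.tw.testBit k && !e) X < 3 := by
    have := ltN_lt (D.tw.testBit k && !e) X
    rw [Nat.mod_eq_of_lt X.2] at this
    exact this
  refine ⟨⟨a, ha⟩, ?_⟩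
  have e1 : (model D h.hr).kk i ⟨a, ha⟩ = k := by
    apply Fin.ext
    rw [kk_val h]
    show D.S t a / 6 = k
    rw [ha3]
    split_ifs <;> omega
  have e2 : (model D h.hr).rn i ⟨a, ha⟩ = b := by
    show decide (3 ≤ D.S t a % 6) = b
    rw [ha3]
    cases b
    · rw [if_neg (by decide), decide_eq_false (by omega)]
    · rw [if_pos rfl, decide_eq_true (by omega)]
  have e3 : (model D h.hr).ll i ⟨a, ha⟩ = X := by
    show ltr (D.tw.testBit (D.S t a / 6) && !(D.eps t)) (D.S t a) = X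
    have e4 : D.S t a / 6 = k := by
      rw [ha3]; split_ifs <;> omega
    rw [e4, h5]
    apply ltr_eq_of
    rw [ha3, sg_eq]
    split_ifs <;> omega
  exact Prod.ext e1 (Prod.ext e2 e3)

/-! ### classes of faces -/

/-- class of a face -/
def rho (D : Tab) (i : (K D).ι) (S : ℕ) : ℕ := dg 24 (D.cls.getD (ix i) 0) S / 256

/-- rank of a face -/
def rk (D : Tab) (i : (K D).ι) (S : ℕ) : ℕ := dg 24 (D.cls.getD (ix i) 0) S / 16 % 16

/-- the set of letters is complete -/
def full (D : Tab) (i S : ℕ) : Bool :=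
  meets S (mkP (fun a => Nat.beq (Nat.mod (D.L i a) 3) 0) (D.n + 1)) &&
  (meets S (mkP (fun a => Nat.beq (Nat.mod (D.L i a) 3) 1) (D.n + 1)) &&
    meets S (mkP (fun a => Nat.beq (Nat.mod (D.L i a) 3) 2) (D.n + 1)))

/-- the code of a face -/
def code (D : Tab) (i S : ℕ) : ℕ :=
  cdA (D.lab.getD i 0) S (D.n + 1) * 4 + cond (full D i S) (cond (D.eps i) 0 1) 2

/-- the facet of a class -/
def rootF (h : D.OK) (ρ : ℕ) : (K D).ι :=
  (⟨D.cdx ρ / 2 ^ 44 / 2 ^ (D.n + 1) % D.rows.length, Nat.mod_lt _ (by rw [h.len]; exact h.hN)⟩ : Fin D.rows.length)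

lemma chk {i : (K D).ι} {S : ℕ} (hS : 0 < S) (hS2 : S < 2 ^ (D.n + 1)) :
    rho D i S < D.NC ∧ code D (ix i) S = D.cdx (rho D i S) % 2 ^ 44 ∧
    (D.cdx (rho D i S) / 2 ^ 44 = ix i * 2 ^ (D.n + 1) + S ∨ ∃ (a b : Fin (D.n + 1)) (j : (K D).ι) (S' : ℕ),
      (0 < S' ∧ S' < 2 ^ (D.n + 1)) ∧ (K D).face i a = (K D).face j b ∧ bit S a = false ∧ bit S' b = false ∧
      (∀ s < D.n, bit S (sa a s) = bit S' (sa b s)) ∧ rk D j S' < rk D i S ∧ rho D j S' = rho D i S) := by
  have h1 := h.cC (ix i) (ix_lt h i)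
  unfold chkC at h1
  simp only [fc_eq] at h1
  have h2 := List.all_eq_true.1 h1 (S - 1) (List.mem_range.2 (by
    show S - 1 < 2 ^ (D.n + 1) - 1
    omega))
  rw [Nat.sub_add_cancel hS] at h2
  unfold chk1 at h2
  simp only [fc_eq] at h2
  rw [Bool.and_eq_true, Bool.and_eq_true] at h2
  obtain ⟨h3, h4, h5⟩ := h2
  refine ⟨Nat.blt_eq ▸ h3, Nat.eq_of_beq_eq_true h4, ?_⟩
  by_cases hroot : Nat.beq (Nat.mod (dg 24 (D.cls.getD (ix i) 0) S) 16) 15 = true
  · rw [hroot, cond_true] at h5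
    exact Or.inl (Nat.eq_of_beq_eq_true h5)
  · right
    have hroot' : Nat.beq (Nat.mod (dg 24 (D.cls.getD (ix i) 0) S) 16) 15 = false := (Bool.not_eq_true _).mp hroot
    rw [hroot', cond_false, Bool.and_eq_true] at h5
    obtain ⟨h6, h7⟩ := h5
    have ha : dg 24 (D.cls.getD (ix i) 0) S % 16 < D.n + 1 := Nat.blt_eq ▸ h6
    set a := dg 24 (D.cls.getD (ix i) 0) S % 16 with had
    have hN := h.cN (ix i) (ix_lt h i)
    unfold chkN at hN
    simp only [fc_eq] at hN
    have hN2 := List.all_eq_true.1 hN a (List.mem_range.2 ha)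
    rw [decide_eq_true_eq] at hN2
    obtain ⟨hj, hb, hface⟩ := hN2
    set nb := dg 16 (D.nb.getD (ix i) 0) a with hnb
    have hbit : bit S a = false := by
      by_contra hne
      rw [Bool.not_eq_false] at hne
      have : bit S (Nat.mod (dg 24 (D.cls.getD (ix i) 0) S) 16) = true := hne
      rw [this, cond_true] at h7
      exact absurd h7 (by decide)
    have h7' := h7
    have hbit' : bit S (Nat.mod (dg 24 (D.cls.getD (ix i) 0) S) 16) = false := hbit
    rw [hbit', cond_false, Bool.and_eq_true, Bool.and_eq_true, Bool.and_eq_true] at h7'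
    obtain ⟨h8, h9, h10, h11⟩ := h7'
    have hjl : nb / 16 < D.rows.length := by rw [h.len]; exact hj
    refine ⟨⟨a, ha⟩, ⟨nb % 16, hb⟩, (⟨nb / 16, hjl⟩ : Fin D.rows.length), tr S a (nb % 16), ⟨Nat.blt_eq ▸ h8,
      Nat.blt_eq ▸ h9⟩, ?_, hbit, bit_tr_self _ _ _, fun s _ => bit_tr _ _ _ _, Nat.blt_eq ▸ h10,
      Nat.eq_of_beq_eq_true h11⟩
    exact (face_eq i ⟨a, ha⟩).trans (hface.trans (face_eq (D := D)
      (⟨nb / 16, hjl⟩ : Fin D.rows.length) ⟨nb % 16, hb⟩).symm)

/-- codes of the classes -/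
lemma cdx_mono {ρ ρ' : ℕ} (h1 : ρ < ρ') (h2 : ρ' < D.NC) : D.cdx ρ % 2 ^ 44 < D.cdx ρ' % 2 ^ 44 := by
  induction ρ' with
  | zero => omega
  | succ ρ' ih =>
    have h3 := h.cR (ρ' + 1) h2
    unfold chkR at h3
    simp only [fc_eq] at h3
    rw [Bool.and_eq_true, Bool.or_eq_true, decide_eq_true_eq] at h3
    have h4 : D.cdx ρ' % 2 ^ 44 < D.cdx (ρ' + 1) % 2 ^ 44 := by
      rcases h3.1 with h5 | h5
      · omega
      · rw [Nat.blt_eq] at h5
        exact h5
    rcases Nat.lt_succ_iff_lt_or_eq.1 h1 with h5 | rfl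
    · exact (ih h5 (by omega)).trans h4
    · exact h4

lemma rho_eq {i j : (K D).ι} {S S' : ℕ} (hS : 0 < S) (hS2 : S < 2 ^ (D.n + 1)) (hS' : 0 < S')
    (hS2' : S' < 2 ^ (D.n + 1)) (hc : code D (ix i) S = code D (ix j) S') : rho D i S = rho D j S' := by
  obtain ⟨h1, h2, _⟩ := chk h (i := i) hS hS2
  obtain ⟨h1', h2', _⟩ := chk h (i := j) hS' hS2'
  rw [h2, h2'] at hc
  rcases lt_trichotomy (rho D i S) (rho D j S') with h3 | h3 | h3
  · have := cdx_mono h h3 h1'; omega
  · exact h3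
  · have := cdx_mono h h3 h1; omega

lemma steps (i : (K D).ι) (S : ℕ) (hV : 0 < S ∧ S < 2 ^ (D.n + 1)) :
    (rootF h (rho D i S), D.cdx (rho D i S) / 2 ^ 44 % 2 ^ (D.n + 1)) = (i, S) ∨
    ∃ (a b : Fin (D.n + 1)) (j : (K D).ι) (S' : ℕ), (0 < S' ∧ S' < 2 ^ (D.n + 1)) ∧
      (K D).face i a = (K D).face j b ∧ bit S a = false ∧ bit S' b = false ∧
      (∀ s < D.n, bit S (sa a s) = bit S' (sa b s)) ∧ rk D j S' < rk D i S ∧ rho D j S' = rho D i S := by
  obtain ⟨_, _, h3⟩ := chk h (i := i) hV.1 hV.2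
  rcases h3 with h3 | h3
  · left
    have h4 : D.cdx (rho D i S) / 2 ^ 44 % 2 ^ (D.n + 1) = S := by
      rw [h3, mul_comm, Nat.mul_add_mod]; exact Nat.mod_eq_of_lt hV.2
    have h5 : D.cdx (rho D i S) / 2 ^ 44 / 2 ^ (D.n + 1) = ix i := by
      rw [h3, mul_comm, Nat.mul_add_div (by positivity), Nat.div_eq_of_lt hV.2, add_zero]
    have h6 : rootF h (rho D i S) = i := by
      apply Fin.ext (n := D.rows.length)
      show D.cdx (rho D i S) / 2 ^ 44 / 2 ^ (D.n + 1) % D.rows.length = ix i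
      rw [h5]
      exact Nat.mod_eq_of_lt (Fin.isLt (n := D.rows.length) i)
    rw [h4, h6]
  · exact Or.inr h3

/-! ### masks of points -/

omit h in
/-- value of a function on `Fin` at a number -/
noncomputable def xf {m : ℕ} (x : Fin m → ℝ) (a : ℕ) : ℝ := if ha : a < m then x ⟨a, ha⟩ else 0

omit h in
lemma xf_val {m : ℕ} (x : Fin m → ℝ) (a : Fin m) : xf x a = x a := by
  unfold xf; rw [dif_pos a.2]

omit h in
lemma exists_S (x : Sx D.n) : ∃ S, (0 < S ∧ S < 2 ^ (D.n + 1)) ∧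
    ∀ a : Fin (D.n + 1), bit S a = true ↔ x.1 a ≠ 0 := by
  classical
  obtain ⟨S, hS, h1⟩ := exists_mask (D.n + 1) fun a => decide (xf x.1 a ≠ 0)
  have h2 : ∀ a : Fin (D.n + 1), bit S a = true ↔ x.1 a ≠ 0 := by
    intro a
    rw [h1 a a.2, decide_eq_true_eq, xf_val]
  refine ⟨S, ⟨Nat.pos_of_ne_zero ?_, hS⟩, h2⟩
  rintro rfl
  have h3 : ∀ a, x.1 a = 0 := by
    intro a
    by_contra hne
    have := (h2 a).2 hne
    rw [bit_eq, Nat.zero_testBit] at this
    exact absurd this (by decide)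
  have h4 := x.2.2
  rw [sum_congr rfl fun a _ => h3 a] at h4
  simp at h4

/-- the list of a point as a list over a range -/
lemma lst_range (i : (K D).ι) (x : Fin (D.n + 1) → ℝ) :
    ((model D h.hr).lst i x).map (fun p => (3 * (p.1.1 : ℕ) + (p.1.2 : ℕ), p.2)) =
      (List.range (D.n + 1)).filterMap fun a => if xf x a = 0 then none else some (D.L (ix i) a, xf x a) := by
  rw [← filterMap_finRange]
  unfold Mdl.lst
  rw [List.map_filterMap]
  congr 1
  funext a
  rw [xf_val]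
  by_cases h0 : x a = 0
  · simp [h0]
  · simp only [h0, if_false, Option.map_some, L_eq h]

lemma labels_eq (i : (K D).ι) (x : Sx D.n) {S : ℕ} (hS : ∀ a : Fin (D.n + 1), bit S a = true ↔ x.1 a ≠ 0) :
    ((List.range (D.n + 1)).filter (fun a => bit S a)).map (fun a => D.L (ix i) a) =
      (((model D h.hr).lst i x.1).map (fun p => (3 * (p.1.1 : ℕ) + (p.1.2 : ℕ), p.2))).map Prod.fst := by
  rw [lst_range h, List.map_filterMap, ← List.filterMap_eq_map, List.filterMap_filter]
  refine List.filterMap_congr fun a ha => ?_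
  rw [List.mem_range] at ha
  have h1 := hS ⟨a, ha⟩
  have h2 : xf x.1 a = x.1 ⟨a, ha⟩ := xf_val x.1 ⟨a, ha⟩
  rw [h2]
  by_cases h0 : x.1 ⟨a, ha⟩ = 0
  · have h3 : bit S a = false := by
      by_contra hne
      rw [Bool.not_eq_false] at hne
      exact h1.1 hne h0
    simp [h0, h3]
  · have h3 : bit S a = true := h1.2 h0
    simp [h0, h3]

lemma values_eq (i : (K D).ι) (x : Sx D.n) {S : ℕ} (hS : ∀ a : Fin (D.n + 1), bit S a = true ↔ x.1 a ≠ 0)
    (t : Fin (D.n + 1)) :
    x.1 t = ex (bit S) (fun m => (((model D h.hr).lst i x.1).map Prod.snd).getD m 0) t := by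
  unfold ex
  have h1 := hS t
  by_cases h0 : x.1 t = 0
  · have h3 : bit S t = false := by
      by_contra hne
      rw [Bool.not_eq_false] at hne
      exact h1.1 hne h0
    rw [h0, h3]; simp
  · have h3 : bit S t = true := h1.2 h0
    rw [if_pos h3]
    have h4 : ((model D h.hr).lst i x.1).map Prod.snd =
        (List.range (D.n + 1)).filterMap fun a => if xf x.1 a = 0 then none else some (xf x.1 a) := by
      have h5 : ((model D h.hr).lst i x.1).map Prod.snd =
          (((model D h.hr).lst i x.1).map (fun p => (3 * (p.1.1 : ℕ) + (p.1.2 : ℕ), p.2))).map Prod.snd := by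
        rw [List.map_map]; rfl
      rw [h5, lst_range h, List.map_filterMap]
      congr 1
      funext a
      by_cases h0 : xf x.1 a = 0
      · simp [h0]
      · simp [h0]
    rw [h4]
    symm
    refine getD_filterMap_range _ (bit S) (D.n + 1) (fun a ha => ?_) 0 t.2 (by rw [xf_val, if_neg h0])
    have h5 := hS ⟨a, ha⟩
    have h6 : xf x.1 a = x.1 ⟨a, ha⟩ := xf_val x.1 ⟨a, ha⟩
    rw [h6]
    by_cases h7 : x.1 ⟨a, ha⟩ = 0
    · have h8 : bit S a = false := by
        by_contra hne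
        rw [Bool.not_eq_false] at hne
        exact h5.1 hne h7
      rw [if_pos h7, h8]; rfl
    · rw [if_neg h7]
      exact (h5.2 h7).symm

lemma full_iff (i : (K D).ι) (x : Sx D.n) {S : ℕ} (hS : ∀ a : Fin (D.n + 1), bit S a = true ↔ x.1 a ≠ 0) :
    full D (ix i) S = true ↔ ∀ Z : Fin 3, ∃ p ∈ (model D h.hr).lst i x.1, p.1.2 = Z := by
  have key : ∀ Z : Fin 3, meets S (mkP (fun a => Nat.beq (Nat.mod (D.L (ix i) a) 3) Z) (D.n + 1)) = true ↔
      ∃ p ∈ (model D h.hr).lst i x.1, p.1.2 = Z := by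
    intro Z
    rw [meets_iff]
    constructor
    · rintro ⟨a, ha, h1, h2⟩
      have h3 : D.L (ix i) a % 3 = Z := Nat.eq_of_beq_eq_true h2
      have h4 := (hS ⟨a, ha⟩).1 h1
      refine ⟨(((model D h.hr).kk i ⟨a, ha⟩, (model D h.hr).ll i ⟨a, ha⟩), x.1 ⟨a, ha⟩), ?_, ?_⟩
      · unfold Mdl.lst
        rw [List.mem_filterMap]
        exact ⟨⟨a, ha⟩, List.mem_finRange _, by rw [if_neg h4]⟩
      · apply Fin.ext
        rw [← h3]
        exact (L_mod h i ⟨a, ha⟩).symm
    · rintro ⟨p, hp, hZ⟩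
      unfold Mdl.lst at hp
      rw [List.mem_filterMap] at hp
      obtain ⟨a, _, ha⟩ := hp
      by_cases h0 : x.1 a = 0
      · rw [if_pos h0] at ha; exact absurd ha (by simp)
      · rw [if_neg h0, Option.some_inj] at ha
        refine ⟨a, a.2, (hS a).2 h0, ?_⟩
        have h3 := L_mod h i a
        have h4 : (model D h.hr).ll i a = Z := by rw [← hZ, ← ha]
        have h5 : D.L (ix i) a % 3 = Z := by rw [h3, h4]
        exact Nat.beq_eq ▸ h5
  unfold full
  rw [Bool.and_eq_true, Bool.and_eq_true]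
  constructor
  · rintro ⟨h0, h1, h2⟩ Z
    have hZ : Z = 0 ∨ Z = 1 ∨ Z = 2 := by fin_cases Z <;> simp
    rcases hZ with rfl | rfl | rfl
    · exact (key 0).1 h0
    · exact (key 1).1 h1
    · exact (key 2).1 h2
  · intro hZ
    exact ⟨(key 0).2 (hZ 0), (key 1).2 (hZ 1), (key 2).2 (hZ 2)⟩

lemma code_eq {i j : (K D).ι} {x y : Sx D.n} {S S' : ℕ} (hS : ∀ a : Fin (D.n + 1), bit S a = true ↔ x.1 a ≠ 0)
    (hS' : ∀ a : Fin (D.n + 1), bit S' a = true ↔ y.1 a ≠ 0)
    (hl : (model D h.hr).lst i x.1 = (model D h.hr).lst j y.1) (he : (model D h.hr).ε i = (model D h.hr).ε j) :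
    code D (ix i) S = code D (ix j) S' := by
  have h1 := labels_eq h i x hS
  have h2 := labels_eq h j y hS'
  have h3 : cdA (D.lab.getD (ix i) 0) S (D.n + 1) = cdA (D.lab.getD (ix j) 0) S' (D.n + 1) := by
    rw [cdA_eq, cdA_eq]
    congr 1
    show ((List.range (D.n + 1)).filter (fun a => bit S a)).map (fun a => D.L (ix i) a) =
      ((List.range (D.n + 1)).filter (fun a => bit S' a)).map (fun a => D.L (ix j) a)
    rw [h1, h2, hl]
  have h4 : full D (ix i) S = full D (ix j) S' := by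
    rw [Bool.eq_iff_iff, full_iff h i x hS, full_iff h j y hS', hl]
  have h5 : D.eps (ix i) = D.eps (ix j) := he
  unfold code
  rw [h3, h4, h5]

lemma eq_pt (i j : (K D).ι) (x y : Sx D.n) (he : (model D h.hr).ε i = (model D h.hr).ε j)
    (hl : (model D h.hr).lst i x.1 = (model D h.hr).lst j y.1) : (K D).pt i x = (K D).pt j y := by
  obtain ⟨S, hS, hSx⟩ := exists_S x
  obtain ⟨S', hS', hSy⟩ := exists_S y
  have hρ := rho_eq h (i := i) (j := j) hS.1 hS.2 hS'.1 hS'.2 (code_eq h hSx hSy hl he)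
  refine conn_eq (K D) (fun S => 0 < S ∧ S < 2 ^ (D.n + 1)) bit (rk D) (rho D)
    (fun ρ => (rootF h ρ, D.cdx ρ / 2 ^ 44 % 2 ^ (D.n + 1))) (steps h) _ hS hS' hρ (values_eq h i x hSx) ?_
  intro t
  rw [hl]
  exact values_eq h j y hSy t

lemma plus (i : (K D).ι) (x : Sx D.n)
    (hZ : ∃ Z, ∀ a, (model D h.hr).ll i a = Z → x.1 a = 0) :
    ∃ j y, (model D h.hr).ε j = true ∧ (K D).pt i x = (K D).pt j y := by
  obtain ⟨S, hS, hSx⟩ := exists_S x
  obtain ⟨Z, hZ⟩ := hZ
  have hf : full D (ix i) S = false := by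
    by_contra hne
    rw [Bool.not_eq_false, full_iff h i x hSx] at hne
    obtain ⟨p, hp, hpZ⟩ := hne Z
    unfold Mdl.lst at hp
    rw [List.mem_filterMap] at hp
    obtain ⟨a, _, ha⟩ := hp
    by_cases h0 : x.1 a = 0
    · rw [if_pos h0] at ha; exact absurd ha (by simp)
    · rw [if_neg h0, Option.some_inj] at ha
      exact h0 (hZ a (by rw [← hpZ, ← ha]))
  obtain ⟨h1, h2, _⟩ := chk h (i := i) hS.1 hS.2
  obtain ⟨z, _, hz⟩ := conn (K D) (fun S => 0 < S ∧ S < 2 ^ (D.n + 1)) bit (rk D) (rho D)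
    (fun ρ => (rootF h ρ, D.cdx ρ / 2 ^ 44 % 2 ^ (D.n + 1))) (steps h) _ _ i S (Nat.lt_succ_self _) hS x
    (values_eq h i x hSx)
  refine ⟨rootF h (rho D i S), z, ?_, hz⟩
  have h3 := h.cR (rho D i S) h1
  unfold chkR at h3
  simp only [fc_eq] at h3
  rw [Bool.and_eq_true, decide_eq_true_eq] at h3
  have h4 : D.cdx (rho D i S) % 2 ^ 44 % 4 = 2 := by
    rw [← h2]
    unfold code
    rw [hf, cond_false]
    omega
  have h5 := h3.2 h4
  show Nat.blt (D.cdx (rho D i S) / 2 ^ 44 / 2 ^ (D.n + 1) % D.rows.length) D.h = true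
  rw [Nat.blt_eq]
  exact lt_of_le_of_lt (Nat.mod_le _ _) h5

theorem good : (model D h.hr).Good where
  mono i a b hab := by
    rw [cd_slot h, cd_slot h]
    exact S_mono h (ix_lt h i) b a (Fin.lt_def.1 hab) b.2
  chain i a b hab := by
    have h1 := ((slt h (ix_lt h i) a.2).2.2.2 b b.2).1
    rw [L_mod h, L_mod h, L_div h, L_div h] at h1
    exact h1 (Fin.lt_def.1 hab)
  cut i a b hk ha hb := by
    have h1 := ((slt h (ix_lt h i) a.2).2.2.2 b b.2).2
    have e1 := sg_ll h i b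
    rw [← hk] at e1
    rw [e1, sg_ll h i a]
    have ha' : ¬ 3 ≤ D.S (ix i) a % 6 := of_decide_eq_false ha
    have hb' : 3 ≤ D.S (ix i) b % 6 := of_decide_eq_true hb
    refine h1 ?_ (by omega) hb'
    rw [← kk_val h, ← kk_val h, hk]
  glue := glue h
  facet := facet h
  eq := eq_pt h
  plus i x _ hZ := plus h i x hZ

/-- The realisation of a checked table is the quotient of a product of spheres. -/
theorem homeo : Nonempty ((glueL D.n 24 D.rows).Real ≃ₜ Tw (fun k : Fin D.r => D.tw.testBit k)) := by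
  have : Finite (K D).ι := inferInstanceAs (Finite (Fin D.rows.length))
  exact Mdl.homeo (good h) h.hr.ne'

end Tab

end Pool.Agent.H95.TB
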