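import Pool.Agent.H95.TB.T3
import Pool.Agent.H95.TB.SoundC
import Pool.Agent.H95.TB.Hopf

/-!
# The gluing complex with 42 facets of dimension 7
-/

namespace Pool.Agent.H95.TB.T3

open Pool.Agent.H34.PLE

theorem cF : ((List.range 42).all fun i => D.chkF i) = true := by decide +kernel

theorem cP : ((List.range 42).all fun i => (List.range 8).all fun a => D.chkP i a) = true := by decide +kernel

theorem cE : D.chkEE = true := by decide +kernel

theorem cN : ((List.range 42).all fun i => D.chkN i) = true := by decide +kernel

theorem cC : ((List.range 42).all fun i => D.chkC i) = true := by decide +kernel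

theorem cR : ((List.range 1402).all fun i => D.chkR i) = true := by decide +kernel

theorem ok : D.OK where
  hr := by decide
  hn := by decide
  hN := by decide
  len := by decide +kernel
  cF i hi := List.all_eq_true.1 cF i (List.mem_range.2 hi)
  cP i hi a ha := List.all_eq_true.1 (List.all_eq_true.1 cP i (List.mem_range.2 hi)) a (List.mem_range.2 ha)
  cE := cE
  cN i hi := List.all_eq_true.1 cN i (List.mem_range.2 hi)
  cC i hi := List.all_eq_true.1 cC i (List.mem_range.2 hi)
  cR i hi := List.all_eq_true.1 cR i (List.mem_range.2 hi)

/-- The realisation of the complex with 42 facets is `(S³ × S⁵) / S¹`. -/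
theorem homeo : Nonempty ((glueL 7 24 rowsT).Real ≃ₜ HopfSphere 3) := by
  refine homeo_hopf ?_ (Tab.homeo ok)
  decide

end Pool.Agent.H95.TB.T3
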