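import Pool.Agent.H95.TB.PLT

/-!
# The boundary of the cross-polytope is homeomorphic to the round sphere
-/

open Finset

namespace Pool.Agent.H95.TB

variable {m : ℕ}

lemma cross_ne (v : cross m) : (WithLp.toLp 2 v.1 : EuclideanSpace ℝ (Fin m)) ≠ 0 := by
  intro h
  have h1 : ∀ i, v.1 i = 0 := fun i => by
    have := congrArg (fun x : EuclideanSpace ℝ (Fin m) => x i) h
    exact this
  have h2 : ∑ i, |v.1 i| = 1 := v.2
  rw [sum_congr rfl fun i _ => by rw [h1 i, abs_zero]] at h2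
  simp at h2

lemma sphere_pos (u : Metric.sphere (0 : EuclideanSpace ℝ (Fin m)) 1) : 0 < ∑ i, |u.1 i| := by
  have h : 0 ≤ ∑ i, |u.1 i| := sum_nonneg fun i _ => abs_nonneg _
  rcases h.eq_or_lt with h0 | h0
  · exfalso
    have h1 : ∀ i, u.1 i = 0 := fun i =>
      abs_eq_zero.1 ((sum_eq_zero_iff_of_nonneg (fun i _ => abs_nonneg (u.1 i))).1 h0.symm i (mem_univ i))
    have h2 : u.1 = 0 := by ext i; exact h1 i
    have h3 : ‖u.1‖ = 1 := mem_sphere_zero_iff_norm.1 u.2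
    rw [h2, norm_zero] at h3
    exact zero_ne_one h3
  · exact h0

/-- radial projection -/
noncomputable def crossSphere (m : ℕ) : cross m ≃ₜ Metric.sphere (0 : EuclideanSpace ℝ (Fin m)) 1 where
  toFun v := ⟨(‖(WithLp.toLp 2 v.1 : EuclideanSpace ℝ (Fin m))‖⁻¹ : ℝ) • WithLp.toLp 2 v.1, by
    rw [mem_sphere_zero_iff_norm, norm_smul, norm_inv, norm_norm, inv_mul_cancel₀ (norm_ne_zero_iff.2 (cross_ne v))]⟩
  invFun u := ⟨fun i => (∑ j, |u.1 j|)⁻¹ * u.1 i, by
    show ∑ i, |(∑ j, |u.1 j|)⁻¹ * u.1 i| = 1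
    have hp := sphere_pos u
    rw [sum_congr rfl fun i _ => by rw [abs_mul, abs_of_pos (inv_pos.2 hp)], ← mul_sum, inv_mul_cancel₀ hp.ne']⟩
  left_inv v := by
    apply Subtype.ext
    funext i
    have hc : 0 < ‖(WithLp.toLp 2 v.1 : EuclideanSpace ℝ (Fin m))‖⁻¹ := inv_pos.2 (norm_pos_iff.2 (cross_ne v))
    set c := ‖(WithLp.toLp 2 v.1 : EuclideanSpace ℝ (Fin m))‖⁻¹ with hcd
    show (∑ j, |c * v.1 j|)⁻¹ * (c * v.1 i) = v.1 i
    have h2 : ∑ i, |v.1 i| = 1 := v.2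
    rw [sum_congr rfl fun i _ => by rw [abs_mul, abs_of_pos hc], ← mul_sum, h2, mul_one,
      inv_mul_cancel_left₀ hc.ne']
  right_inv u := by
    apply Subtype.ext
    have hp := sphere_pos u
    have h3 : ‖u.1‖ = 1 := mem_sphere_zero_iff_norm.1 u.2
    have h4 : (WithLp.toLp 2 (fun i => (∑ j, |u.1 j|)⁻¹ * u.1 i) : EuclideanSpace ℝ (Fin m)) =
        (∑ j, |u.1 j|)⁻¹ • u.1 := by
      ext i; rfl
    show ‖(WithLp.toLp 2 (fun i => (∑ j, |u.1 j|)⁻¹ * u.1 i) : EuclideanSpace ℝ (Fin m))‖⁻¹ •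
      (WithLp.toLp 2 (fun i => (∑ j, |u.1 j|)⁻¹ * u.1 i) : EuclideanSpace ℝ (Fin m)) = u.1
    rw [h4, norm_smul, h3, mul_one, norm_inv, inv_inv, Real.norm_of_nonneg hp.le, smul_smul,
      mul_inv_cancel₀ hp.ne', one_smul]
  continuous_toFun := by
    refine Continuous.subtype_mk ?_ _
    have h1 : Continuous fun v : cross m => (WithLp.toLp 2 v.1 : EuclideanSpace ℝ (Fin m)) :=
      (PiLp.continuous_toLp 2 (fun _ : Fin m => ℝ)).comp continuous_subtype_val
    exact (h1.norm.inv₀ fun v => norm_ne_zero_iff.2 (cross_ne v)).smul h1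
  continuous_invFun := by
    refine Continuous.subtype_mk ?_ _
    have c : ∀ j, Continuous fun u : Metric.sphere (0 : EuclideanSpace ℝ (Fin m)) 1 => u.1 j := fun j => by fun_prop
    have h1 : Continuous fun u : Metric.sphere (0 : EuclideanSpace ℝ (Fin m)) 1 => ∑ j, |u.1 j| :=
      continuous_finsetSum _ fun j _ => (c j).abs
    exact continuous_pi fun i => (h1.inv₀ fun u => (sphere_pos u).ne').mul (c i)

end Pool.Agent.H95.TB
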