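import Pool.Agent.H95.TB.PLT

/-!
# The piecewise linear homeomorphism for the untwisted models
-/

open Finset

namespace Pool.Agent.H95.TB

open Pool.Agent.H34.PLE

variable {n r : ℕ} {K : Glue n} {M : Mdl n r K}

namespace Mdl

lemma XX_nonneg (i : K.ι) (x : Sx n) (k : Fin r) : 0 ≤ M.XX i x.1 k := sum_nonneg fun X _ => M.cc_nonneg i x true k X

lemma XX_le (i : K.ι) (x : Sx n) (k : Fin r) : M.XX i x.1 k ≤ M.wk i x.1 k :=
  sum_le_sum fun X _ => by rw [lw_eq]; linarith [M.cc_nonneg i x false k X]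

/-- coordinates of glued points -/
lemma glue_data {i j : K.ι} {a b : Fin (n + 1)} (h : M.Comp1 i a j b) (htw : ∀ k, M.tw k = false) {x y : Sx n}
    (ha : x.1 a = 0) (hb : y.1 b = 0) (hxy : ∀ s, x.1 (a.succAbove s) = y.1 (b.succAbove s)) :
    M.pX j y.1 = M.pX i x.1 ∧ M.wk j y.1 = M.wk i x.1 ∧
    (∀ k, ∃ c : ℤ, M.XX j y.1 k = M.XX i x.1 k + c * M.wk i x.1 k) ∧ (M.ε i = M.ε j ∨
      (M.ε i = true ∧ M.ε j = false ∧ ∃ Z, M.pX i x.1 Z = 0)) := by
  obtain ⟨h1, h2⟩ := h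
  have ex : ∀ (F : Fin (n + 1) → Prop) [DecidablePred F], (∑ t, if F t then x.1 t else 0) =
      ∑ s : Fin n, if F (a.succAbove s) then x.1 (a.succAbove s) else 0 := by
    intro F _
    rw [Fin.sum_univ_succAbove _ a, ha, ite_self, zero_add]
  have ey : ∀ (F : Fin (n + 1) → Prop) [DecidablePred F], (∑ t, if F t then y.1 t else 0) =
      ∑ s : Fin n, if F (b.succAbove s) then y.1 (b.succAbove s) else 0 := by
    intro F _
    rw [Fin.sum_univ_succAbove _ b, hb, ite_self, zero_add]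
  have elw : ∀ k X, M.lw j y.1 k X = M.lw i x.1 k X := by
    intro k X
    unfold lw
    rw [ex (fun t => M.kk i t = k ∧ M.ll i t = X), ey (fun t => M.kk j t = k ∧ M.ll j t = X)]
    refine sum_congr rfl fun s _ => ?_
    rw [(h1 s).1, (h1 s).2, hxy s]
  have elw' : M.lw j y.1 = M.lw i x.1 := by funext k X; exact elw k X
  have key : ∀ (k : Fin r) (c : ℤ),
      (∀ s : Fin n, M.kk i (a.succAbove s) = k → ind (M.rn j (b.succAbove s)) = ind (M.rn i (a.succAbove s)) + c) →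
      M.XX j y.1 k = M.XX i x.1 k + c * M.wk i x.1 k := by
    intro k c hc
    rw [XX_eq, XX_eq, wk_eq, ex (fun t => M.kk i t = k ∧ M.rn i t = true), ex (fun t => M.kk i t = k),
      ey (fun t => M.kk j t = k ∧ M.rn j t = true), mul_sum, ← sum_add_distrib]
    refine sum_congr rfl fun s _ => ?_
    rw [← (h1 s).1, ← hxy s]
    by_cases hk : M.kk i (a.succAbove s) = k
    · have h4 : ((ind (M.rn j (b.succAbove s)) : ℤ) : ℝ) = ind (M.rn i (a.succAbove s)) + c := by
        rw [hc s hk]; push_cast; rfl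
      have h5 : ∀ b : Bool, (if M.kk i (a.succAbove s) = k ∧ b = true then x.1 (a.succAbove s) else 0) =
          (ind b : ℝ) * x.1 (a.succAbove s) := by
        intro b
        unfold ind
        cases b <;> simp [hk]
      rw [h5, h5, h4, if_pos hk]
      ring
    · simp [hk]
  refine ⟨by unfold pX; rw [elw'], by unfold wk; rw [elw'], fun k => ?_, ?_⟩
  · rcases h2 with ⟨_, hc⟩ | ⟨_, _, Z, _, hc⟩
    · obtain ⟨c, hc⟩ := hc k
      exact ⟨c, key k c hc⟩
    · obtain ⟨c, hc⟩ := hc k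
      exact ⟨c, key k c fun s hs => by
        rw [hc s hs, if_neg (fun h => absurd (htw k) (by rw [h.2.1]; decide)), sub_zero]⟩
  · rcases h2 with ⟨he, _⟩ | ⟨hi, hj, Z, hZ, _⟩
    · exact Or.inl he
    · refine Or.inr ⟨hi, hj, Z, ?_⟩
      rw [pX_eq, ex (fun t => M.ll i t = Z)]
      exact sum_eq_zero fun s _ => if_neg (hZ s)

/-- the map on one facet -/
noncomputable def G0 (M : Mdl n r K) (i : K.ι) (x : Fin (n + 1) → ℝ) : (Fin 4 → ℝ) × (Fin (r * 2) → ℝ) :=
  (base4 (M.ε i) (M.pX i x), fib (M.wk i x) (M.XX i x))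

lemma G0_mem (i : K.ι) (x : Sx n) : M.G0 i x.1 ∈ bdSx 3 ×ˢ cross (r * 2) :=
  ⟨base4_mem (M.pX_tri i x) _, fib_mem (M.wk_sum i x) (XX_nonneg i x) (XX_le i x)⟩

lemma G0_glue1 (htw : ∀ k, M.tw k = false) {i j : K.ι} {a b : Fin (n + 1)} (h : M.Comp1 i a j b) {x y : Sx n}
    (ha : x.1 a = 0) (hb : y.1 b = 0) (hxy : ∀ s, x.1 (a.succAbove s) = y.1 (b.succAbove s)) :
    M.G0 i x.1 = M.G0 j y.1 := by
  obtain ⟨h1, h2, h3, h4⟩ := glue_data h htw ha hb hxy
  refine Prod.ext ?_ ?_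
  · show base4 (M.ε i) (M.pX i x.1) = base4 (M.ε j) (M.pX j y.1)
    rw [h1]
    rcases h4 with h4 | ⟨hi, hj, Z, hZ⟩
    · rw [h4]
    · rw [hi, hj]; exact (base4_glue (M.pX_tri i x) hZ).symm
  · show fib (M.wk i x.1) (M.XX i x.1) = fib (M.wk j y.1) (M.XX j y.1)
    rw [h2]
    have key : ∀ k, c1 (M.wk i x.1 k) (M.XX i x.1 k) = c1 (M.wk i x.1 k) (M.XX j y.1 k) ∧
        c2 (M.wk i x.1 k) (M.XX i x.1 k) = c2 (M.wk i x.1 k) (M.XX j y.1 k) := by
      intro k
      have hw := M.wk_nonneg i x k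
      have a1 := XX_nonneg (M := M) i x k
      have a2 := XX_le (M := M) i x k
      have b1 := XX_nonneg (M := M) j y k
      have b2 := XX_le (M := M) j y k
      rw [h2] at b2
      rcases hw.eq_or_lt with h0 | h0
      · have e1 : M.XX i x.1 k = 0 := by linarith
        have e2 : M.XX j y.1 k = 0 := by linarith
        rw [e1, e2]
        exact ⟨rfl, rfl⟩
      · obtain ⟨c, hc⟩ := h3 k
        rcases int_cases h0 hc b1 b2 a1 a2 with h5 | ⟨h5, h6⟩ | ⟨h5, h6⟩
        · rw [h5]; exact ⟨rfl, rfl⟩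
        · rw [h5, h6, (c_zero hw).1, (c_zero hw).2, (c_full hw).1, (c_full hw).2]; exact ⟨rfl, rfl⟩
        · rw [h5, h6, (c_zero hw).1, (c_zero hw).2, (c_full hw).1, (c_full hw).2]; exact ⟨rfl, rfl⟩
    refine fib_ext (fun k => ?_) fun k => ?_
    · rw [fib_0, fib_0]; exact (key k).1
    · rw [fib_1, fib_1]; exact (key k).2

lemma G0_rel (hM : M.Good) (htw : ∀ k, M.tw k = false) (p q : Σ _ : K.ι, Sx n) (h : K.Rel p q) :
    M.G0 p.1 p.2.1 = M.G0 q.1 q.2.1 := by
  obtain ⟨a, b, ha, hb, hf, hs⟩ := h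
  rcases hM.glue _ _ _ _ hf with h | h
  · exact G0_glue1 htw h ha hb hs
  · exact (G0_glue1 htw h hb ha fun s => (hs s).symm).symm

/-- equal coordinates give equal lists -/
theorem lst_of (hM : M.Good) {i j : K.ι} {x y : Sx n} (he : M.ε i = M.ε j) (hp : M.pX i x.1 = M.pX j y.1)
    (hw : ∀ k, M.wk j y.1 k = M.wk i x.1 k) (hX : ∀ k, M.XX i x.1 k = M.XX j y.1 k ∨
      (M.XX i x.1 k = M.wk i x.1 k ∧ M.XX j y.1 k = 0) ∨ (M.XX i x.1 k = 0 ∧ M.XX j y.1 k = M.wk i x.1 k)) :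
    M.lst i x.1 = M.lst j y.1 := by
  have hl : M.lw i x.1 = M.lw j y.1 := by
    refine chain_unique (M.lw_nonneg i x) (M.lw_nonneg j y) (lw_chain hM i x) (lw_chain hM j y) ?_ ?_
    · intro k; exact (hw k).symm
    · intro X; exact congrFun hp X
  refine lst_eq_of hM x.1 y.1 he fun k => ?_
  have hlx : ∀ X, M.lw i x.1 k X = M.cc i x.1 false k X + M.cc i x.1 true k X := M.lw_eq i x.1 k
  have hly : ∀ X, M.lw j y.1 k X = M.cc j y.1 false k X + M.cc j y.1 true k X := M.lw_eq j y.1 k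
  have nx := fun b X => M.cc_nonneg i x b k X
  have ny := fun b X => M.cc_nonneg j y b k X
  have hlk : ∀ X, M.lw i x.1 k X = M.lw j y.1 k X := fun X => by rw [hl]
  have full : ∀ (i : K.ι) (x : Sx n), M.XX i x.1 k = M.wk i x.1 k →
      ∀ X, M.cc i x.1 false k X = 0 ∧ M.cc i x.1 true k X = M.lw i x.1 k X := by
    intro i x h X
    have h3 : ∑ X, M.cc i x.1 false k X = 0 := by
      have : M.wk i x.1 k = (∑ X, M.cc i x.1 false k X) + M.XX i x.1 k := by
        unfold wk XX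
        rw [← sum_add_distrib]
        exact sum_congr rfl fun X _ => M.lw_eq i x.1 k X
      linarith
    have h4 := (sum_eq_zero_iff_of_nonneg (fun X _ => M.cc_nonneg i x false k X)).1 h3 X (mem_univ X)
    refine ⟨h4, ?_⟩
    rw [M.lw_eq, h4, zero_add]
  have empty : ∀ (i : K.ι) (x : Sx n), M.XX i x.1 k = 0 →
      ∀ X, M.cc i x.1 true k X = 0 ∧ M.cc i x.1 false k X = M.lw i x.1 k X := by
    intro i x h X
    have h4 := (sum_eq_zero_iff_of_nonneg (fun X _ => M.cc_nonneg i x true k X)).1 h X (mem_univ X)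
    refine ⟨h4, ?_⟩
    rw [M.lw_eq, h4, add_zero]
  rcases hX k with h5 | ⟨h5, h6⟩ | ⟨h5, h6⟩
  · left
    have hcut := cut_unique (sg_inj (M.tw k && !M.ε i)) (nx false) (nx true) (ny false) (ny true)
      (cc_cut hM i x k) (by rw [he]; exact cc_cut hM j y k) (fun X => by rw [← hlx, ← hly, hlk]) h5
    intro b X
    cases b
    · exact congrFun hcut.1 X
    · exact congrFun hcut.2 X
  · right
    refine ⟨true, fun X => ?_⟩
    have c1 := full i x h5 X
    have c2 := empty j y h6 X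
    rw [Bool.not_true, c1.1, c1.2, c2.1, c2.2, hlk]
    exact ⟨rfl, rfl, rfl⟩
  · right
    refine ⟨false, fun X => ?_⟩
    have c1 := empty i x h5 X
    have c2 := full j y (h6.trans (hw k).symm) X
    rw [Bool.not_false, c1.1, c1.2, c2.1, c2.2, hlk]
    exact ⟨rfl, rfl, rfl⟩

lemma G0_data {i j : K.ι} {x y : Sx n} (h : M.G0 i x.1 = M.G0 j y.1) :
    (M.pX i x.1 = M.pX j y.1 ∧ (M.ε i = M.ε j ∨ ∃ Z, M.pX i x.1 Z = 0)) ∧
    (∀ k, M.wk j y.1 k = M.wk i x.1 k) ∧ ∀ k, M.XX i x.1 k = M.XX j y.1 k ∨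
      (M.XX i x.1 k = M.wk i x.1 k ∧ M.XX j y.1 k = 0) ∨ (M.XX i x.1 k = 0 ∧ M.XX j y.1 k = M.wk i x.1 k) := by
  have h1 : base4 (M.ε i) (M.pX i x.1) = base4 (M.ε j) (M.pX j y.1) := congrArg Prod.fst h
  have h2 : fib (M.wk i x.1) (M.XX i x.1) = fib (M.wk j y.1) (M.XX j y.1) := congrArg Prod.snd h
  have hw : ∀ k, M.wk j y.1 k = M.wk i x.1 k := by
    intro k
    have a1 := c_abs (XX_nonneg (M := M) i x k) (XX_le (M := M) i x k)
    have a2 := c_abs (XX_nonneg (M := M) j y k) (XX_le (M := M) j y k)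
    rw [← a1, ← a2, ← fib_0, ← fib_1, ← fib_0, ← fib_1, h2]
  refine ⟨base4_inj (M.pX_tri i x) (M.pX_tri j y) h1, hw, fun k => ?_⟩
  have e1 := congrFun h2 (finProdFinEquiv (k, 0))
  have e2 := congrFun h2 (finProdFinEquiv (k, 1))
  rw [fib_0, fib_0, hw k] at e1
  rw [fib_1, fib_1, hw k] at e2
  exact c_inj (XX_nonneg (M := M) i x k) (XX_le (M := M) i x k) (XX_nonneg (M := M) j y k)
    (by rw [← hw k]; exact XX_le (M := M) j y k) e1 e2

lemma pt_eq_of_G0 (hM : M.Good) {i j : K.ι} {x y : Sx n} (he : M.ε i = M.ε j) (h : M.G0 i x.1 = M.G0 j y.1) :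
    K.pt i x = K.pt j y := by
  obtain ⟨⟨h1, _⟩, h2, h3⟩ := G0_data h
  exact hM.eq i j x y he (lst_of hM he h1 h2 h3)

/-- the map -/
noncomputable def GG0 (hM : M.Good) (htw : ∀ k, M.tw k = false) :
    K.Real → (Fin 4 → ℝ) × (Fin (r * 2) → ℝ) := Quot.lift (fun p => M.G0 p.1 p.2.1) (G0_rel hM htw)

lemma GG0_pt (hM : M.Good) (htw : ∀ k, M.tw k = false) (i : K.ι) (x : Sx n) :
    GG0 hM htw (K.pt i x) = M.G0 i x.1 := rfl

theorem GG0_injective (hM : M.Good) (htw : ∀ k, M.tw k = false) : Function.Injective (GG0 hM htw) := by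
  have key : ∀ {i j : K.ι} {x y : Sx n}, M.ε i = false → M.ε j = true → M.G0 i x.1 = M.G0 j y.1 →
      K.pt i x = K.pt j y := by
    intro i j x y hi hj h
    obtain ⟨⟨h1, h2⟩, _, _⟩ := G0_data h
    have h3 : ∃ Z, M.pX i x.1 Z = 0 := by
      rcases h2 with h2 | h2
      · rw [hi, hj] at h2; exact absurd h2 (by decide)
      · exact h2
    obtain ⟨Z, hZ⟩ := h3
    have h4 : ∀ a, M.ll i a = Z → x.1 a = 0 := by
      intro a ha
      rw [pX_eq] at hZ
      have := (sum_eq_zero_iff_of_nonneg (fun a _ => by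
        split_ifs
        · exact x.2.1 a
        · exact le_rfl)).1 hZ a (mem_univ a)
      rw [if_pos ha] at this
      exact this
    obtain ⟨i', x', hi', hx'⟩ := hM.plus i x hi ⟨Z, h4⟩
    rw [hx']
    refine pt_eq_of_G0 hM (hi'.trans hj.symm) ?_
    rw [← h, ← GG0_pt hM htw, ← hx', GG0_pt]
  intro u v huv
  obtain ⟨i, x, rfl⟩ := K.exists_pt u
  obtain ⟨j, y, rfl⟩ := K.exists_pt v
  rw [GG0_pt, GG0_pt] at huv
  cases hi : M.ε i <;> cases hj : M.ε j
  · exact pt_eq_of_G0 hM (hi.trans hj.symm) huv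
  · exact key hi hj huv
  · exact (key hj hi huv.symm).symm
  · exact pt_eq_of_G0 hM (hi.trans hj.symm) huv

theorem GG0_surj (hM : M.Good) (htw : ∀ k, M.tw k = false) (hr : r ≠ 0) {t : (Fin 4 → ℝ) × (Fin (r * 2) → ℝ)}
    (ht : t ∈ bdSx 3 ×ˢ cross (r * 2)) : ∃ z, GG0 hM htw z = t := by
  obtain ⟨h1, h2⟩ := ht
  obtain ⟨s, P, hP, hs⟩ := base4_surj h1
  have h3 := fun k : Fin r => c_surj (t.2 (finProdFinEquiv (k, 0))) (t.2 (finProdFinEquiv (k, 1)))
  choose X x0 x1 x2 x3 using h3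
  let w : Fin r → ℝ := fun k => |t.2 (finProdFinEquiv (k, 0))| + |t.2 (finProdFinEquiv (k, 1))|
  have hw1 : ∑ k, w k = 1 := by
    have : ∑ i, |t.2 i| = 1 := h2
    rw [sum_pairs (fun i => |t.2 i|)] at this
    exact this
  obtain ⟨i, x, hi, e1, e2, e3, _⟩ := exists_config hM hr s hP (w := w) (X := X)
    (fun k => add_nonneg (abs_nonneg _) (abs_nonneg _)) hw1 x0 x1
  refine ⟨K.pt i x, ?_⟩
  rw [GG0_pt]
  unfold G0
  rw [hi, e1, e2, e3, hs]
  refine Prod.ext rfl ?_
  refine fib_ext (fun k => ?_) fun k => ?_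
  · show fib w X (finProdFinEquiv (k, 0)) = _
    rw [fib_0]; exact x2 k
  · show fib w X (finProdFinEquiv (k, 1)) = _
    rw [fib_1]; exact x3 k

/-! ### piecewise linearity and continuity -/

lemma plf_ite (c : Prop) [Decidable c] (a : Fin (n + 1)) : PLF fun x : Fin (n + 1) → ℝ => if c then x a else 0 := by
  by_cases h : c
  · simp only [if_pos h]
    exact PLF.linear (LinearMap.proj (R := ℝ) (φ := fun _ : Fin (n + 1) => ℝ) a)
  · simp only [if_neg h]
    exact PLF.linear (0 : (Fin (n + 1) → ℝ) →ₗ[ℝ] ℝ)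

lemma plf_pX (i : K.ι) (X : Fin 3) : PLF fun x : Fin (n + 1) → ℝ => M.pX i x X := by
  unfold pX lw
  exact PLF.sum _ fun k _ => PLF.sum _ fun a _ => plf_ite _ a

lemma plf_wk (i : K.ι) (k : Fin r) : PLF fun x : Fin (n + 1) → ℝ => M.wk i x k := by
  unfold wk lw
  exact PLF.sum _ fun k _ => PLF.sum _ fun a _ => plf_ite _ a

lemma plf_XX (i : K.ι) (k : Fin r) : PLF fun x : Fin (n + 1) → ℝ => M.XX i x k := by
  unfold XX cc
  exact PLF.sum _ fun k _ => PLF.sum _ fun a _ => plf_ite _ a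

lemma plf_G0 (i : K.ι) : PLF (M.G0 i) := by
  refine PLF.prod (PLF.pi fun j => ?_) (PLF.pi fun j => ?_)
  · have p0 := plf_pX (M := M) i 0
    have p1 := plf_pX (M := M) i 1
    have p2 := plf_pX (M := M) i 2
    have m := p0.min (p1.min p2)
    cases hi : M.ε i
    · simp only [base4_false]
      fin_cases j
      · exact p0.sub m
      · exact p1.sub m
      · exact p2.sub m
      · exact m.const_mul 3
    · simp only [base4_true]
      fin_cases j
      · exact p0
      · exact p1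
      · exact p2
      · exact PLF.linear (0 : (Fin (n + 1) → ℝ) →ₗ[ℝ] ℝ)
  · have w := plf_wk (M := M) i (finProdFinEquiv.symm j).1
    have X := plf_XX (M := M) i (finProdFinEquiv.symm j).1
    unfold fib
    split_ifs
    · exact ((X.const_mul 4).sub (w.const_mul 2)).abs.sub w
    · exact (w.sub ((X.const_mul 4).sub w).abs).max ((X.const_mul 4).sub (w.const_mul 4))

lemma G0_continuous (i : K.ι) : Continuous fun x : Sx n => M.G0 i x.1 := by
  have hp : ∀ X, Continuous fun x : Sx n => M.pX i x.1 X := fun X =>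
    continuous_finsetSum _ fun k _ => M.lw_continuous i k X
  have hw : ∀ k, Continuous fun x : Sx n => M.wk i x.1 k := fun k =>
    continuous_finsetSum _ fun X _ => M.lw_continuous i k X
  have hX : ∀ k, Continuous fun x : Sx n => M.XX i x.1 k := fun k =>
    continuous_finsetSum _ fun X _ => M.cc_continuous i true k X
  refine Continuous.prodMk (continuous_pi fun j => ?_) (continuous_pi fun j => ?_)
  · have m := (hp 0).min ((hp 1).min (hp 2))
    cases hi : M.ε i
    · simp only [base4_false]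
      fin_cases j
      · exact (hp 0).sub m
      · exact (hp 1).sub m
      · exact (hp 2).sub m
      · exact continuous_const.mul m
    · simp only [base4_true]
      fin_cases j
      · exact hp 0
      · exact hp 1
      · exact hp 2
      · exact continuous_const
  · have w := hw (finProdFinEquiv.symm j).1
    have X := hX (finProdFinEquiv.symm j).1
    unfold fib c1 c2
    split_ifs
    · exact ((continuous_const.mul X).sub (continuous_const.mul w)).abs.sub w
    · exact (w.sub ((continuous_const.mul X).sub w).abs).max ((continuous_const.mul X).sub (continuous_const.mul w))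

/-- The realisation of an untwisted model is piecewise linearly the boundary of a tetrahedron times the boundary of
a cross-polytope. -/
theorem plHomeoOnto (hM : M.Good) (htw : ∀ k, M.tw k = false) (hr : r ≠ 0) [Finite K.ι] :
    PLHomeoOnto K (bdSx 3 ×ˢ cross (r * 2)) := by
  have hmem : ∀ z, GG0 hM htw z ∈ bdSx 3 ×ˢ cross (r * 2) := by
    intro z
    obtain ⟨i, x, rfl⟩ := K.exists_pt z
    rw [GG0_pt]
    exact G0_mem i x
  let f : K.Real → (bdSx 3 ×ˢ cross (r * 2) : Set ((Fin 4 → ℝ) × (Fin (r * 2) → ℝ))) := fun z => ⟨GG0 hM htw z, hmem z⟩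
  have hc : Continuous f := by
    refine Continuous.subtype_mk ?_ _
    refine continuous_quot_lift _ ?_
    rw [continuous_sigma_iff]
    intro i
    exact G0_continuous i
  have hb : Function.Bijective f := by
    refine ⟨fun u v huv => GG0_injective hM htw (congrArg Subtype.val huv), fun t => ?_⟩
    obtain ⟨z, hz⟩ := GG0_surj hM htw hr t.2
    exact ⟨z, Subtype.ext hz⟩
  let e : K.Real ≃ (bdSx 3 ×ˢ cross (r * 2) : Set ((Fin 4 → ℝ) × (Fin (r * 2) → ℝ))) := Equiv.ofBijective f hb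
  have hce : Continuous e := hc
  refine ⟨hce.homeoOfEquivCompactToT2, fun i => ?_⟩
  obtain ⟨Ps, h1, h2⟩ := plf_G0 (M := M) i
  exact ⟨Ps, fun x => h1 x.1, fun P hP x hx => h2 P hP x.1 hx⟩

end Mdl

end Pool.Agent.H95.TB
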