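import Pool.Agent.H95.TB.T0Chk
import Pool.Agent.H95.TB.PLMain

/-!
# The untwisted gluing complex with 72 facets of dimension 9
-/

namespace Pool.Agent.H95.TB.T0

open Pool.Agent.H34.PLE

/-- The complex with 72 facets is piecewise linearly the boundary of a tetrahedron times the boundary of the
cross-polytope in `ℝ⁸`. -/
theorem onto : PLHomeoOnto (glueL 9 24 rowsT) (bdSx 3 ×ˢ {v : Fin 8 → ℝ | ∑ i, |v i| = 1}) := by
  have h : Finite (Tab.K D).ι := inferInstanceAs (Finite (Fin D.rows.length))
  have htw : ∀ k, (Tab.model D ok.hr).tw k = false := by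
    intro k
    show Nat.testBit 0 k = false
    exact Nat.zero_testBit _
  exact Mdl.plHomeoOnto (Tab.good ok) htw (by decide)

end Pool.Agent.H95.TB.T0
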