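import Pool.Agent.H34.PLE.Glue

/-!
# Connectivity of the stars of the faces of a gluing complex

A face of the facet `i` is given by a set `S` of vertices (a predicate on numbers).  If a face can be moved
step by step (through codimension one faces containing it) to a face of another facet, then corresponding
points of the two faces are equal in the realisation.
-/

namespace Pool.Agent.H95.TB

open Pool.Agent.H34.PLE

/-- number of elements of `S` below `a` -/
def cnt (S : ℕ → Bool) (a : ℕ) : ℕ := Nat.count (fun k => S k = true) a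

lemma cnt_zero (S : ℕ → Bool) : cnt S 0 = 0 := Nat.count_zero _

lemma cnt_succ (S : ℕ → Bool) (a : ℕ) : cnt S (a + 1) = cnt S a + if S a = true then 1 else 0 :=
  Nat.count_succ _ _

/-- the point with the values `c` on `S` -/
def ex (S : ℕ → Bool) (c : ℕ → ℝ) (a : ℕ) : ℝ := if S a = true then c (cnt S a) else 0

/-- skip `a` -/
def sa (a s : ℕ) : ℕ := if s < a then s else s + 1

lemma cnt_sa {S : ℕ → Bool} {a : ℕ} (ha : S a = false) (s : ℕ) :
    cnt S (sa a s) = cnt (fun t => S (sa a t)) s := by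
  induction s with
  | zero =>
    rw [cnt_zero]
    unfold sa
    rcases Nat.eq_zero_or_pos a with h | h
    · subst h
      rw [if_neg (lt_irrefl 0), zero_add, cnt_succ, cnt_zero, ha]
      simp
    · rw [if_pos h, cnt_zero]
  | succ s ih =>
    rw [cnt_succ, ← ih, ← cnt_succ]
    unfold sa
    rcases lt_trichotomy (s + 1) a with h | h | h
    · rw [if_pos h, if_pos (by omega)]
    · rw [if_neg (by omega), if_pos (by omega), cnt_succ S (s + 1), h, ha]
      simp
    · rw [if_neg (by omega), if_neg (by omega)]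

lemma ex_sa {S S' : ℕ → Bool} {a b n : ℕ} (ha : S a = false) (hb : S' b = false)
    (h : ∀ s < n, S (sa a s) = S' (sa b s)) (c : ℕ → ℝ) {s : ℕ} (hs : s < n) :
    ex S c (sa a s) = ex S' c (sa b s) := by
  have h1 : ∀ m ≤ n, cnt (fun t => S (sa a t)) m = cnt (fun t => S' (sa b t)) m := by
    intro m
    induction m with
    | zero => intro _; rw [cnt_zero, cnt_zero]
    | succ m ih =>
      intro hm
      rw [cnt_succ, cnt_succ, ih (by omega), h m (by omega)]
  unfold ex
  rw [cnt_sa ha, cnt_sa hb, h1 s hs.le, h s hs]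

variable {n : ℕ}

lemma val_succAbove (a : Fin (n + 1)) (s : Fin n) : ((a.succAbove s : Fin (n + 1)) : ℕ) = sa a s := by
  unfold sa Fin.succAbove
  split_ifs with h1 h2 h2
  · rfl
  · exact absurd h1 (by simpa [Fin.lt_def] using h2)
  · exact absurd h2 (by simpa [Fin.lt_def] using h1)
  · rfl

/-- transport of a point through a codimension one face -/
lemma exists_transport (x : Sx n) {a b : Fin (n + 1)} (ha : x.1 a = 0) :
    ∃ y : Sx n, y.1 b = 0 ∧ ∀ s, x.1 (a.succAbove s) = y.1 (b.succAbove s) := by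
  refine ⟨⟨fun t => b.insertNth (α := fun _ => ℝ) 0 (fun s => x.1 (a.succAbove s)) t, ?_, ?_⟩, ?_, ?_⟩
  · intro t
    refine Fin.succAboveCases b ?_ (fun s => ?_) t
    · simp
    · simp only [Fin.insertNth_apply_succAbove]; exact x.2.1 _
  · rw [Fin.sum_univ_succAbove _ b]
    simp only [Fin.insertNth_apply_same, Fin.insertNth_apply_succAbove, zero_add]
    have := x.2.2
    rw [Fin.sum_univ_succAbove _ a, ha, zero_add] at this
    exact this
  · simp
  · intro s; simp

/-- One step. -/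
lemma step (K : Glue n) {i j : K.ι} {a b : Fin (n + 1)} (hf : K.face i a = K.face j b) {S S' : ℕ → Bool}
    (ha : S a = false) (hb : S' b = false) (h : ∀ s < n, S (sa a s) = S' (sa b s)) (c : ℕ → ℝ) (x : Sx n)
    (hx : ∀ t : Fin (n + 1), x.1 t = ex S c t) :
    ∃ y : Sx n, (∀ t : Fin (n + 1), y.1 t = ex S' c t) ∧ K.pt i x = K.pt j y := by
  have hxa : x.1 a = 0 := by rw [hx]; unfold ex; rw [ha]; simp
  obtain ⟨y, hy0, hy⟩ := exists_transport x (b := b) hxa
  refine ⟨y, ?_, K.pt_eq_of_rel a b hxa hy0 hf hy⟩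
  intro t
  refine Fin.succAboveCases b ?_ (fun s => ?_) t
  · rw [hy0]; unfold ex; rw [hb]; simp
  · rw [← hy s, hx, val_succAbove, val_succAbove, ex_sa ha hb h c s.2]

/-- Many steps: every face is moved to the root of its class. -/
theorem conn (K : Glue n) (V : ℕ → Prop) (bit : ℕ → ℕ → Bool) (rk ρ : K.ι → ℕ → ℕ) (root : ℕ → K.ι × ℕ)
    (H : ∀ i S, V S → root (ρ i S) = (i, S) ∨ ∃ (a b : Fin (n + 1)) (j : K.ι) (S' : ℕ), V S' ∧
      K.face i a = K.face j b ∧ bit S a = false ∧ bit S' b = false ∧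
      (∀ s < n, bit S (sa a s) = bit S' (sa b s)) ∧ rk j S' < rk i S ∧ ρ j S' = ρ i S)
    (c : ℕ → ℝ) : ∀ (m : ℕ) (i : K.ι) (S : ℕ), rk i S < m → V S → ∀ x : Sx n,
      (∀ t : Fin (n + 1), x.1 t = ex (bit S) c t) →
      ∃ z : Sx n, (∀ t : Fin (n + 1), z.1 t = ex (bit (root (ρ i S)).2) c t) ∧
        K.pt i x = K.pt (root (ρ i S)).1 z := by
  intro m
  induction m with
  | zero => intro i S h; omega
  | succ m ih =>
    intro i S hm hV x hx
    rcases H i S hV with h | ⟨a, b, j, S', hV', hf, ha, hb, hs, hr, hρ⟩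
    · rw [h]; exact ⟨x, hx, rfl⟩
    · obtain ⟨y, hy, hxy⟩ := step K hf ha hb hs c x hx
      obtain ⟨z, hz, hyz⟩ := ih j S' (by omega) hV' y hy
      rw [hρ] at hz hyz
      exact ⟨z, hz, hxy.trans hyz⟩

/-- Faces in the same class: corresponding points are equal. -/
theorem conn_eq (K : Glue n) (V : ℕ → Prop) (bit : ℕ → ℕ → Bool) (rk ρ : K.ι → ℕ → ℕ) (root : ℕ → K.ι × ℕ)
    (H : ∀ i S, V S → root (ρ i S) = (i, S) ∨ ∃ (a b : Fin (n + 1)) (j : K.ι) (S' : ℕ), V S' ∧
      K.face i a = K.face j b ∧ bit S a = false ∧ bit S' b = false ∧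
      (∀ s < n, bit S (sa a s) = bit S' (sa b s)) ∧ rk j S' < rk i S ∧ ρ j S' = ρ i S)
    (c : ℕ → ℝ) {i j : K.ι} {S S' : ℕ} (hS : V S) (hS' : V S') (hρ : ρ i S = ρ j S') {x y : Sx n}
    (hx : ∀ t : Fin (n + 1), x.1 t = ex (bit S) c t) (hy : ∀ t : Fin (n + 1), y.1 t = ex (bit S') c t) :
    K.pt i x = K.pt j y := by
  obtain ⟨z, hz, h1⟩ := conn K V bit rk ρ root H c _ i S (Nat.lt_succ_self _) hS x hx
  obtain ⟨z', hz', h2⟩ := conn K V bit rk ρ root H c _ j S' (Nat.lt_succ_self _) hS' y hy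
  rw [h1, h2]
  rw [← hρ] at hz' ⊢
  congr 1
  apply Subtype.ext
  funext t
  exact (hz t).trans (hz' t).symm

end Pool.Agent.H95.TB
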