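import Pool.Agent.H95.TB.Conn
import Pool.Agent.H34.PLE.Tools

/-!
# Bits and digits
-/

namespace Pool.Agent.H95.TB

open Pool.Agent.H34.PLE

/-- evaluate the argument first -/
def fc {β : Type} (x : ℕ) (f : ℕ → β) : β :=
  Nat.rec (motive := fun _ => β) (f 0) (fun n _ => f (Nat.succ n)) x

lemma fc_eq {β : Type} (x : ℕ) (f : ℕ → β) : fc x f = f x := by
  cases x <;> rfl

/-- membership in the set with mask `S` -/
def bit (S a : ℕ) : Bool := Nat.beq (Nat.mod (Nat.shiftRight S a) 2) 1

lemma bit_eq (S a : ℕ) : bit S a = S.testBit a := by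
  unfold bit
  have h1 : Nat.beq (Nat.mod (Nat.shiftRight S a) 2) 1 = decide ((S >>> a) % 2 = 1) := by
    by_cases h : (S >>> a) % 2 = 1
    · rw [decide_eq_true h]; exact Nat.beq_eq ▸ h
    · rw [decide_eq_false h]
      exact Bool.eq_false_iff.2 fun h' => h (Nat.eq_of_beq_eq_true h')
  rw [h1, Nat.testBit_eq_decide_div_mod_eq, Nat.shiftRight_eq_div_pow]

/-- the mask after removing the place `a` -/
def rm (S a : ℕ) : ℕ := Nat.add (Nat.mod S (Nat.pow 2 a)) (Nat.mul (Nat.pow 2 a) (Nat.shiftRight S (Nat.succ a)))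

/-- the mask after inserting an empty place `b` -/
def ins (T b : ℕ) : ℕ := Nat.add (Nat.mod T (Nat.pow 2 b)) (Nat.mul (Nat.pow 2 (Nat.succ b)) (Nat.shiftRight T b))

/-- the mask after removing the place `a` and inserting an empty place `b` -/
def tr (S a b : ℕ) : ℕ := fc (rm S a) fun T => ins T b

lemma bit_rm (S a s : ℕ) : bit (rm S a) s = bit S (sa a s) := by
  rw [bit_eq, bit_eq]
  have h1 : rm S a = 2 ^ a * (S >>> (a + 1)) + S % 2 ^ a := by
    show S % 2 ^ a + 2 ^ a * (S >>> (a + 1)) = _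
    rw [add_comm]
  rw [h1, Nat.testBit_two_pow_mul_add _ (Nat.mod_lt _ (by positivity))]
  unfold sa
  by_cases h : s < a
  · rw [if_pos h, if_pos h, Nat.testBit_mod_two_pow]
    simp [h]
  · rw [if_neg h, if_neg h, Nat.testBit_shiftRight]
    congr 1
    omega

lemma bit_ins (T b s : ℕ) : bit (ins T b) (sa b s) = bit T s := by
  rw [bit_eq, bit_eq]
  have h1 : ins T b = 2 ^ (b + 1) * (T >>> b) + T % 2 ^ b := by
    show T % 2 ^ b + 2 ^ (b + 1) * (T >>> b) = _
    rw [add_comm]
  have h2 : T % 2 ^ b < 2 ^ (b + 1) := (Nat.mod_lt _ (by positivity)).trans (Nat.pow_lt_pow_right (by norm_num) (Nat.lt_succ_self b))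
  rw [h1, Nat.testBit_two_pow_mul_add _ h2]
  unfold sa
  by_cases h : s < b
  · rw [if_pos h, if_pos (by omega), Nat.testBit_mod_two_pow]
    simp [h]
  · rw [if_neg h, if_neg (by omega), Nat.testBit_shiftRight]
    congr 1
    omega

lemma bit_ins_self (T b : ℕ) : bit (ins T b) b = false := by
  rw [bit_eq]
  have h1 : ins T b = 2 ^ (b + 1) * (T >>> b) + T % 2 ^ b := by
    show T % 2 ^ b + 2 ^ (b + 1) * (T >>> b) = _
    rw [add_comm]
  have h2 : T % 2 ^ b < 2 ^ (b + 1) := (Nat.mod_lt _ (by positivity)).trans (Nat.pow_lt_pow_right (by norm_num) (Nat.lt_succ_self b))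
  rw [h1, Nat.testBit_two_pow_mul_add _ h2, if_pos (Nat.lt_succ_self b), Nat.testBit_mod_two_pow]
  simp

lemma bit_tr (S a b s : ℕ) : bit S (sa a s) = bit (tr S a b) (sa b s) := by
  unfold tr
  rw [fc_eq, bit_ins, bit_rm]

lemma bit_tr_self (S a b : ℕ) : bit (tr S a b) b = false := by
  unfold tr
  rw [fc_eq, bit_ins_self]

/-- a mask with given bits -/
lemma exists_mask (m : ℕ) (f : ℕ → Bool) : ∃ S < 2 ^ m, ∀ a < m, bit S a = f a := by
  induction m with
  | zero => exact ⟨0, by norm_num, fun a ha => absurd ha (Nat.not_lt_zero a)⟩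
  | succ m ih =>
    obtain ⟨S, hS, h⟩ := ih
    refine ⟨2 ^ m * (if f m = true then 1 else 0) + S, ?_, ?_⟩
    · rw [pow_succ]; split_ifs <;> omega
    · intro a ha
      rw [bit_eq, Nat.testBit_two_pow_mul_add _ hS]
      rcases Nat.lt_succ_iff_lt_or_eq.1 ha with h1 | rfl
      · rw [if_pos h1, ← bit_eq, h a h1]
      · rw [if_neg (lt_irrefl _), Nat.sub_self]
        cases f a <;> simp

/-- mask of the numbers `g a`, `a < m` -/
def mkS (g : ℕ → ℕ) : ℕ → ℕ
  | 0 => 0
  | a + 1 => Nat.lor (mkS g a) (Nat.pow 2 (g a))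

lemma bit_mk {g : ℕ → ℕ} {m t : ℕ} (h : bit (mkS g m) t = true) : ∃ a < m, g a = t := by
  induction m with
  | zero => unfold mkS at h; rw [bit_eq] at h; simp at h
  | succ m ih =>
    rw [bit_eq] at h
    have h1 : mkS g (m + 1) = mkS g m ||| 2 ^ (g m) := rfl
    rw [h1, Nat.testBit_or, Bool.or_eq_true, Nat.testBit_two_pow] at h
    rcases h with h | h
    · rw [← bit_eq] at h
      obtain ⟨a, ha, hg⟩ := ih h
      exact ⟨a, by omega, hg⟩
    · exact ⟨m, Nat.lt_succ_self m, of_decide_eq_true h⟩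

/-- mask of the `a < m` with `p a` -/
def mkP (p : ℕ → Bool) : ℕ → ℕ
  | 0 => 0
  | a + 1 => cond (p a) (Nat.lor (mkP p a) (Nat.pow 2 a)) (mkP p a)

lemma bit_mkP (p : ℕ → Bool) (m t : ℕ) : bit (mkP p m) t = (decide (t < m) && p t) := by
  induction m with
  | zero => unfold mkP; rw [bit_eq]; simp
  | succ m ih =>
    have h1 : mkP p (m + 1) = cond (p m) (mkP p m ||| 2 ^ m) (mkP p m) := rfl
    rw [h1]
    by_cases hp : p m = true
    · rw [hp, cond_true, bit_eq, Nat.testBit_or, ← bit_eq, ih, Nat.testBit_two_pow]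
      rcases lt_trichotomy t m with h | h | h
      · rw [decide_eq_true h, decide_eq_true (by omega : t < m + 1), decide_eq_false (by omega : ¬ m = t)]; simp
      · subst h; simp [hp]
      · rw [decide_eq_false (by omega : ¬ t < m), decide_eq_false (by omega : ¬ t < m + 1),
          decide_eq_false (by omega : ¬ m = t)]; simp
    · have hp' : p m = false := by simpa using hp
      rw [hp', cond_false, ih]
      rcases lt_trichotomy t m with h | h | h
      · rw [decide_eq_true h, decide_eq_true (by omega : t < m + 1)]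
      · subst h; simp [hp']
      · rw [decide_eq_false (by omega : ¬ t < m), decide_eq_false (by omega : ¬ t < m + 1)]

/-- intersection is nonempty -/
def meets (S T : ℕ) : Bool := Nat.blt 0 (Nat.land S T)

lemma meets_iff (S : ℕ) (p : ℕ → Bool) (m : ℕ) :
    meets S (mkP p m) = true ↔ ∃ a < m, bit S a = true ∧ p a = true := by
  unfold meets
  rw [Nat.blt_eq]
  constructor
  · intro h
    have h0 : S &&& mkP p m ≠ 0 := Nat.pos_iff_ne_zero.1 h
    obtain ⟨t, ht⟩ := Nat.exists_testBit_of_ne_zero h0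
    rw [Nat.testBit_and, Bool.and_eq_true, ← bit_eq, ← bit_eq, bit_mkP, Bool.and_eq_true] at ht
    exact ⟨t, of_decide_eq_true ht.2.1, ht.1, ht.2.2⟩
  · rintro ⟨a, ha, h1, h2⟩
    refine Nat.pos_of_ne_zero fun h0 => ?_
    have : (S &&& mkP p m).testBit a = true := by
      rw [Nat.testBit_and, ← bit_eq, ← bit_eq, bit_mkP, h1, h2]
      simp [ha]
    have h0' : S &&& mkP p m = 0 := h0
    rw [h0', Nat.zero_testBit] at this
    exact absurd this (by decide)

/-- the code of the labels of the places in `S` -/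
def cdA (L S : ℕ) : ℕ → ℕ
  | 0 => 0
  | a + 1 => cond (bit S a) (Nat.add (Nat.mul (cdA L S a) 16) (Nat.succ (dg 4 L a))) (cdA L S a)

lemma cdA_eq (L S m : ℕ) : cdA L S m = (((List.range m).filter (fun a => bit S a)).map (fun a => dg 4 L a)).foldl
    (fun c l => c * 16 + (l + 1)) 0 := by
  induction m with
  | zero => rfl
  | succ m ih =>
    have h1 : cdA L S (m + 1) = cond (bit S m) (cdA L S m * 16 + (dg 4 L m + 1)) (cdA L S m) := rfl
    rw [h1, List.range_succ, List.filter_append, List.map_append, List.foldl_append, ← ih]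
    cases h : bit S m
    · rw [cond_false, List.filter_cons_of_neg (by simp [h])]; rfl
    · rw [cond_true, List.filter_cons_of_pos (by simp [h])]; rfl

end Pool.Agent.H95.TB
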