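import Pool.Agent.H95.TB.Phi

/-!
# The base: the double of a triangle and the complex projective line
-/

open Set

namespace Pool.Agent.H95.TB

/-- `exp (2 π i t)` -/
noncomputable def ee (t : ℝ) : ℂ := Complex.exp (2 * Real.pi * Complex.I * (t : ℂ))

lemma ee_add (s t : ℝ) : ee (s + t) = ee s * ee t := by
  unfold ee; rw [← Complex.exp_add]; congr 1; push_cast; ring

lemma ee_zero : ee 0 = 1 := by unfold ee; simp

lemma norm_ee (t : ℝ) : ‖ee t‖ = 1 := norm_e t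

lemma ee_ne (t : ℝ) : ee t ≠ 0 := Complex.exp_ne_zero _

lemma ee_int (n : ℤ) : ee n = 1 := e_int n

lemma ee_add_int (t : ℝ) (n : ℤ) : ee (t + n) = ee t := by rw [ee_add, ee_int, mul_one]

lemma conj_ee (t : ℝ) : (starRingEnd ℂ) (ee t) = ee (-t) := by
  unfold ee
  rw [← Complex.exp_conj]
  congr 1
  rw [map_mul, map_mul, map_mul, Complex.conj_I, Complex.conj_ofReal, Complex.conj_ofReal, map_ofNat]
  push_cast
  ring

lemma φ_eq (w y : ℝ) : φ w y = (w : ℂ) * ee (y / w) := rfl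

lemma φ_one (y : ℝ) : φ 1 y = ee y := by rw [φ_eq]; simp

lemma continuous_ee : Continuous ee := by unfold ee; fun_prop

/-- points of the triangle -/
def Tri (p : Fin 3 → ℝ) : Prop := (∀ i, 0 ≤ p i) ∧ p 0 + p 1 + p 2 = 1

open Classical in
/-- homeomorphism of the triangle to the unit disc -/
noncomputable def ζ (p : Fin 3 → ℝ) : ℂ :=
  if p 0 ≤ p 1 ∧ p 0 ≤ p 2 then φ (1 - 3 * p 0) ((p 1 - p 0) / 3)
  else if p 2 ≤ p 0 ∧ p 2 ≤ p 1 then φ (1 - 3 * p 2) ((1 - 3 * p 2) / 3 + (p 0 - p 2) / 3)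
  else φ (1 - 3 * p 1) (2 * (1 - 3 * p 1) / 3 + (p 2 - p 1) / 3)

lemma ζ_1 {p : Fin 3 → ℝ} (h : p 0 ≤ p 1 ∧ p 0 ≤ p 2) :
    ζ p = φ (1 - 3 * p 0) ((p 1 - p 0) / 3) := by
  unfold ζ; rw [if_pos h]

lemma ζ_2 {p : Fin 3 → ℝ} (hp : Tri p) (h : p 2 ≤ p 0 ∧ p 2 ≤ p 1) :
    ζ p = φ (1 - 3 * p 2) ((1 - 3 * p 2) / 3 + (p 0 - p 2) / 3) := by
  unfold ζ
  split_ifs with h1
  · have e : p 0 = p 2 := le_antisymm h1.2 h.1
    have e1 : p 1 = 1 - 2 * p 2 := by have := hp.2; rw [e] at this; linarith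
    rw [e, e1]
    congr 1
    ring
  · rfl

lemma ζ_3 {p : Fin 3 → ℝ} (hp : Tri p) (h : p 1 ≤ p 0 ∧ p 1 ≤ p 2) :
    ζ p = φ (1 - 3 * p 1) (2 * (1 - 3 * p 1) / 3 + (p 2 - p 1) / 3) := by
  unfold ζ
  split_ifs with h1 h2
  · have e : p 0 = p 1 := le_antisymm h1.1 h.1
    have e1 : p 2 = 1 - 2 * p 1 := by have := hp.2; rw [e] at this; linarith
    rw [e, e1]
    have := φ_add_int (1 - 3 * p 1) ((p 1 - p 1) / 3) 1
    rw [← this]
    congr 1
    push_cast
    ring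
  · have e : p 2 = p 1 := le_antisymm h2.2 h.2
    have e1 : p 0 = 1 - 2 * p 1 := by have := hp.2; rw [e] at this; linarith
    rw [e, e1]
    congr 1
    ring
  · rfl

lemma tri_cases (p : Fin 3 → ℝ) :
    (p 0 ≤ p 1 ∧ p 0 ≤ p 2) ∨ (p 2 ≤ p 0 ∧ p 2 ≤ p 1) ∨ (p 1 ≤ p 0 ∧ p 1 ≤ p 2) := by
  rcases le_total (p 0) (p 1) with h1 | h1 <;> rcases le_total (p 0) (p 2) with h2 | h2 <;>
    rcases le_total (p 1) (p 2) with h3 | h3
  all_goals first
    | exact Or.inl ⟨by linarith, by linarith⟩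
    | exact Or.inr (Or.inl ⟨by linarith, by linarith⟩)
    | exact Or.inr (Or.inr ⟨by linarith, by linarith⟩)

/-- normal form of `ζ`: in all cases `ζ p = φ (1 - 3 m) y` where `m` is the minimum -/
lemma ζ_cases {p : Fin 3 → ℝ} (hp : Tri p) :
    (p 0 ≤ p 1 ∧ p 0 ≤ p 2 ∧ ζ p = φ (1 - 3 * p 0) ((p 1 - p 0) / 3)) ∨
    (p 2 ≤ p 0 ∧ p 2 ≤ p 1 ∧ ζ p = φ (1 - 3 * p 2) ((1 - 3 * p 2) / 3 + (p 0 - p 2) / 3)) ∨
    (p 1 ≤ p 0 ∧ p 1 ≤ p 2 ∧ ζ p = φ (1 - 3 * p 1) (2 * (1 - 3 * p 1) / 3 + (p 2 - p 1) / 3)) := by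
  rcases tri_cases p with h | h | h
  · exact Or.inl ⟨h.1, h.2, ζ_1 h⟩
  · exact Or.inr (Or.inl ⟨h.1, h.2, ζ_2 hp h⟩)
  · exact Or.inr (Or.inr ⟨h.1, h.2, ζ_3 hp h⟩)

lemma norm_ζ_le {p : Fin 3 → ℝ} (hp : Tri p) : ‖ζ p‖ ≤ 1 := by
  have h0 := hp.1 0; have h1 := hp.1 1; have h2 := hp.1 2; have h3 := hp.2
  rcases ζ_cases hp with ⟨a, b, h⟩ | ⟨a, b, h⟩ | ⟨a, b, h⟩ <;> rw [h, norm_φ, abs_of_nonneg (by linarith)] <;> linarith

lemma norm_ζ_eq {p : Fin 3 → ℝ} (hp : Tri p) (h1 : ‖ζ p‖ = 1) : p 0 = 0 ∨ p 1 = 0 ∨ p 2 = 0 := by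
  have h0 := hp.1 0; have h1' := hp.1 1; have h2 := hp.1 2; have h3 := hp.2
  rcases ζ_cases hp with ⟨a, b, h⟩ | ⟨a, b, h⟩ | ⟨a, b, h⟩ <;>
    rw [h, norm_φ, abs_of_nonneg (by linarith)] at h1
  · left; linarith
  · right; right; linarith
  · right; left; linarith

lemma ζ_continuous {X : Type*} [TopologicalSpace X] {p : X → Fin 3 → ℝ} (hp : Continuous p)
    (ht : ∀ x, Tri (p x)) : Continuous fun x => ζ (p x) := by
  have hc : ∀ i, Continuous fun x => p x i := fun i => (continuous_apply i).comp hp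
  have c0 := hc 0; have c1 := hc 1; have c2 := hc 2
  let C : Fin 3 → Set X := ![{x | p x 0 ≤ p x 1 ∧ p x 0 ≤ p x 2}, {x | p x 2 ≤ p x 0 ∧ p x 2 ≤ p x 1},
    {x | p x 1 ≤ p x 0 ∧ p x 1 ≤ p x 2}]
  refine (locallyFinite_of_finite C).continuous ?_ ?_ ?_
  · rw [eq_univ_iff_forall]
    intro x
    rw [mem_iUnion]
    rcases tri_cases (p x) with h | h | h
    · exact ⟨0, h⟩
    · exact ⟨1, h⟩
    · exact ⟨2, h⟩
  · intro i
    fin_cases i
    · exact (isClosed_le c0 c1).inter (isClosed_le c0 c2)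
    · exact (isClosed_le c2 c0).inter (isClosed_le c2 c1)
    · exact (isClosed_le c1 c0).inter (isClosed_le c1 c2)
  · intro i
    fin_cases i
    · have h : Continuous fun x => φ (1 - 3 * p x 0) ((p x 1 - p x 0) / 3) :=
        continuous_φ.comp ((by fun_prop : Continuous fun x => ((1 - 3 * p x 0), ((p x 1 - p x 0) / 3))))
      exact h.continuousOn.congr fun x hx => ζ_1 hx
    · have h : Continuous fun x => φ (1 - 3 * p x 2) ((1 - 3 * p x 2) / 3 + (p x 0 - p x 2) / 3) :=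
        continuous_φ.comp ((by fun_prop : Continuous fun x =>
          ((1 - 3 * p x 2), ((1 - 3 * p x 2) / 3 + (p x 0 - p x 2) / 3))))
      exact h.continuousOn.congr fun x hx => ζ_2 (ht x) hx
    · have h : Continuous fun x => φ (1 - 3 * p x 1) (2 * (1 - 3 * p x 1) / 3 + (p x 2 - p x 1) / 3) :=
        continuous_φ.comp ((by fun_prop : Continuous fun x =>
          ((1 - 3 * p x 1), (2 * (1 - 3 * p x 1) / 3 + (p x 2 - p x 1) / 3))))
      exact h.continuousOn.congr fun x hx => ζ_3 (ht x) hx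

/-- bounded differences -/
lemma int_cases {n : ℤ} {ρ y y' : ℝ} (hρ : 0 < ρ) (h : y = y' + n * ρ) (h1 : 0 ≤ y) (h2 : y ≤ ρ)
    (h3 : 0 ≤ y') (h4 : y' ≤ ρ) : y = y' ∨ (y = ρ ∧ y' = 0) ∨ (y = 0 ∧ y' = ρ) := by
  have hn1 : (n : ℝ) * ρ ≤ 1 * ρ := by linarith
  have hn2 : (-1) * ρ ≤ (n : ℝ) * ρ := by linarith
  have hn1' := le_of_mul_le_mul_right hn1 hρ
  have hn2' := le_of_mul_le_mul_right hn2 hρ
  have a1 : n ≤ 1 := by exact_mod_cast hn1'
  have a2 : -1 ≤ n := by exact_mod_cast hn2'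
  have : n = -1 ∨ n = 0 ∨ n = 1 := by omega
  rcases this with rfl | rfl | rfl
  · right; right; push_cast at h; constructor <;> linarith
  · left; push_cast at h; linarith
  · right; left; push_cast at h; constructor <;> linarith

lemma ζ_inj {p p' : Fin 3 → ℝ} (hp : Tri p) (hp' : Tri p') (h : ζ p = ζ p') : p = p' := by
  have a0 := hp.1 0; have a1 := hp.1 1; have a2 := hp.1 2; have a3 := hp.2
  have b0 := hp'.1 0; have b1 := hp'.1 1; have b2 := hp'.1 2; have b3 := hp'.2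
  have key : p 0 = p' 0 ∧ p 1 = p' 1 ∧ p 2 = p' 2 := by
    have main : ∀ m m' y y' : ℝ, ζ p = φ (1 - 3 * m) y → ζ p' = φ (1 - 3 * m') y' → 0 ≤ 1 - 3 * m → 0 ≤ 1 - 3 * m' →
        0 ≤ y → y ≤ 1 - 3 * m → 0 ≤ y' → y' ≤ 1 - 3 * m' →
        m = m' ∧ (1 - 3 * m = 0 ∨ y = y' ∨ (y = 1 - 3 * m ∧ y' = 0) ∨ (y = 0 ∧ y' = 1 - 3 * m)) := by
      intro m m' y y' e1 e2 p1 p2 p3 p4 p5 p6
      have hm : m = m' := by
        have h1 := congrArg norm h
        rw [e1, e2, norm_φ, norm_φ, abs_of_nonneg p1, abs_of_nonneg p2] at h1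
        linarith
      refine ⟨hm, ?_⟩
      rcases p1.eq_or_lt with h0 | h0
      · left; exact h0.symm
      · right
        rw [e1, e2, ← hm] at h
        obtain ⟨n, hn⟩ := φ_inj h0 h
        exact int_cases h0 hn p3 p4 p5 (by rw [hm]; exact p6)
    rcases ζ_cases hp with ⟨h1, h2, e1⟩ | ⟨h1, h2, e1⟩ | ⟨h1, h2, e1⟩ <;>
      rcases ζ_cases hp' with ⟨g1, g2, e2⟩ | ⟨g1, g2, e2⟩ | ⟨g1, g2, e2⟩ <;>
      obtain ⟨hm, h | h | ⟨h, h'⟩ | ⟨h, h'⟩⟩ := main _ _ _ _ e1 e2 (by linarith) (by linarith) (by linarith)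
        (by linarith) (by linarith) (by linarith) <;>
      refine ⟨?_, ?_, ?_⟩ <;> linarith
  funext i
  fin_cases i
  exacts [key.1, key.2.1, key.2.2]

lemma ζ_surj {z : ℂ} (hz : ‖z‖ ≤ 1) : ∃ p, Tri p ∧ ζ p = z := by
  obtain ⟨t, h0, h1, h2⟩ := exists_polar z
  have hn := norm_nonneg z
  set ρ := ‖z‖ with hρ
  have ht0 : 0 ≤ t * ρ := mul_nonneg h0 hn
  have ht1 : t * ρ ≤ ρ := mul_le_of_le_one_left hn h1.le
  rcases le_or_gt t (1/3) with ha | ha
  · have : t * ρ ≤ 1/3 * ρ := mul_le_mul_of_nonneg_right ha hn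
    refine ⟨![(1 - ρ)/3, (1 - ρ)/3 + 3 * (t * ρ), (1 - ρ)/3 + ρ - 3 * (t * ρ)], ⟨?_, ?_⟩, ?_⟩
    · intro i; fin_cases i <;> simp <;> linarith
    · simp; ring
    · rw [ζ_1 (by constructor <;> simp <;> linarith), h2]
      simp only [Matrix.cons_val_zero, Matrix.cons_val_one]
      congr 1 <;> ring
  · rcases le_or_gt t (2/3) with hb | hb
    · have hb' : t * ρ ≤ 2/3 * ρ := mul_le_mul_of_nonneg_right hb hn
      have ha' : 1/3 * ρ ≤ t * ρ := mul_le_mul_of_nonneg_right ha.le hn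
      have hT : Tri ![(1 - ρ)/3 + 3 * (t * ρ) - ρ, (1 - ρ)/3 + 2 * ρ - 3 * (t * ρ), (1 - ρ)/3] := by
        refine ⟨?_, ?_⟩
        · intro i; fin_cases i <;> simp <;> linarith
        · simp; ring
      refine ⟨_, hT, ?_⟩
      rw [ζ_2 hT (by constructor <;> simp <;> linarith), h2]
      simp only [Matrix.cons_val_zero, Matrix.cons_val]
      congr 1 <;> ring
    · have hb' : 2/3 * ρ ≤ t * ρ := mul_le_mul_of_nonneg_right hb.le hn
      have hT : Tri ![(1 - ρ)/3 + 3 * ρ - 3 * (t * ρ), (1 - ρ)/3, (1 - ρ)/3 + 3 * (t * ρ) - 2 * ρ] := by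
        refine ⟨?_, ?_⟩
        · intro i; fin_cases i <;> simp <;> linarith
        · simp; ring
      refine ⟨_, hT, ?_⟩
      rw [ζ_3 hT (by constructor <;> simp <;> linarith), h2]
      simp only [Matrix.cons_val_one, Matrix.cons_val]
      congr 1 <;> ring

/-- The lift of the base to `ℂ²`, for the sign `true` (plus) and `false` (minus). -/
noncomputable def U (s : Bool) (p : Fin 3 → ℝ) : ℂ × ℂ :=
  match s with
  | true => (ζ p, 1)
  | false => (ee (-(2 * p 1 + p 0) / 3), ee (-(2 * p 1 + p 0) / 3) * (starRingEnd ℂ) (ζ p))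

lemma U_ne (s : Bool) (p : Fin 3 → ℝ) : U s p ≠ 0 := by
  cases s
  · intro h
    exact ee_ne _ (congrArg Prod.fst h)
  · intro h
    exact one_ne_zero (congrArg Prod.snd h)

lemma U_A {p : Fin 3 → ℝ} (hp : Tri p) (h : p 0 = 0) : U false p = ee (-(p 1)) • U true p := by
  have h1 := hp.1 1; have h2 := hp.1 2
  have e : ζ p = ee (p 1 / 3) := by
    rw [ζ_1 (by constructor <;> linarith), h]
    simp [φ_one]
  unfold U
  simp only [e, conj_ee, h, Prod.smul_mk, smul_eq_mul, mul_one, Prod.mk.injEq, ← ee_add]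
  constructor <;> congr 1 <;> ring

lemma U_C {p : Fin 3 → ℝ} (hp : Tri p) (h : p 2 = 0) : U false p = U true p := by
  have h0 := hp.1 0; have h1 := hp.1 1; have h3 := hp.2
  have e : ζ p = ee (1 / 3 + p 0 / 3) := by
    rw [ζ_2 hp (by constructor <;> linarith), h]
    simp [φ_one]
  have e1 : p 1 = 1 - p 0 := by linarith
  unfold U
  simp only [e, conj_ee, e1, Prod.mk.injEq, ← ee_add]
  constructor
  · rw [← ee_add_int (-(2 * (1 - p 0) + p 0) / 3) 1]
    congr 1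
    push_cast
    ring
  · have := ee_int (-1)
    rw [← this]
    congr 1
    push_cast
    ring

lemma U_B {p : Fin 3 → ℝ} (hp : Tri p) (h : p 1 = 0) : U false p = U true p := by
  have h0 := hp.1 0; have h1 := hp.1 2; have h3 := hp.2
  have e : ζ p = ee (2 / 3 + p 2 / 3) := by
    rw [ζ_3 hp (by constructor <;> linarith), h]
    simp [φ_one]
  have e1 : p 0 = 1 - p 2 := by linarith
  unfold U
  simp only [e, conj_ee, h, e1, Prod.mk.injEq, ← ee_add]
  constructor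
  · rw [← ee_add_int (-(2 * 0 + (1 - p 2)) / 3) 1]
    congr 1
    push_cast
    ring
  · have := ee_int (-1)
    rw [← this]
    congr 1
    push_cast
    ring

lemma U_continuous (s : Bool) {X : Type*} [TopologicalSpace X] {p : X → Fin 3 → ℝ} (hp : Continuous p)
    (ht : ∀ x, Tri (p x)) : Continuous fun x => U s (p x) := by
  have hz := ζ_continuous hp ht
  have hc : ∀ i, Continuous fun x => p x i := fun i => (continuous_apply i).comp hp
  have c0 := hc 0; have c1 := hc 1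
  cases s
  · have h1 : Continuous fun x => ee (-(2 * p x 1 + p x 0) / 3) :=
      continuous_ee.comp (by fun_prop : Continuous fun x => -(2 * p x 1 + p x 0) / 3)
    exact h1.prodMk (h1.mul (Complex.continuous_conj.comp hz))
  · exact hz.prodMk continuous_const

/-- injectivity of the base map -/
lemma U_inj {s s' : Bool} {p p' : Fin 3 → ℝ} (hp : Tri p) (hp' : Tri p') {c : ℂ}
    (h : U s' p' = c • U s p) : p = p' ∧ (s = s' ∨ p 0 = 0 ∨ p 1 = 0 ∨ p 2 = 0) := by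
  have n1 := norm_ζ_le hp
  have n2 := norm_ζ_le hp'
  have h1 := congrArg Prod.fst h
  have h2 := congrArg Prod.snd h
  cases s <;> cases s'
  · simp only [U, Prod.smul_mk, smul_eq_mul] at h1 h2
    refine ⟨ζ_inj hp hp' ?_, Or.inl rfl⟩
    rw [h1, mul_assoc] at h2
    have hc : c ≠ 0 := by
      rintro rfl
      rw [zero_mul] at h1
      exact ee_ne _ h1
    have h3 := mul_left_cancel₀ (ee_ne _) (mul_left_cancel₀ hc h2)
    exact ((starRingEnd ℂ).injective h3).symm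
  · simp only [U, Prod.smul_mk, smul_eq_mul] at h1 h2
    -- `ζ' = c e`, `1 = c e conj ζ`
    have h3 : (1 : ℂ) = ζ p' * (starRingEnd ℂ) (ζ p) := by rw [h1, mul_assoc]; exact h2
    have h4 := congrArg norm h3
    rw [norm_one, norm_mul, RCLike.norm_conj] at h4
    have h5 : ‖ζ p‖ = 1 := le_antisymm n1 (by
      by_contra hlt
      push Not at hlt
      have : ‖ζ p'‖ * ‖ζ p‖ ≤ 1 * ‖ζ p‖ := mul_le_mul_of_nonneg_right n2 (norm_nonneg _)
      linarith)
    have h6 : ζ p * (starRingEnd ℂ) (ζ p) = 1 := by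
      rw [Complex.mul_conj, Complex.normSq_eq_norm_sq, h5]; simp
    have hne : (starRingEnd ℂ) (ζ p) ≠ 0 := by
      intro h0; rw [h0, mul_zero] at h6; exact zero_ne_one h6
    have h7 : ζ p = ζ p' := mul_right_cancel₀ hne (h6.trans h3)
    exact ⟨ζ_inj hp hp' h7, Or.inr (norm_ζ_eq hp h5)⟩
  · simp only [U, Prod.smul_mk, smul_eq_mul, mul_one] at h1 h2
    -- `e' = c ζ`, `e' conj ζ' = c`
    have h3 : (1 : ℂ) = (starRingEnd ℂ) (ζ p') * ζ p := by
      rw [← h2, mul_assoc] at h1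
      have := mul_left_cancel₀ (ee_ne _) ((mul_one _).trans h1)
      exact this
    have h4 := congrArg norm h3
    rw [norm_one, norm_mul, RCLike.norm_conj] at h4
    have h5 : ‖ζ p‖ = 1 := le_antisymm n1 (by
      by_contra hlt
      push Not at hlt
      have : ‖ζ p'‖ * ‖ζ p‖ ≤ 1 * ‖ζ p‖ := mul_le_mul_of_nonneg_right n2 (norm_nonneg _)
      linarith)
    have h5' : ‖ζ p'‖ = 1 := by rw [h5, mul_one] at h4; exact h4.symm
    have h6 : (starRingEnd ℂ) (ζ p') * ζ p' = 1 := by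
      rw [mul_comm, Complex.mul_conj, Complex.normSq_eq_norm_sq, h5']; simp
    have hne : (starRingEnd ℂ) (ζ p') ≠ 0 := by
      intro h0; rw [h0, zero_mul] at h6; exact zero_ne_one h6
    have h7 : ζ p = ζ p' := mul_left_cancel₀ hne (h3.symm.trans h6.symm)
    exact ⟨ζ_inj hp hp' h7, Or.inr (norm_ζ_eq hp h5)⟩
  · simp only [U, Prod.smul_mk, smul_eq_mul, mul_one] at h1 h2
    refine ⟨ζ_inj hp hp' ?_, Or.inl rfl⟩
    rw [← h2, one_mul] at h1
    exact h1.symm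

/-- surjectivity of the base map -/
lemma U_surj (a b : ℂ) (h : a ≠ 0 ∨ b ≠ 0) : ∃ s p, Tri p ∧ ∃ c : ℂ, c ≠ 0 ∧ a = c * (U s p).1 ∧ b = c * (U s p).2 := by
  rcases le_total ‖a‖ ‖b‖ with hab | hab
  · have hb : b ≠ 0 := by
      rintro rfl
      rw [norm_zero] at hab
      have := norm_le_zero_iff.1 hab
      rcases h with h | h
      · exact h this
      · exact h rfl
    obtain ⟨p, hp, hz⟩ := ζ_surj (z := a / b) (by
      rw [norm_div]; exact div_le_one_of_le₀ hab (norm_nonneg _))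
    refine ⟨true, p, hp, b, hb, ?_, ?_⟩
    · simp only [U, hz]; field_simp
    · simp only [U, mul_one]
  · have ha : a ≠ 0 := by
      rintro rfl
      rw [norm_zero] at hab
      have := norm_le_zero_iff.1 hab
      rcases h with h | h
      · exact h rfl
      · exact h this
    obtain ⟨p, hp, hz⟩ := ζ_surj (z := (starRingEnd ℂ) (b / a)) (by
      rw [RCLike.norm_conj, norm_div]; exact div_le_one_of_le₀ hab (norm_nonneg _))
    refine ⟨false, p, hp, a / ee (-(2 * p 1 + p 0) / 3), div_ne_zero ha (ee_ne _), ?_, ?_⟩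
    · simp only [U]; rw [div_mul_cancel₀ _ (ee_ne _)]
    · simp only [U, hz, Complex.conj_conj]
      rw [← mul_assoc, div_mul_cancel₀ _ (ee_ne _)]
      field_simp

end Pool.Agent.H95.TB
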