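import Pool.Agent.H95.TB.Lst

/-!
# Injectivity
-/

open Finset

namespace Pool.Agent.H95.TB

open Pool.Agent.H34.PLE

variable {n r : ℕ} {K : Glue n} {M : Mdl n r K}

namespace Mdl

lemma exists_of_cc_pos {i : K.ι} {x : Fin (n + 1) → ℝ} {b : Bool} {k : Fin r} {X : Fin 3}
    (h : M.cc i x b k X ≠ 0) : ∃ a, M.kk i a = k ∧ M.rn i a = b ∧ M.ll i a = X := by
  by_contra hn
  push Not at hn
  apply h
  unfold cc
  exact sum_eq_zero fun a _ => if_neg fun h => hn a h.1 h.2.1 h.2.2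

lemma exists_of_lw_pos {i : K.ι} {x : Fin (n + 1) → ℝ} {k : Fin r} {X : Fin 3}
    (h : M.lw i x k X ≠ 0) : ∃ a, M.kk i a = k ∧ M.ll i a = X := by
  by_contra hn
  push Not at hn
  apply h
  unfold lw
  exact sum_eq_zero fun a _ => if_neg fun h => hn a h.1 h.2

lemma lw_chain (hM : M.Good) (i : K.ι) (x : Sx n) : Chain (M.lw i x.1) := by
  intro k k' X X' h h' hX
  obtain ⟨a, rfl, rfl⟩ := exists_of_lw_pos h.ne'
  obtain ⟨b, rfl, rfl⟩ := exists_of_lw_pos h'.ne'
  exact hM.chain i a b hX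

lemma cc_cut (hM : M.Good) (i : K.ι) (x : Sx n) (k : Fin r) (X Y : Fin 3) (h : 0 < M.cc i x.1 false k X)
    (h' : 0 < M.cc i x.1 true k Y) : sg (M.tw k && !M.ε i) Y ≤ sg (M.tw k && !M.ε i) X := by
  obtain ⟨a, rfl, ha, rfl⟩ := exists_of_cc_pos h.ne'
  obtain ⟨b, hb1, hb, rfl⟩ := exists_of_cc_pos h'.ne'
  exact hM.cut i a b hb1.symm ha hb

lemma UU_eq_of {s s' : Bool} {p p' : Fin 3 → ℝ} {c : ℂ} (h : ∀ j, UU s' p' j = c * UU s p j) :
    U s' p' = c • U s p := by
  refine Prod.ext ?_ ?_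
  · have := h 0
    rw [UU_0, UU_0] at this
    exact this
  · have := h 1
    rw [UU_1, UU_1] at this
    exact this

/-- the first coordinates are determined -/
lemma pX_of_G {i j : K.ι} {x y : Sx n} (h : M.G i x = M.G j y) :
    M.pX i x.1 = M.pX j y.1 ∧ (M.ε i = M.ε j ∨ ∃ Z, M.pX i x.1 Z = 0) := by
  obtain ⟨z, hz, h1, h2⟩ := cls_inj h
  obtain ⟨h3, h4⟩ := U_inj (M.pX_tri i x) (M.pX_tri j y) (UU_eq_of h1)
  refine ⟨h3, ?_⟩
  rcases h4 with h4 | h4 | h4 | h4
  · exact Or.inl h4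
  · exact Or.inr ⟨0, h4⟩
  · exact Or.inr ⟨1, h4⟩
  · exact Or.inr ⟨2, h4⟩

theorem lst_of_G (hM : M.Good) {i j : K.ι} {x y : Sx n} (he : M.ε i = M.ε j) (h : M.G i x = M.G j y) :
    M.lst i x.1 = M.lst j y.1 := by
  have hp := (pX_of_G h).1
  obtain ⟨z, hz, h1, h2⟩ := cls_inj h
  -- `z = 1`
  rw [← he, ← hp] at h1
  have hu0 := UU_ne (M.ε i) (M.pX i x.1)
  have hu1 : ‖UU (M.ε i) (M.pX i x.1)‖ ≠ 0 := norm_ne_zero_iff.2 hu0
  rw [div_self hu1] at h1
  have hz1 : z = 1 := by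
    have : ∃ j, UU (M.ε i) (M.pX i x.1) j ≠ 0 := by
      by_contra hn
      push Not at hn
      exact hu0 (by ext j; exact hn j)
    obtain ⟨j', hj'⟩ := this
    have := h1 j'
    rw [Complex.ofReal_one, one_mul] at this
    exact (mul_eq_right₀ hj').1 this.symm
  subst hz1
  simp only [ite_self, mul_one] at h2
  -- the weights of the circles
  have hβ : 0 ≤ ‖VV (M.wk j y.1) (M.yy j y.1)‖ / ‖VV (M.wk i x.1) (M.yy i x.1)‖ := by positivity
  set β := ‖VV (M.wk j y.1) (M.yy j y.1)‖ / ‖VV (M.wk i x.1) (M.yy i x.1)‖ with hβd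
  have hw : ∀ k, M.wk j y.1 k = β * M.wk i x.1 k := by
    intro k
    have := congrArg norm (h2 k)
    rw [VV_apply, VV_apply, norm_mul, norm_φ, norm_φ, abs_of_nonneg (M.wk_nonneg j y k),
      abs_of_nonneg (M.wk_nonneg i x k), Complex.norm_real, Real.norm_of_nonneg hβ] at this
    exact this
  have hβ1 : β = 1 := by
    have h3 := M.wk_sum j y
    rw [sum_congr rfl fun k _ => hw k, ← mul_sum, M.wk_sum i x, mul_one] at h3
    exact h3
  rw [hβ1] at hw h2
  simp only [one_mul, Complex.ofReal_one] at hw h2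
  -- the weights of the labels
  have hl : M.lw i x.1 = M.lw j y.1 := by
    refine chain_unique (M.lw_nonneg i x) (M.lw_nonneg j y) (lw_chain hM i x) (lw_chain hM j y) ?_ ?_
    · intro k; exact (hw k).symm
    · intro X; exact congrFun hp X
  refine lst_eq_of hM x.1 y.1 he fun k => ?_
  have hlx : ∀ X, M.lw i x.1 k X = M.cc i x.1 false k X + M.cc i x.1 true k X := M.lw_eq i x.1 k
  have hly : ∀ X, M.lw j y.1 k X = M.cc j y.1 false k X + M.cc j y.1 true k X := M.lw_eq j y.1 k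
  have nx := fun b X => M.cc_nonneg i x b k X
  have ny := fun b X => M.cc_nonneg j y b k X
  have hlk : ∀ X, M.lw i x.1 k X = M.lw j y.1 k X := fun X => by rw [hl]
  have XXx : M.XX i x.1 k ≤ M.wk i x.1 k := sum_le_sum fun X _ => by rw [hlx]; linarith [nx false X]
  have XXy : M.XX j y.1 k ≤ M.wk j y.1 k := sum_le_sum fun X _ => by rw [hly]; linarith [ny false X]
  have XXx0 : 0 ≤ M.XX i x.1 k := sum_nonneg fun X _ => nx true X
  have XXy0 : 0 ≤ M.XX j y.1 k := sum_nonneg fun X _ => ny true X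
  -- everything before the window
  have full : ∀ (i : K.ι) (x : Sx n), M.XX i x.1 k = M.wk i x.1 k →
      ∀ X, M.cc i x.1 false k X = 0 ∧ M.cc i x.1 true k X = M.lw i x.1 k X := by
    intro i x h X
    have h3 : ∑ X, M.cc i x.1 false k X = 0 := by
      have : M.wk i x.1 k = (∑ X, M.cc i x.1 false k X) + M.XX i x.1 k := by
        unfold wk XX
        rw [← sum_add_distrib]
        exact sum_congr rfl fun X _ => M.lw_eq i x.1 k X
      linarith
    have h4 := (sum_eq_zero_iff_of_nonneg (fun X _ => M.cc_nonneg i x false k X)).1 h3 X (mem_univ X)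
    refine ⟨h4, ?_⟩
    rw [M.lw_eq, h4, zero_add]
  have empty : ∀ (i : K.ι) (x : Sx n), M.XX i x.1 k = 0 →
      ∀ X, M.cc i x.1 true k X = 0 ∧ M.cc i x.1 false k X = M.lw i x.1 k X := by
    intro i x h X
    have h4 := (sum_eq_zero_iff_of_nonneg (fun X _ => M.cc_nonneg i x true k X)).1 h X (mem_univ X)
    refine ⟨h4, ?_⟩
    rw [M.lw_eq, h4, add_zero]
  rcases (M.wk_nonneg i x k).eq_or_lt with h0 | h0
  · left
    have a1 : M.XX i x.1 k = 0 := by linarith
    have a2 : M.XX j y.1 k = 0 := by linarith [hw k]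
    have b1 := empty i x a1
    have b2 := empty j y a2
    intro b X
    cases b
    · rw [(b1 X).2, (b2 X).2, hlk]
    · rw [(b1 X).1, (b2 X).1]
  · have h3 := h2 k
    rw [VV_apply, VV_apply, hw k] at h3
    obtain ⟨m, hm⟩ := φ_inj h0 h3.symm
    have h4 : M.XX i x.1 k = M.XX j y.1 k + m * M.wk i x.1 k := by
      unfold yy at hm
      rw [← he, ← hp, ← hl] at hm
      linarith
    rcases int_cases h0 h4 XXx0 XXx XXy0 (by rw [← hw k]; exact XXy) with h5 | ⟨h5, h6⟩ | ⟨h5, h6⟩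
    · left
      have hcut := cut_unique (sg_inj (M.tw k && !M.ε i)) (nx false) (nx true) (ny false) (ny true)
        (cc_cut hM i x k) (by rw [he]; exact cc_cut hM j y k) (fun X => by rw [← hlx, ← hly, hlk]) h5
      intro b X
      cases b
      · exact congrFun hcut.1 X
      · exact congrFun hcut.2 X
    · right
      refine ⟨true, fun X => ?_⟩
      have c1 := full i x h5 X
      have c2 := empty j y h6 X
      rw [Bool.not_true, c1.1, c1.2, c2.1, c2.2, hlk]
      exact ⟨rfl, rfl, rfl⟩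
    · right
      refine ⟨false, fun X => ?_⟩
      have c1 := empty i x h5 X
      have c2 := full j y (h6.trans (hw k).symm) X
      rw [Bool.not_false, c1.1, c1.2, c2.1, c2.2, hlk]
      exact ⟨rfl, rfl, rfl⟩

lemma pt_eq_of_G (hM : M.Good) {i j : K.ι} {x y : Sx n} (he : M.ε i = M.ε j) (h : M.G i x = M.G j y) :
    K.pt i x = K.pt j y :=
  hM.eq i j x y he (lst_of_G hM he h)

theorem GG_injective (hM : M.Good) : Function.Injective (GG hM) := by
  -- a minus and a plus facet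
  have key : ∀ {i j : K.ι} {x y : Sx n}, M.ε i = false → M.ε j = true → M.G i x = M.G j y → K.pt i x = K.pt j y := by
    intro i j x y hi hj h
    obtain ⟨h1, h2⟩ := pX_of_G h
    have h3 : ∃ Z, M.pX i x.1 Z = 0 := by
      rcases h2 with h2 | h2
      · rw [hi, hj] at h2; exact absurd h2 (by decide)
      · exact h2
    obtain ⟨Z, hZ⟩ := h3
    have h4 : ∀ a, M.ll i a = Z → x.1 a = 0 := by
      intro a ha
      rw [pX_eq] at hZ
      have := (sum_eq_zero_iff_of_nonneg (fun a _ => by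
        split_ifs
        · exact x.2.1 a
        · exact le_rfl)).1 hZ a (mem_univ a)
      rw [if_pos ha] at this
      exact this
    obtain ⟨i', x', hi', hx'⟩ := hM.plus i x hi ⟨Z, h4⟩
    rw [hx']
    refine pt_eq_of_G hM (hi'.trans hj.symm) ?_
    rw [← h, ← GG_pt hM, ← hx', GG_pt]
  intro u v huv
  obtain ⟨i, x, rfl⟩ := K.exists_pt u
  obtain ⟨j, y, rfl⟩ := K.exists_pt v
  rw [GG_pt, GG_pt] at huv
  cases hi : M.ε i <;> cases hj : M.ε j
  · exact pt_eq_of_G hM (hi.trans hj.symm) huv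
  · exact key hi hj huv
  · exact (key hj hi huv.symm).symm
  · exact pt_eq_of_G hM (hi.trans hj.symm) huv

end Mdl

end Pool.Agent.H95.TB
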