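import Pool.Agent.H95.TB.Model

/-!
# The list of a point in terms of the weights of the slots
-/

open Finset

namespace Pool.Agent.H95.TB

open Pool.Agent.H34.PLE

variable {n r : ℕ} {K : Glue n} (M : Mdl n r K)

namespace Mdl

/-- slots of one circle in order -/
def blk (b : Bool) (k : Fin r) : List (Fin r × Bool × Fin 3) :=
  [(k, false, od b 0), (k, false, od b 1), (k, false, od b 2), (k, true, od b 0), (k, true, od b 1), (k, true, od b 2)]

/-- all slots in order -/
def allS (e : Bool) : List (Fin r × Bool × Fin 3) := (List.finRange r).flatMap fun k => blk (M.tw k && !e) k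

lemma sg_od (b : Bool) (j : Fin 3) : sg b (od b j) = j := by
  cases b <;> fin_cases j <;> rfl

lemma exists_od (b : Bool) (X : Fin 3) : ∃ j, X = od b j := by
  cases b <;> fin_cases X
  · exact ⟨0, rfl⟩
  · exact ⟨1, rfl⟩
  · exact ⟨2, rfl⟩
  · exact ⟨0, rfl⟩
  · exact ⟨2, rfl⟩
  · exact ⟨1, rfl⟩

lemma sg_lt (b : Bool) (X : Fin 3) : sg b X < 3 := by
  cases b <;> fin_cases X <;> decide

lemma mem_allS (e : Bool) (s : Fin r × Bool × Fin 3) : s ∈ M.allS e := by
  unfold allS
  rw [List.mem_flatMap]
  refine ⟨s.1, List.mem_finRange _, ?_⟩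
  obtain ⟨k, b, X⟩ := s
  obtain ⟨j, hj⟩ := exists_od (M.tw k && !e) X
  unfold blk
  subst hj
  cases b <;> fin_cases j <;> simp

lemma cd_bounds (e : Bool) (s : Fin r × Bool × Fin 3) : 6 * (s.1 : ℕ) ≤ M.cd e s ∧ M.cd e s < 6 * s.1 + 6 := by
  unfold cd
  have := sg_lt (M.tw s.1 && !e) s.2.2
  split_ifs <;> omega

lemma blk_fst {b : Bool} {k : Fin r} {s : Fin r × Bool × Fin 3} (h : s ∈ blk b k) : s.1 = k := by
  unfold blk at h
  simp only [List.mem_cons, List.not_mem_nil, or_false] at h
  rcases h with rfl | rfl | rfl | rfl | rfl | rfl <;> rfl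

lemma allS_pairwise (e : Bool) : (M.allS e).Pairwise fun s t => M.cd e s < M.cd e t := by
  unfold allS
  rw [List.pairwise_flatMap]
  constructor
  · intro k _
    unfold blk
    simp only [List.pairwise_cons, List.mem_cons, List.not_mem_nil, or_false, forall_eq_or_imp, forall_eq,
      false_imp_iff, implies_true, List.Pairwise.nil, and_true, cd, sg_od]
    simp
    omega
  · refine (List.pairwise_lt_finRange r).imp ?_
    intro k k' hk s hs t ht
    have h1 := M.cd_bounds e s
    have h2 := M.cd_bounds e t
    rw [blk_fst hs] at h1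
    rw [blk_fst ht] at h2
    rw [Fin.lt_def] at hk
    omega

lemma filterMap_filter_of_none {α β : Type*} (g : α → Option β) (p : α → Prop) [DecidablePred p]
    (h : ∀ s, ¬ p s → g s = none) (L : List α) : (L.filter p).filterMap g = L.filterMap g := by
  induction L with
  | nil => rfl
  | cons a L ih =>
    by_cases hp : p a
    · rw [List.filter_cons_of_pos (by simpa using hp), List.filterMap_cons, List.filterMap_cons, ih]
    · rw [List.filter_cons_of_neg (by simpa using hp), List.filterMap_cons, h a hp, ih]

variable {M}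

lemma slot_injective (hM : M.Good) (i : K.ι) : Function.Injective (M.slot i) := by
  intro a b hab
  by_contra hne
  rcases lt_or_gt_of_ne hne with h | h
  · have := hM.mono i a b h
    rw [hab] at this
    exact lt_irrefl _ this
  · have := hM.mono i b a h
    rw [hab] at this
    exact lt_irrefl _ this

lemma cc_slot (hM : M.Good) (i : K.ι) (x : Fin (n + 1) → ℝ) (a : Fin (n + 1)) :
    M.cc i x (M.rn i a) (M.kk i a) (M.ll i a) = x a := by
  unfold cc
  rw [sum_eq_single a]
  · simp
  · intro b _ hb
    refine if_neg fun h => hb (slot_injective hM i ?_)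
    exact Prod.ext h.1 (Prod.ext h.2.1 h.2.2)
  · intro h; exact absurd (mem_univ _) h

/-- label and weight of a slot -/
noncomputable def gs (M : Mdl n r K) (i : K.ι) (x : Fin (n + 1) → ℝ) (s : Fin r × Bool × Fin 3) :
    Option ((Fin r × Fin 3) × ℝ) :=
  if M.cc i x s.2.1 s.1 s.2.2 = 0 then none else some ((s.1, s.2.2), M.cc i x s.2.1 s.1 s.2.2)

theorem lst_eq (hM : M.Good) (i : K.ι) (x : Fin (n + 1) → ℝ) :
    M.lst i x = (M.allS (M.ε i)).filterMap (M.gs i x) := by
  classical
  rw [← filterMap_filter_of_none (M.gs i x) (fun s => ∃ a, M.slot i a = s)]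
  · have h : (M.allS (M.ε i)).filter (fun s => ∃ a, M.slot i a = s) = (List.finRange (n + 1)).map (M.slot i) := by
      have p1 : ((M.allS (M.ε i)).filter (fun s => ∃ a, M.slot i a = s)).Pairwise
          (fun s t => M.cd (M.ε i) s < M.cd (M.ε i) t) := (M.allS_pairwise _).filter _
      have p2 : ((List.finRange (n + 1)).map (M.slot i)).Pairwise (fun s t => M.cd (M.ε i) s < M.cd (M.ε i) t) := by
        rw [List.pairwise_map]
        exact (List.pairwise_lt_finRange _).imp fun h => hM.mono i _ _ h
      have : Std.Antisymm (fun s t : Fin r × Bool × Fin 3 => M.cd (M.ε i) s < M.cd (M.ε i) t) :=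
        ⟨fun _ _ h h' => absurd h' (lt_asymm h)⟩
      have : Std.Irrefl (fun s t : Fin r × Bool × Fin 3 => M.cd (M.ε i) s < M.cd (M.ε i) t) :=
        ⟨fun _ => lt_irrefl _⟩
      refine p1.eq_of_mem_iff p2 ?_
      intro s
      simp only [List.mem_filter, List.mem_map, List.mem_finRange, true_and, decide_eq_true_eq]
      exact ⟨fun h => h.2, fun h => ⟨M.mem_allS _ s, h⟩⟩
    rw [h, List.filterMap_map]
    unfold lst
    congr 1
    funext a
    have h1 := cc_slot hM i x a
    show _ = M.gs i x (M.slot i a)
    unfold gs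
    have h2 : M.cc i x (M.slot i a).2.1 (M.slot i a).1 (M.slot i a).2.2 = x a := h1
    by_cases h0 : x a = 0
    · rw [if_pos h0, if_pos (h2.trans h0)]
    · rw [if_neg h0, if_neg (fun h => h0 (h2.symm.trans h)), h2]
      rfl
  · intro s hs
    unfold gs
    rw [if_pos]
    unfold cc
    refine sum_eq_zero fun a _ => if_neg fun h => hs ⟨a, ?_⟩
    exact Prod.ext h.1 (Prod.ext h.2.1 h.2.2)

/-- two points have the same lists if on every circle the slots have the same weights or everything is before
the window for one of them and after the window for the other -/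
theorem lst_eq_of (hM : M.Good) {i j : K.ι} (x y : Fin (n + 1) → ℝ) (he : M.ε i = M.ε j)
    (h : ∀ k, (∀ b X, M.cc i x b k X = M.cc j y b k X) ∨
      (∃ b, ∀ X, M.cc i x b k X = M.cc j y (!b) k X ∧ M.cc i x (!b) k X = 0 ∧ M.cc j y b k X = 0)) :
    M.lst i x = M.lst j y := by
  rw [lst_eq hM, lst_eq hM, ← he]
  unfold allS
  rw [List.filterMap_flatMap, List.filterMap_flatMap]
  congr 1
  funext k
  rcases h k with h | ⟨b, h⟩
  · unfold blk gs
    simp only [List.filterMap_cons, List.filterMap_nil, h]
  · have h1 := fun X => (h X).1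
    have h2 := fun X => (h X).2.1
    have h3 := fun X => (h X).2.2
    cases b
    · simp only [Bool.not_false] at h1 h2
      simp only [blk, List.filterMap_cons, List.filterMap_nil, gs, h1, h2, h3, if_true]
    · simp only [Bool.not_true] at h1 h2
      simp only [blk, List.filterMap_cons, List.filterMap_nil, gs, h1, h2, h3, if_true]

end Mdl

end Pool.Agent.H95.TB
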