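import Mathlib

/-!
# The north-west corner rule and windows
-/

open Finset

namespace Pool.Agent.H95.TB

variable {r : ℕ}

/-- initial sums of a table -/
noncomputable def TT (l : Fin r → Fin 3 → ℝ) (A B : ℕ) : ℝ :=
  ∑ k : Fin r, ∑ X : Fin 3, if (k : ℕ) < B ∧ (X : ℕ) < A then l k X else 0

/-- initial sums of column sums -/
noncomputable def Pc (P : Fin 3 → ℝ) (A : ℕ) : ℝ := ∑ X : Fin 3, if (X : ℕ) < A then P X else 0

/-- initial sums of row sums -/
noncomputable def Wc (w : Fin r → ℝ) (B : ℕ) : ℝ := ∑ k : Fin r, if (k : ℕ) < B then w k else 0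

/-- the chain condition -/
def Chain (l : Fin r → Fin 3 → ℝ) : Prop := ∀ k k' X X', 0 < l k X → 0 < l k' X' → X < X' → k ≤ k'

lemma TT_diff (l : Fin r → Fin 3 → ℝ) (k : Fin r) (X : Fin 3) :
    l k X = TT l (X + 1) (k + 1) - TT l X (k + 1) - TT l (X + 1) k + TT l X k := by
  unfold TT
  rw [← sum_sub_distrib, ← sum_sub_distrib, ← sum_add_distrib]
  have h : ∀ k' : Fin r, ((∑ X' : Fin 3, if (k' : ℕ) < (k : ℕ) + 1 ∧ (X' : ℕ) < (X : ℕ) + 1 then l k' X' else 0) -
      (∑ X' : Fin 3, if (k' : ℕ) < (k : ℕ) + 1 ∧ (X' : ℕ) < (X : ℕ) then l k' X' else 0) -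
      (∑ X' : Fin 3, if (k' : ℕ) < (k : ℕ) ∧ (X' : ℕ) < (X : ℕ) + 1 then l k' X' else 0) +
      ∑ X' : Fin 3, if (k' : ℕ) < (k : ℕ) ∧ (X' : ℕ) < (X : ℕ) then l k' X' else 0) =
      ∑ X' : Fin 3, if k' = k ∧ X' = X then l k' X' else 0 := by
    intro k'
    rw [← sum_sub_distrib, ← sum_sub_distrib, ← sum_add_distrib]
    refine sum_congr rfl fun X' _ => ?_
    have e : (k' = k ∧ X' = X) ↔ ((k' : ℕ) = k ∧ (X' : ℕ) = X) := by
      rw [Fin.ext_iff, Fin.ext_iff]
    rw [if_congr e rfl rfl]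
    split_ifs <;> first | omega | ring
  rw [sum_congr rfl fun k' _ => h k', sum_eq_single k, sum_eq_single X]
  · simp
  · intro b _ hb; simp [hb]
  · intro h; exact absurd (mem_univ _) h
  · intro b _ hb; simp [hb]
  · intro h; exact absurd (mem_univ _) h

lemma TT_min {l : Fin r → Fin 3 → ℝ} (hl : ∀ k X, 0 ≤ l k X) (hc : Chain l) (A B : ℕ) :
    TT l A B = min (Pc (fun X => ∑ k, l k X) A) (Wc (fun k => ∑ X, l k X) B) := by
  have e1 : Pc (fun X => ∑ k, l k X) A - TT l A B =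
      ∑ k : Fin r, ∑ X : Fin 3, if ¬ (k : ℕ) < B ∧ (X : ℕ) < A then l k X else 0 := by
    unfold Pc TT
    have : (∑ X : Fin 3, if (X : ℕ) < A then ∑ k, l k X else 0) =
        ∑ k : Fin r, ∑ X : Fin 3, if (X : ℕ) < A then l k X else 0 := by
      rw [sum_comm]
      refine sum_congr rfl fun X _ => ?_
      split_ifs
      · rfl
      · simp
    rw [this, ← sum_sub_distrib]
    refine sum_congr rfl fun k _ => ?_
    rw [← sum_sub_distrib]
    refine sum_congr rfl fun X _ => ?_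
    split_ifs <;> first | omega | ring
  have e2 : Wc (fun k => ∑ X, l k X) B - TT l A B =
      ∑ k : Fin r, ∑ X : Fin 3, if (k : ℕ) < B ∧ ¬ (X : ℕ) < A then l k X else 0 := by
    unfold Wc TT
    rw [← sum_sub_distrib]
    refine sum_congr rfl fun k _ => ?_
    have : (if (k : ℕ) < B then ∑ X, l k X else 0) = ∑ X, if (k : ℕ) < B then l k X else 0 := by
      split_ifs
      · rfl
      · simp
    rw [this, ← sum_sub_distrib]
    refine sum_congr rfl fun X _ => ?_
    split_ifs <;> first | omega | ring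
  have n1 : 0 ≤ Pc (fun X => ∑ k, l k X) A - TT l A B := by
    rw [e1]
    refine sum_nonneg fun k _ => sum_nonneg fun X _ => ?_
    split_ifs
    · exact hl _ _
    · exact le_rfl
  have n2 : 0 ≤ Wc (fun k => ∑ X, l k X) B - TT l A B := by
    rw [e2]
    refine sum_nonneg fun k _ => sum_nonneg fun X _ => ?_
    split_ifs
    · exact hl _ _
    · exact le_rfl
  by_cases h : ∃ (k : Fin r) (X : Fin 3), ¬ (k : ℕ) < B ∧ (X : ℕ) < A ∧ 0 < l k X
  · obtain ⟨k, X, h1, h2, h3⟩ := h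
    have z : Wc (fun k => ∑ X, l k X) B - TT l A B = 0 := by
      rw [e2]
      refine sum_eq_zero fun k' _ => sum_eq_zero fun X' _ => ?_
      split_ifs with h4
      · by_contra hne
        have h5 : 0 < l k' X' := lt_of_le_of_ne (hl _ _) (Ne.symm hne)
        have h6 := hc k k' X X' h3 h5 (by rw [Fin.lt_def]; omega)
        rw [Fin.le_def] at h6
        omega
      · rfl
    rw [min_eq_right (by linarith)]
    linarith
  · push Not at h
    have z : Pc (fun X => ∑ k, l k X) A - TT l A B = 0 := by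
      rw [e1]
      refine sum_eq_zero fun k' _ => sum_eq_zero fun X' _ => ?_
      split_ifs with h4
      · exact le_antisymm (h k' X' (by omega) h4.2) (hl _ _)
      · rfl
    rw [min_eq_left (by linarith)]
    linarith

/-- a table satisfying the chain condition is determined by its row and column sums -/
theorem chain_unique {l l' : Fin r → Fin 3 → ℝ} (hl : ∀ k X, 0 ≤ l k X) (hl' : ∀ k X, 0 ≤ l' k X)
    (hc : Chain l) (hc' : Chain l') (h1 : ∀ k, ∑ X, l k X = ∑ X, l' k X) (h2 : ∀ X, ∑ k, l k X = ∑ k, l' k X) :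
    l = l' := by
  funext k X
  have h : ∀ A B, TT l A B = TT l' A B := by
    intro A B
    rw [TT_min hl hc, TT_min hl' hc']
    simp only [h1, h2]
  rw [TT_diff l, TT_diff l']
  simp only [h]

/-- the north-west corner rule -/
noncomputable def nw (P : Fin 3 → ℝ) (w : Fin r → ℝ) (k : Fin r) (X : Fin 3) : ℝ :=
  min (Pc P (X + 1)) (Wc w (k + 1)) - min (Pc P X) (Wc w (k + 1)) - min (Pc P (X + 1)) (Wc w k) +
    min (Pc P X) (Wc w k)

lemma Pc_mono {P : Fin 3 → ℝ} (hP : ∀ X, 0 ≤ P X) {A A' : ℕ} (h : A ≤ A') : Pc P A ≤ Pc P A' := by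
  refine sum_le_sum fun X _ => ?_
  split_ifs
  · exact le_rfl
  · omega
  · exact hP _
  · exact le_rfl

lemma Wc_mono {w : Fin r → ℝ} (hw : ∀ k, 0 ≤ w k) {A A' : ℕ} (h : A ≤ A') : Wc w A ≤ Wc w A' := by
  refine sum_le_sum fun X _ => ?_
  split_ifs
  · exact le_rfl
  · omega
  · exact hw _
  · exact le_rfl

lemma Pc_zero (P : Fin 3 → ℝ) : Pc P 0 = 0 := by simp [Pc]

lemma Wc_zero (w : Fin r → ℝ) : Wc w 0 = 0 := by simp [Wc]

lemma Pc_three (P : Fin 3 → ℝ) : Pc P 3 = ∑ X, P X := by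
  unfold Pc; exact sum_congr rfl fun X _ => if_pos X.2

lemma Wc_r (w : Fin r → ℝ) : Wc w r = ∑ k, w k := by
  unfold Wc; exact sum_congr rfl fun X _ => if_pos X.2

lemma Pc_succ (P : Fin 3 → ℝ) (X : Fin 3) : Pc P (X + 1) - Pc P X = P X := by
  unfold Pc
  rw [← sum_sub_distrib, sum_eq_single X]
  · simp
  · intro b _ hb
    have : (b : ℕ) ≠ X := fun h => hb (Fin.ext h)
    split_ifs <;> first | omega | ring
  · intro h; exact absurd (mem_univ _) h

lemma Wc_succ (w : Fin r → ℝ) (k : Fin r) : Wc w (k + 1) - Wc w k = w k := by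
  unfold Wc
  rw [← sum_sub_distrib, sum_eq_single k]
  · simp
  · intro b _ hb
    have : (b : ℕ) ≠ k := fun h => hb (Fin.ext h)
    split_ifs <;> first | omega | ring
  · intro h; exact absurd (mem_univ _) h

lemma min4_nonneg {a a' b b' : ℝ} (ha : a ≤ a') (hb : b ≤ b') : 0 ≤ min a' b' - min a b' - min a' b + min a b := by
  rcases le_total a b' with h1 | h1 <;> rcases le_total a' b' with h2 | h2 <;> rcases le_total a' b with h3 | h3 <;>
    rcases le_total a b with h4 | h4 <;>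
    simp only [min_eq_left, min_eq_right, h1, h2, h3, h4] <;> linarith

lemma min4_pos {a a' b b' : ℝ} (ha : a ≤ a') (hb : b ≤ b') (h : 0 < min a' b' - min a b' - min a' b + min a b) :
    a < b' ∧ b < a' := by
  constructor
  · by_contra hn
    push Not at hn
    rw [min_eq_right (hn.trans ha), min_eq_right hn, min_eq_right ((hb.trans hn).trans ha),
      min_eq_right (hb.trans hn)] at h
    linarith
  · by_contra hn
    push Not at hn
    rw [min_eq_left (hn.trans hb), min_eq_left ((ha.trans hn).trans hb), min_eq_left hn,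
      min_eq_left (ha.trans hn)] at h
    linarith

variable {P : Fin 3 → ℝ} {w : Fin r → ℝ}

lemma nw_nonneg (hP : ∀ X, 0 ≤ P X) (hw : ∀ k, 0 ≤ w k) (k : Fin r) (X : Fin 3) : 0 ≤ nw P w k X :=
  min4_nonneg (Pc_mono hP (Nat.le_succ _)) (Wc_mono hw (Nat.le_succ _))

lemma nw_pos (hP : ∀ X, 0 ≤ P X) (hw : ∀ k, 0 ≤ w k) {k : Fin r} {X : Fin 3} (h : 0 < nw P w k X) :
    Pc P X < Wc w (k + 1) ∧ Wc w k < Pc P (X + 1) :=
  min4_pos (Pc_mono hP (Nat.le_succ _)) (Wc_mono hw (Nat.le_succ _)) h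

lemma Wc_le (hw : ∀ k, 0 ≤ w k) (h1 : ∑ k, w k = 1) (B : ℕ) (hB : B ≤ r) : Wc w B ≤ 1 := by
  rw [← h1, ← Wc_r]; exact Wc_mono hw hB

lemma Wc_nonneg (hw : ∀ k, 0 ≤ w k) (B : ℕ) : 0 ≤ Wc w B := by
  rw [← Wc_zero w]; exact Wc_mono hw (Nat.zero_le _)

lemma Pc_nonneg (hP : ∀ X, 0 ≤ P X) (B : ℕ) : 0 ≤ Pc P B := by
  rw [← Pc_zero P]; exact Pc_mono hP (Nat.zero_le _)

lemma nw_row (hw : ∀ k, 0 ≤ w k) (hP1 : ∑ X, P X = 1) (hw1 : ∑ k, w k = 1)
    (k : Fin r) : ∑ X, nw P w k X = w k := by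
  have h3 := Pc_three P
  rw [hP1] at h3
  rw [Fin.sum_univ_three]
  unfold nw
  have a0 : ((0 : Fin 3) : ℕ) = 0 := rfl
  have a1 : ((1 : Fin 3) : ℕ) = 1 := rfl
  have a2 : ((2 : Fin 3) : ℕ) = 2 := rfl
  simp only [a0, a1, a2, Nat.zero_add, Nat.reduceAdd, Pc_zero, h3]
  rw [min_eq_left (Wc_nonneg hw _), min_eq_left (Wc_nonneg hw _), min_eq_right (Wc_le hw hw1 _ k.2),
    min_eq_right (Wc_le hw hw1 _ k.2.le)]
  linarith [Wc_succ w k]

lemma nw_col (hP : ∀ X, 0 ≤ P X) (hP1 : ∑ X, P X = 1) (hw1 : ∑ k, w k = 1)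
    (X : Fin 3) : ∑ k, nw P w k X = P X := by
  have h3 := Wc_r w
  rw [hw1] at h3
  let g : ℕ → ℝ := fun B => min (Pc P (X + 1)) (Wc w B) - min (Pc P X) (Wc w B)
  have h4 : ∑ k : Fin r, nw P w k X = ∑ k : Fin r, (g (k + 1) - g k) := by
    refine sum_congr rfl fun k _ => ?_
    simp only [g, nw]; ring
  have hPle : ∀ A ≤ 3, Pc P A ≤ 1 := fun A hA => by
    rw [← hP1, ← Pc_three]; exact Pc_mono hP hA
  rw [h4, Fin.sum_univ_eq_sum_range (fun k => g (k + 1) - g k) r, sum_range_sub]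
  simp only [g, Wc_zero, h3]
  rw [min_eq_left (hPle _ X.2), min_eq_left (hPle _ X.2.le), min_eq_right (Pc_nonneg hP _),
    min_eq_right (Pc_nonneg hP _)]
  linarith [Pc_succ P X]

/-! ### the path -/

open Classical in
/-- the corner of the path at the beginning of the row `B` -/
noncomputable def ept (P : Fin 3 → ℝ) (w : Fin r → ℝ) (B : ℕ) : ℕ :=
  if B = 0 then 0 else (if Pc P 1 ≤ Wc w B then 1 else 0) + (if Pc P 2 ≤ Wc w B then 1 else 0)

lemma ept_zero : ept P w 0 = 0 := if_pos rfl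

lemma ept_le (B : ℕ) : ept P w B ≤ 2 := by
  unfold ept; split_ifs <;> omega

lemma ept_r (hP : ∀ X, 0 ≤ P X) (hP1 : ∑ X, P X = 1) (hw1 : ∑ k, w k = 1) (hr : r ≠ 0) : ept P w r = 2 := by
  have hPle : ∀ A ≤ 3, Pc P A ≤ 1 := fun A hA => by
    rw [← hP1, ← Pc_three]; exact Pc_mono hP hA
  unfold ept
  rw [if_neg hr, Wc_r, hw1, if_pos (hPle 1 (by norm_num)), if_pos (hPle 2 (by norm_num))]

lemma ept_mono (hw : ∀ k, 0 ≤ w k) {B B' : ℕ} (h : B ≤ B') : ept P w B ≤ ept P w B' := by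
  have h1 := Wc_mono hw h
  unfold ept
  split_ifs with a1 a2 a3 a4 a5 a6 a7 <;> first | omega | (exfalso; linarith)

lemma ept_supp (hP : ∀ X, 0 ≤ P X) (hw : ∀ k, 0 ≤ w k) {k : Fin r} {X : Fin 3} (h : 0 < nw P w k X) :
    ept P w k ≤ X ∧ (X : ℕ) ≤ ept P w (k + 1) := by
  obtain ⟨h1, h2⟩ := nw_pos hP hw h
  have m12 : Pc P 1 ≤ Pc P 2 := Pc_mono hP (by norm_num)
  have m01 : Pc P 0 ≤ Pc P 1 := Pc_mono hP (by norm_num)
  have m23 : Pc P 2 ≤ Pc P 3 := Pc_mono hP (by norm_num)
  have a0 : ((0 : Fin 3) : ℕ) = 0 := rfl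
  have a1 : ((1 : Fin 3) : ℕ) = 1 := rfl
  have a2 : ((2 : Fin 3) : ℕ) = 2 := rfl
  constructor
  · unfold ept
    split_ifs with b1 b2 b3 b4 <;> first | omega | skip
    all_goals
      fin_cases X <;> simp only [Fin.zero_eta, Fin.mk_one, Fin.reduceFinMk, a0, a1, a2, Nat.zero_add, Nat.reduceAdd] at h1 h2 ⊢ <;>
      first | omega | (exfalso; linarith)
  · unfold ept
    rw [if_neg (Nat.succ_ne_zero _)]
    split_ifs with b1 b2 b3 b4 <;>
      fin_cases X <;> simp only [Fin.zero_eta, Fin.mk_one, Fin.reduceFinMk, a0, a1, a2, Nat.zero_add, Nat.reduceAdd] at h1 h2 ⊢ <;>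
      first | omega | (exfalso; linarith)

/-! ### windows -/

/-- a cut is determined by the total length before it -/
theorem cut_unique {σ : Fin 3 → ℕ} (hσ : Function.Injective σ) {a b a' b' : Fin 3 → ℝ}
    (ha : ∀ X, 0 ≤ a X) (hb : ∀ X, 0 ≤ b X) (ha' : ∀ X, 0 ≤ a' X) (hb' : ∀ X, 0 ≤ b' X)
    (h : ∀ X Y, 0 < a X → 0 < b Y → σ Y ≤ σ X) (h' : ∀ X Y, 0 < a' X → 0 < b' Y → σ Y ≤ σ X)
    (hs : ∀ X, a X + b X = a' X + b' X) (ht : ∑ X, b X = ∑ X, b' X) : a = a' ∧ b = b' := by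
  have key : b = b' := by
    by_contra hne
    have hex : ∃ Y, b' Y < b Y := by
      by_contra hn
      push Not at hn
      apply hne
      funext X
      by_contra hX
      exact absurd ht (ne_of_lt (sum_lt_sum (fun Y _ => hn Y) ⟨X, mem_univ _, lt_of_le_of_ne (hn X) hX⟩))
    obtain ⟨Y, hY⟩ := hex
    have hex2 : ∃ Z, b Z < b' Z := by
      by_contra hn
      push Not at hn
      exact absurd ht (ne_of_gt (sum_lt_sum (fun Y _ => hn Y) ⟨Y, mem_univ _, hY⟩))
    obtain ⟨Z, hZ⟩ := hex2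
    have h1 : σ Y ≤ σ Z := h Z Y (by linarith [hs Z, ha' Z]) (by linarith [hb' Y])
    have h2 : σ Z ≤ σ Y := h' Y Z (by linarith [hs Y, ha Y]) (by linarith [hb Z])
    have h3 : Y = Z := hσ (le_antisymm h1 h2)
    rw [h3] at hY
    linarith
  refine ⟨?_, key⟩
  funext X
  have := hs X
  rw [key] at this
  linarith

/-- total length of the letters before `X` -/
noncomputable def pre (σ : Fin 3 → ℕ) (l : Fin 3 → ℝ) (X : Fin 3) : ℝ := ∑ Y, if σ Y < σ X then l Y else 0

/-- the part of the letter `X` before the window at `y` -/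
noncomputable def cl (σ : Fin 3 → ℕ) (l : Fin 3 → ℝ) (y : ℝ) (X : Fin 3) : ℝ :=
  max 0 (min (l X) (y - pre σ l X))

lemma cl_nonneg (σ : Fin 3 → ℕ) (l : Fin 3 → ℝ) (y : ℝ) (X : Fin 3) : 0 ≤ cl σ l y X := le_max_left _ _

lemma cl_le {σ : Fin 3 → ℕ} {l : Fin 3 → ℝ} (hl : ∀ X, 0 ≤ l X) (y : ℝ) (X : Fin 3) : cl σ l y X ≤ l X :=
  max_le (hl X) (min_le_left _ _)

lemma pre_le {σ : Fin 3 → ℕ} {l : Fin 3 → ℝ} (hl : ∀ X, 0 ≤ l X) {X Y : Fin 3} (h : σ X < σ Y) :
    pre σ l X + l X ≤ pre σ l Y := by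
  have e : l X = ∑ Z, if Z = X then l Z else 0 := by
    rw [sum_eq_single X]
    · simp
    · intro b _ hb; simp [hb]
    · intro h; exact absurd (mem_univ _) h
  unfold pre
  rw [e, ← sum_add_distrib]
  refine sum_le_sum fun Z _ => ?_
  have hZ := hl Z
  by_cases h1 : σ Z < σ X
  · have h2 : Z ≠ X := by rintro rfl; omega
    rw [if_pos h1, if_neg h2, if_pos (h1.trans h), add_zero]
  · rw [if_neg h1, zero_add]
    by_cases h2 : Z = X
    · subst h2
      rw [if_pos rfl, if_pos h]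
    · rw [if_neg h2]
      split_ifs <;> linarith

/-- the letter of the window -/
theorem exists_window {σ : Fin 3 → ℕ} (hσ : Function.Injective σ) {l : Fin 3 → ℝ} (hl : ∀ X, 0 ≤ l X)
    (A : Fin 3 → Prop) (hA : ∃ X, A X) (hs : ∀ X, 0 < l X → A X) {y : ℝ} (hy : 0 ≤ y) (hy2 : y ≤ ∑ X, l X) :
    ∃ q, A q ∧ (∀ X, σ X < σ q → cl σ l y X = l X) ∧ (∀ X, σ q < σ X → cl σ l y X = 0) ∧
      ∑ X, cl σ l y X = y := by
  classical
  -- candidates
  have hcand : ∃ X, A X ∧ y ≤ pre σ l X + l X := by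
    obtain ⟨X, hX⟩ := hA
    obtain ⟨Z, hZ1, hZ2⟩ := exists_max_image (univ.filter A) σ ⟨X, by simp [hX]⟩
    simp only [mem_filter, mem_univ, true_and] at hZ1 hZ2
    refine ⟨Z, hZ1, hy2.trans (le_of_eq ?_)⟩
    unfold pre
    have e : l Z = ∑ X, if X = Z then l X else 0 := by
      rw [sum_eq_single Z]
      · simp
      · intro b _ hb; simp [hb]
      · intro h; exact absurd (mem_univ _) h
    rw [e, ← sum_add_distrib]
    refine sum_congr rfl fun Y _ => ?_
    by_cases hYA : A Y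
    · have h1 := hZ2 Y hYA
      rcases h1.eq_or_lt with h2 | h2
      · have := hσ h2
        subst this
        simp
      · have hne : Y ≠ Z := by rintro rfl; omega
        rw [if_pos h2, if_neg hne, add_zero]
    · have h1 : l Y = 0 := le_antisymm (not_lt.1 fun h => hYA (hs Y h)) (hl Y)
      rw [h1]; simp
  obtain ⟨X0, hX0⟩ := hcand
  obtain ⟨q, hq1, hq2⟩ := exists_min_image (univ.filter fun X => A X ∧ y ≤ pre σ l X + l X) σ ⟨X0, by simp [hX0]⟩
  simp only [mem_filter, mem_univ, true_and] at hq1 hq2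
  have c1 : ∀ X, σ X < σ q → pre σ l X + l X ≤ y ∨ l X = 0 := by
    intro X hX
    by_cases hXA : A X
    · left
      by_contra hn
      push Not at hn
      have := hq2 X ⟨hXA, hn.le⟩
      omega
    · right
      exact le_antisymm (not_lt.1 fun h => hXA (hs X h)) (hl X)
  have d1 : ∀ X, σ X < σ q → cl σ l y X = l X := by
    intro X hX
    unfold cl
    rcases c1 X hX with h | h
    · rw [min_eq_left (by linarith), max_eq_right (hl X)]
    · have h1 : min (l X) (y - pre σ l X) ≤ 0 := (min_le_left _ _).trans h.le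
      rw [max_eq_left h1, h]
  have d2 : ∀ X, σ q < σ X → cl σ l y X = 0 := by
    intro X hX
    have h1 := pre_le hl hX
    unfold cl
    exact max_eq_left ((min_le_right _ _).trans (by linarith [hq1.2]))
  refine ⟨q, hq1.1, d1, d2, ?_⟩
  -- the sum
  have hpq : pre σ l q ≤ y := by
    by_contra hn
    push Not at hn
    -- some letter before `q` with positive length, the last one
    have : ∃ X, σ X < σ q ∧ 0 < l X := by
      by_contra hn2
      push Not at hn2
      have : pre σ l q ≤ 0 := by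
        unfold pre
        refine sum_nonpos fun Y _ => ?_
        split_ifs with h
        · exact hn2 Y h
        · exact le_rfl
      linarith
    obtain ⟨X1, hX1, hX1'⟩ := this
    obtain ⟨Z, hZ1, hZ2⟩ := exists_max_image (univ.filter fun X => σ X < σ q ∧ 0 < l X) σ ⟨X1, by simp [hX1, hX1']⟩
    simp only [mem_filter, mem_univ, true_and] at hZ1 hZ2
    have h1 : pre σ l Z + l Z ≤ y := by
      rcases c1 Z hZ1.1 with h | h
      · exact h
      · linarith [hZ1.2]
    have h2 : pre σ l q ≤ pre σ l Z + l Z := by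
      unfold pre
      have e : l Z = ∑ X, if X = Z then l X else 0 := by
        rw [sum_eq_single Z]
        · simp
        · intro b _ hb; simp [hb]
        · intro h; exact absurd (mem_univ _) h
      conv_rhs => rw [e]
      rw [← sum_add_distrib]
      refine sum_le_sum fun Y _ => ?_
      have hY := hl Y
      by_cases hYq : σ Y < σ q
      · rw [if_pos hYq]
        rcases hY.eq_or_lt with h0 | h0
        · rw [← h0]; simp
        · have := hZ2 Y ⟨hYq, h0⟩
          rcases this.eq_or_lt with h3 | h3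
          · have := hσ h3
            subst this
            simp
          · rw [if_pos h3]; split_ifs <;> linarith
      · rw [if_neg hYq]; split_ifs <;> linarith
    linarith
  have e : ∀ X, cl σ l y X = (if σ X < σ q then l X else 0) + if X = q then y - pre σ l q else 0 := by
    intro X
    rcases lt_trichotomy (σ X) (σ q) with h | h | h
    · have hne : X ≠ q := by rintro rfl; omega
      rw [d1 X h, if_pos h, if_neg hne, add_zero]
    · have hX := hσ h
      subst hX
      rw [if_neg (lt_irrefl _), if_pos rfl, zero_add]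
      unfold cl
      rw [min_eq_right (by linarith [hq1.2]), max_eq_right (by linarith)]
    · have hne : X ≠ q := by rintro rfl; omega
      rw [d2 X h, if_neg (by omega), if_neg hne, add_zero]
  rw [sum_congr rfl fun X _ => e X, sum_add_distrib]
  have : (∑ X, if X = q then y - pre σ l q else 0) = y - pre σ l q := by
    rw [sum_eq_single q]
    · simp
    · intro b _ hb; simp [hb]
    · intro h; exact absurd (mem_univ _) h
  rw [this]
  unfold pre
  ring

end Pool.Agent.H95.TB
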