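import Pool.Agent.H95.TB.Target
import Pool.Agent.H95.TB.NW
import Pool.Agent.H34.PLE.Poly

/-!
# Gluing complexes of words and their map to the quotient of a product of spheres

Every facet carries a sign, and every vertex of it has a circle `kk`, a letter `ll` and a run `rn` (`false`: after
the window, `true`: before the window).
-/

open Finset

namespace Pool.Agent.H95.TB

open Pool.Agent.H34.PLE

/-- order of the letters -/
def sg (b : Bool) (X : Fin 3) : ℕ := if b then (![0, 2, 1] : Fin 3 → ℕ) X else X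

/-- the letters in their order -/
def od (b : Bool) (j : Fin 3) : Fin 3 := if b then (![0, 2, 1] : Fin 3 → Fin 3) j else j

lemma sg_inj (b : Bool) : Function.Injective (sg b) := by
  cases b <;> decide

/-- mean position of the letters -/
noncomputable def ss (b : Bool) (P l : Fin 3 → ℝ) : ℝ := ∑ X, P X * (pre (sg b) l X + l X / 2)

lemma ss_false (P l : Fin 3 → ℝ) :
    ss false P l = P 0 * (l 0 / 2) + P 1 * (l 0 + l 1 / 2) + P 2 * (l 0 + l 1 + l 2 / 2) := by
  unfold ss pre sg
  simp [Fin.sum_univ_three]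

lemma ss_true (P l : Fin 3 → ℝ) :
    ss true P l = P 0 * (l 0 / 2) + P 1 * (l 0 + l 2 + l 1 / 2) + P 2 * (l 0 + l 2 / 2) := by
  unfold ss pre sg
  simp [Fin.sum_univ_three]

/-- the data of the words -/
structure Mdl (n r : ℕ) (K : Glue n) where
  /-- twisted circles -/
  tw : Fin r → Bool
  /-- sign -/
  ε : K.ι → Bool
  /-- circle -/
  kk : K.ι → Fin (n + 1) → Fin r
  /-- run -/
  rn : K.ι → Fin (n + 1) → Bool
  /-- letter -/
  ll : K.ι → Fin (n + 1) → Fin 3

variable {n r : ℕ} {K : Glue n} (M : Mdl n r K)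

namespace Mdl

/-- the code of a slot -/
def cd (e : Bool) (s : Fin r × Bool × Fin 3) : ℕ :=
  6 * s.1 + (if s.2.1 = true then 3 else 0) + sg (M.tw s.1 && !e) s.2.2

/-- the slot of a vertex -/
def slot (i : K.ι) (a : Fin (n + 1)) : Fin r × Bool × Fin 3 := (M.kk i a, M.rn i a, M.ll i a)

/-- `1` for `true` -/
def ind (b : Bool) : ℤ := if b = true then 1 else 0

/-- compatibility of two faces -/
def Comp1 (i : K.ι) (a : Fin (n + 1)) (j : K.ι) (b : Fin (n + 1)) : Prop :=
  (∀ s : Fin n, M.kk i (a.succAbove s) = M.kk j (b.succAbove s) ∧ M.ll i (a.succAbove s) = M.ll j (b.succAbove s)) ∧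
  ((M.ε i = M.ε j ∧ ∀ k, ∃ c : ℤ, ∀ s : Fin n, M.kk i (a.succAbove s) = k →
      ind (M.rn j (b.succAbove s)) = ind (M.rn i (a.succAbove s)) + c) ∨
   (M.ε i = true ∧ M.ε j = false ∧ ∃ Z : Fin 3, (∀ s : Fin n, M.ll i (a.succAbove s) ≠ Z) ∧
      ∀ k, ∃ c : ℤ, ∀ s : Fin n, M.kk i (a.succAbove s) = k →
        ind (M.rn j (b.succAbove s)) = ind (M.rn i (a.succAbove s)) + c -
          if Z = 0 ∧ M.tw k = true ∧ M.ll i (a.succAbove s) = 1 then 1 else 0))

/-- list of the labels and weights of a point -/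
noncomputable def lst (i : K.ι) (x : Fin (n + 1) → ℝ) : List ((Fin r × Fin 3) × ℝ) :=
  (List.finRange (n + 1)).filterMap fun a => if x a = 0 then none else some ((M.kk i a, M.ll i a), x a)

/-- the axioms -/
structure Good : Prop where
  mono : ∀ i a b, a < b → M.cd (M.ε i) (M.slot i a) < M.cd (M.ε i) (M.slot i b)
  chain : ∀ i a b, M.ll i a < M.ll i b → M.kk i a ≤ M.kk i b
  cut : ∀ i a b, M.kk i a = M.kk i b → M.rn i a = false → M.rn i b = true →
    sg (M.tw (M.kk i a) && !M.ε i) (M.ll i b) ≤ sg (M.tw (M.kk i a) && !M.ε i) (M.ll i a)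
  glue : ∀ i j a b, K.face i a = K.face j b → M.Comp1 i a j b ∨ M.Comp1 j b i a
  facet : ∀ (e : Bool) (E : ℕ → ℕ) (q : Fin r → Fin 3), E 0 = 0 → E r = 2 → (∀ k < r, E k ≤ E (k + 1)) →
    (∀ k : Fin r, E k ≤ q k ∧ (q k : ℕ) ≤ E (k + 1)) → ∃ i, M.ε i = e ∧ ∀ (k : Fin r) (b : Bool) (X : Fin 3),
      E k ≤ X → (X : ℕ) ≤ E (k + 1) →
      (if b = true then sg (M.tw k && !e) X ≤ sg (M.tw k && !e) (q k)
        else sg (M.tw k && !e) (q k) ≤ sg (M.tw k && !e) X) → ∃ a, M.slot i a = (k, b, X)
  eq : ∀ i j (x y : Sx n), M.ε i = M.ε j → M.lst i x.1 = M.lst j y.1 → K.pt i x = K.pt j y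
  plus : ∀ i (x : Sx n), M.ε i = false → (∃ Z, ∀ a, M.ll i a = Z → x.1 a = 0) →
    ∃ j y, M.ε j = true ∧ K.pt i x = K.pt j y

/-! ### coordinates -/

/-- weights of the slots -/
noncomputable def cc (i : K.ι) (x : Fin (n + 1) → ℝ) (b : Bool) (k : Fin r) (X : Fin 3) : ℝ :=
  ∑ a, if M.kk i a = k ∧ M.rn i a = b ∧ M.ll i a = X then x a else 0

/-- weights of the labels -/
noncomputable def lw (i : K.ι) (x : Fin (n + 1) → ℝ) (k : Fin r) (X : Fin 3) : ℝ :=
  ∑ a, if M.kk i a = k ∧ M.ll i a = X then x a else 0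

/-- weights of the letters -/
noncomputable def pX (i : K.ι) (x : Fin (n + 1) → ℝ) (X : Fin 3) : ℝ := ∑ k, M.lw i x k X

/-- weights of the circles -/
noncomputable def wk (i : K.ι) (x : Fin (n + 1) → ℝ) (k : Fin r) : ℝ := ∑ X, M.lw i x k X

/-- positions of the windows -/
noncomputable def XX (i : K.ι) (x : Fin (n + 1) → ℝ) (k : Fin r) : ℝ := ∑ X, M.cc i x true k X

/-- positions relative to the mean position -/
noncomputable def yy (i : K.ι) (x : Fin (n + 1) → ℝ) (k : Fin r) : ℝ :=
  M.XX i x k - ss (M.tw k && !M.ε i) (M.pX i x) (M.lw i x k)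

lemma lw_eq (i : K.ι) (x : Fin (n + 1) → ℝ) (k : Fin r) (X : Fin 3) :
    M.lw i x k X = M.cc i x false k X + M.cc i x true k X := by
  unfold lw cc
  rw [← sum_add_distrib]
  refine sum_congr rfl fun a _ => ?_
  cases M.rn i a <;> simp

lemma wk_eq (i : K.ι) (x : Fin (n + 1) → ℝ) (k : Fin r) : M.wk i x k = ∑ a, if M.kk i a = k then x a else 0 := by
  unfold wk lw
  rw [sum_comm]
  refine sum_congr rfl fun a _ => ?_
  by_cases h : M.kk i a = k
  · simp [h]
  · simp [h]

lemma XX_eq (i : K.ι) (x : Fin (n + 1) → ℝ) (k : Fin r) :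
    M.XX i x k = ∑ a, if M.kk i a = k ∧ M.rn i a = true then x a else 0 := by
  unfold XX cc
  rw [sum_comm]
  refine sum_congr rfl fun a _ => ?_
  by_cases h : M.kk i a = k
  · cases h2 : M.rn i a <;> simp [h]
  · simp [h]

lemma pX_eq (i : K.ι) (x : Fin (n + 1) → ℝ) (X : Fin 3) : M.pX i x X = ∑ a, if M.ll i a = X then x a else 0 := by
  unfold pX lw
  rw [sum_comm]
  refine sum_congr rfl fun a _ => ?_
  by_cases h : M.ll i a = X
  · simp [h]
  · simp [h]

lemma pX_sum (i : K.ι) (x : Sx n) : ∑ X, M.pX i x.1 X = 1 := by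
  rw [← x.2.2, sum_congr rfl fun X _ => M.pX_eq i x.1 X, sum_comm]
  refine sum_congr rfl fun a _ => ?_
  simp

lemma wk_sum (i : K.ι) (x : Sx n) : ∑ k, M.wk i x.1 k = 1 := by
  rw [← x.2.2, sum_congr rfl fun X _ => M.wk_eq i x.1 X, sum_comm]
  refine sum_congr rfl fun a _ => ?_
  simp

lemma cc_nonneg (i : K.ι) (x : Sx n) (b : Bool) (k : Fin r) (X : Fin 3) : 0 ≤ M.cc i x.1 b k X := by
  refine sum_nonneg fun a _ => ?_
  split_ifs
  · exact x.2.1 a
  · exact le_rfl

lemma lw_nonneg (i : K.ι) (x : Sx n) (k : Fin r) (X : Fin 3) : 0 ≤ M.lw i x.1 k X := by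
  rw [lw_eq]; exact add_nonneg (M.cc_nonneg i x _ _ _) (M.cc_nonneg i x _ _ _)

lemma pX_tri (i : K.ι) (x : Sx n) : Tri (M.pX i x.1) :=
  ⟨fun X => sum_nonneg fun k _ => M.lw_nonneg i x k X, by
    have := M.pX_sum i x; rw [Fin.sum_univ_three] at this; exact this⟩

lemma wk_nonneg (i : K.ι) (x : Sx n) (k : Fin r) : 0 ≤ M.wk i x.1 k := sum_nonneg fun X _ => M.lw_nonneg i x k X

/-- the map on one facet -/
noncomputable def G (i : K.ι) (x : Sx n) : Tw M.tw :=
  cls M.tw (UU (M.ε i) (M.pX i x.1)) (UU_ne _ _) (VV (M.wk i x.1) (M.yy i x.1)) (VV_ne (M.wk_sum i x) _)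

lemma cont_ite (c : Prop) [Decidable c] (a : Fin (n + 1)) : Continuous fun x : Sx n => if c then x.1 a else 0 := by
  split_ifs
  · exact (continuous_apply a).comp continuous_subtype_val
  · exact continuous_const

lemma lw_continuous (i : K.ι) (k : Fin r) (X : Fin 3) : Continuous fun x : Sx n => M.lw i x.1 k X := by
  unfold lw
  exact continuous_finsetSum _ fun a _ => cont_ite _ a

lemma cc_continuous (i : K.ι) (b : Bool) (k : Fin r) (X : Fin 3) : Continuous fun x : Sx n => M.cc i x.1 b k X := by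
  unfold cc
  exact continuous_finsetSum _ fun a _ => cont_ite _ a

lemma G_continuous (i : K.ι) : Continuous (M.G i) := by
  have hp : Continuous fun x : Sx n => M.pX i x.1 :=
    continuous_pi fun X => continuous_finsetSum _ fun k _ => M.lw_continuous i k X
  have hw : Continuous fun x : Sx n => M.wk i x.1 :=
    continuous_pi fun k => continuous_finsetSum _ fun X _ => M.lw_continuous i k X
  have hX : ∀ k, Continuous fun x : Sx n => M.XX i x.1 k := fun k =>
    continuous_finsetSum _ fun X _ => M.cc_continuous i true k X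
  have hy : Continuous fun x : Sx n => M.yy i x.1 := by
    refine continuous_pi fun k => (hX k).sub ?_
    unfold ss pre
    refine continuous_finsetSum _ fun X _ => Continuous.mul ((continuous_apply X).comp hp)
      (Continuous.add (continuous_finsetSum _ fun Y _ => ?_) ((M.lw_continuous i k X).div_const 2))
    split_ifs
    · exact M.lw_continuous i k Y
    · exact continuous_const
  unfold G cls
  exact continuous_quot_mk.comp ((nz_continuous (UU_continuous _ hp (M.pX_tri i)) fun x => UU_ne _ _).prodMk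
    (nz_continuous (VV_continuous hw hy) fun x => VV_ne (M.wk_sum i x) _))

/-! ### gluing -/

lemma G_glue1 {i j : K.ι} {a b : Fin (n + 1)} (h : M.Comp1 i a j b) {x y : Sx n} (ha : x.1 a = 0)
    (hb : y.1 b = 0) (hxy : ∀ s, x.1 (a.succAbove s) = y.1 (b.succAbove s)) : M.G i x = M.G j y := by
  obtain ⟨h1, h2⟩ := h
  have ex : ∀ (F : Fin (n + 1) → Prop) [DecidablePred F], (∑ t, if F t then x.1 t else 0) =
      ∑ s : Fin n, if F (a.succAbove s) then x.1 (a.succAbove s) else 0 := by
    intro F _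
    rw [Fin.sum_univ_succAbove _ a, ha, ite_self, zero_add]
  have ey : ∀ (F : Fin (n + 1) → Prop) [DecidablePred F], (∑ t, if F t then y.1 t else 0) =
      ∑ s : Fin n, if F (b.succAbove s) then y.1 (b.succAbove s) else 0 := by
    intro F _
    rw [Fin.sum_univ_succAbove _ b, hb, ite_self, zero_add]
  have elw : ∀ k X, M.lw j y.1 k X = M.lw i x.1 k X := by
    intro k X
    unfold lw
    rw [ex (fun t => M.kk i t = k ∧ M.ll i t = X), ey (fun t => M.kk j t = k ∧ M.ll j t = X)]
    refine sum_congr rfl fun s _ => ?_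
    rw [(h1 s).1, (h1 s).2, hxy s]
  have elw' : M.lw j y.1 = M.lw i x.1 := by funext k X; exact elw k X
  have epX : M.pX j y.1 = M.pX i x.1 := by unfold pX; rw [elw']
  have ewk : M.wk j y.1 = M.wk i x.1 := by unfold wk; rw [elw']
  -- the windows
  have key : ∀ (k : Fin r) (c : ℤ) (D : Prop) [Decidable D],
      (∀ s : Fin n, M.kk i (a.succAbove s) = k → ind (M.rn j (b.succAbove s)) = ind (M.rn i (a.succAbove s)) + c -
          if D ∧ M.ll i (a.succAbove s) = 1 then 1 else 0) →
      M.XX j y.1 k = M.XX i x.1 k + c * M.wk i x.1 k - if D then M.lw i x.1 k 1 else 0 := by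
    intro k c D _ hc
    have e3 : (if D then M.lw i x.1 k 1 else 0) = ∑ s : Fin n, if D ∧ M.kk i (a.succAbove s) = k ∧
        M.ll i (a.succAbove s) = 1 then x.1 (a.succAbove s) else 0 := by
      by_cases hD : D
      · rw [if_pos hD]
        unfold lw
        rw [Fin.sum_univ_succAbove _ a, ha, ite_self, zero_add]
        refine sum_congr rfl fun s _ => ?_
        simp [hD]
      · simp [hD]
    rw [e3, XX_eq, XX_eq, wk_eq, ex (fun t => M.kk i t = k ∧ M.rn i t = true), ex (fun t => M.kk i t = k),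
      ey (fun t => M.kk j t = k ∧ M.rn j t = true), mul_sum, ← sum_add_distrib, ← sum_sub_distrib]
    refine sum_congr rfl fun s _ => ?_
    rw [← (h1 s).1, ← hxy s]
    by_cases hk : M.kk i (a.succAbove s) = k
    · have h3 := hc s hk
      have h4 : ((ind (M.rn j (b.succAbove s)) : ℤ) : ℝ) = ind (M.rn i (a.succAbove s)) + c -
          if D ∧ M.ll i (a.succAbove s) = 1 then 1 else 0 := by
        rw [h3]; push_cast; rfl
      have h5 : ∀ b : Bool, (if M.kk i (a.succAbove s) = k ∧ b = true then x.1 (a.succAbove s) else 0) =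
          (ind b : ℝ) * x.1 (a.succAbove s) := by
        intro b
        unfold ind
        cases b <;> simp [hk]
      rw [h5, h5, h4, if_pos hk]
      by_cases hD : D ∧ M.ll i (a.succAbove s) = 1
      · rw [if_pos hD, if_pos ⟨hD.1, hk, hD.2⟩]; ring
      · rw [if_neg hD, if_neg (fun h => hD ⟨h.1, h.2.2⟩)]; ring
    · simp [hk]
  rcases h2 with ⟨he, hc⟩ | ⟨hi, hj, Z, hZ, hc⟩
  · refine cls_eq (z := 1) norm_one (fun j' => ?_) (fun k => ?_)
    · rw [he, epX, one_mul]
    · rw [ite_self, one_mul, VV_apply, VV_apply, ewk]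
      obtain ⟨c, hc⟩ := hc k
      have h3 := key k c False (fun s hs => by rw [hc s hs]; simp)
      rw [if_neg not_false, sub_zero] at h3
      have : M.yy j y.1 k = M.yy i x.1 k + c * M.wk i x.1 k := by
        unfold yy
        rw [h3, epX, elw', he]; ring
      rw [this, φ_add_int]
  · have hT := M.pX_tri i x
    have hZ0 : M.pX i x.1 Z = 0 := by
      rw [pX_eq, Fin.sum_univ_succAbove _ a, ha, ite_self, zero_add]
      refine sum_eq_zero fun s _ => if_neg (hZ s)
    have hl0 : ∀ k, M.lw i x.1 k Z = 0 := by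
      intro k
      exact (sum_eq_zero_iff_of_nonneg (fun k _ => M.lw_nonneg i x k Z)).1 hZ0 k (mem_univ k)
    have hwk : ∀ k, M.wk i x.1 k = M.lw i x.1 k 0 + M.lw i x.1 k 1 + M.lw i x.1 k 2 := by
      intro k; unfold wk; rw [Fin.sum_univ_three]
    have key2 : ∀ k, ∃ c : ℤ, M.yy j y.1 k = M.yy i x.1 k + c * M.wk i x.1 k -
        (if Z = 0 ∧ M.tw k = true then M.pX i x.1 1 * M.wk i x.1 k else 0) := by
      intro k
      obtain ⟨c, hc⟩ := hc k
      refine ⟨c, ?_⟩
      have h3 := key k c (Z = 0 ∧ M.tw k = true) (fun s hs => by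
        rw [hc s hs]; congr 1; simp only [and_assoc])
      unfold yy
      rw [h3, epX, elw', hi, hj]
      have hl := hl0 k
      have hw := hwk k
      have hT2 := hT.2
      cases htw : M.tw k
      · simp [ss_false]
        ring
      · simp only [Bool.not_true, Bool.and_false, Bool.not_false, Bool.and_true, and_true]
        rw [ss_false, ss_true]
        have h012 : Z = 0 ∨ Z = 1 ∨ Z = 2 := by fin_cases Z <;> simp
        rcases h012 with rfl | rfl | rfl
        · rw [if_pos rfl, if_pos rfl, hw, hl, hZ0]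
          rw [hZ0, zero_add] at hT2
          have : M.pX i x.1 2 = 1 - M.pX i x.1 1 := by linarith
          rw [this]; ring
        · rw [if_neg (by decide), if_neg (by decide), hl, hZ0]
          ring
        · rw [if_neg (by decide), if_neg (by decide), hl, hZ0]
          ring
    by_cases hZA : Z = 0
    · subst hZA
      have hU := U_A hT hZ0
      refine cls_eq (z := ee (-(M.pX i x.1 1))) (norm_ee _) (fun j' => ?_) (fun k => ?_)
      · rw [hi, hj, epX]
        have h4 : ∀ j' : Fin 2, UU false (M.pX i x.1) j' = ee (-(M.pX i x.1 1)) * UU true (M.pX i x.1) j' := by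
          intro j'
          fin_cases j'
          · exact congrArg Prod.fst hU
          · exact congrArg Prod.snd hU
        exact h4 j'
      · rw [VV_apply, VV_apply, ewk]
        obtain ⟨c, hc⟩ := key2 k
        rw [hc]
        by_cases htw : M.tw k = true
        · rw [if_pos ⟨rfl, htw⟩, if_pos htw]
          have : M.yy i x.1 k + c * M.wk i x.1 k - M.pX i x.1 1 * M.wk i x.1 k =
            (M.yy i x.1 k + -(M.pX i x.1 1) * M.wk i x.1 k) + c * M.wk i x.1 k := by ring
          rw [this, φ_add_int, φ_add_mul]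
          rfl
        · rw [if_neg (fun h => htw h.2), if_neg htw, sub_zero, φ_add_int, one_mul]
    · have hU : U false (M.pX i x.1) = U true (M.pX i x.1) := by
        have h12 : Z = 1 ∨ Z = 2 := by fin_cases Z <;> simp_all
        rcases h12 with rfl | rfl
        · exact U_B hT hZ0
        · exact U_C hT hZ0
      refine cls_eq (z := 1) norm_one (fun j' => ?_) (fun k => ?_)
      · rw [hi, hj, epX, one_mul]
        unfold UU
        rw [hU]
      · rw [ite_self, one_mul, VV_apply, VV_apply, ewk]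
        obtain ⟨c, hc⟩ := key2 k
        rw [hc, if_neg (fun h => hZA h.1), sub_zero, φ_add_int]

variable {M}

lemma G_rel (hM : M.Good) (p q : Σ _ : K.ι, Sx n) (h : K.Rel p q) : M.G p.1 p.2 = M.G q.1 q.2 := by
  obtain ⟨a, b, ha, hb, hf, hs⟩ := h
  rcases hM.glue _ _ _ _ hf with h | h
  · exact M.G_glue1 h ha hb hs
  · exact (M.G_glue1 h hb ha fun s => (hs s).symm).symm

/-- the map -/
noncomputable def GG (hM : M.Good) : K.Real → Tw M.tw := Quot.lift (fun p => M.G p.1 p.2) (G_rel hM)

lemma GG_pt (hM : M.Good) (i : K.ι) (x : Sx n) : GG hM (K.pt i x) = M.G i x := rfl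

lemma GG_continuous (hM : M.Good) : Continuous (GG hM) := by
  refine continuous_quot_lift _ ?_
  rw [continuous_sigma_iff]
  intro i
  exact M.G_continuous i

end Mdl

end Pool.Agent.H95.TB
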