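import Pool.Agent.H34.PLE.Poly

/-!
# Piecewise linear functions
-/

namespace Pool.Agent.H95.TB

variable {V E E' : Type} [AddCommGroup V] [Module ℝ V] [AddCommGroup E] [Module ℝ E] [AddCommGroup E'] [Module ℝ E']

/-- `g` is given by linear maps on finitely many polyhedral cones covering the space -/
def PLF (g : V → E) : Prop := ∃ Ps : List (List (V →ₗ[ℝ] ℝ) × (V →ₗ[ℝ] E)),
  (∀ x, ∃ P ∈ Ps, ∀ ℓ ∈ P.1, 0 ≤ ℓ x) ∧ ∀ P ∈ Ps, ∀ x, (∀ ℓ ∈ P.1, 0 ≤ ℓ x) → g x = P.2 x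

lemma PLF.linear (T : V →ₗ[ℝ] E) : PLF (fun x => T x) := by
  refine ⟨[([], T)], fun x => ⟨_, List.mem_singleton_self _, fun ℓ hℓ => by simp at hℓ⟩, fun P hP x _ => ?_⟩
  rw [List.mem_singleton] at hP
  subst hP
  rfl

/-- common refinement -/
lemma PLF.bind {E'' : Type} [AddCommGroup E''] [Module ℝ E''] {g : V → E} {g' : V → E'} (hg : PLF g)
    (hg' : PLF g') {F : V → E''} (c : (V →ₗ[ℝ] E) → (V →ₗ[ℝ] E') → (V →ₗ[ℝ] E''))
    (hF : ∀ x T T', g x = T x → g' x = T' x → F x = c T T' x) : PLF F := by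
  obtain ⟨Ps, h1, h2⟩ := hg
  obtain ⟨Qs, h1', h2'⟩ := hg'
  refine ⟨Ps.flatMap fun P => Qs.map fun Q => (P.1 ++ Q.1, c P.2 Q.2), fun x => ?_, fun R hR x hx => ?_⟩
  · obtain ⟨P, hP, hPx⟩ := h1 x
    obtain ⟨Q, hQ, hQx⟩ := h1' x
    refine ⟨(P.1 ++ Q.1, c P.2 Q.2), List.mem_flatMap.2 ⟨P, hP, List.mem_map.2 ⟨Q, hQ, rfl⟩⟩, fun ℓ hℓ => ?_⟩
    rw [List.mem_append] at hℓ
    rcases hℓ with hℓ | hℓ
    · exact hPx ℓ hℓ
    · exact hQx ℓ hℓ
  · obtain ⟨P, hP, hR⟩ := List.mem_flatMap.1 hR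
    obtain ⟨Q, hQ, rfl⟩ := List.mem_map.1 hR
    exact hF x _ _ (h2 P hP x fun ℓ hℓ => hx ℓ (List.mem_append_left _ hℓ))
      (h2' Q hQ x fun ℓ hℓ => hx ℓ (List.mem_append_right _ hℓ))

lemma PLF.add {g g' : V → E} (hg : PLF g) (hg' : PLF g') : PLF (fun x => g x + g' x) :=
  hg.bind hg' (fun T T' => T + T') fun x T T' h h' => by rw [h, h']; rfl

lemma PLF.sub {g g' : V → E} (hg : PLF g) (hg' : PLF g') : PLF (fun x => g x - g' x) :=
  hg.bind hg' (fun T T' => T - T') fun x T T' h h' => by rw [h, h']; rfl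

lemma PLF.prod {g : V → E} {g' : V → E'} (hg : PLF g) (hg' : PLF g') : PLF (fun x => (g x, g' x)) :=
  hg.bind hg' (fun T T' => T.prod T') fun x T T' h h' => by rw [h, h']; rfl

lemma PLF.smul (c : ℝ) {g : V → E} (hg : PLF g) : PLF (fun x => c • g x) :=
  hg.bind hg (fun T _ => c • T) fun x T T' h h' => by rw [h]; rfl

/-- splitting along the zero set of a function -/
lemma PLF.split {g : V → ℝ} (hg : PLF g) {a b : V → E} (ha : PLF a) (hb : PLF b) {F : V → E}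
    (h1 : ∀ x, 0 ≤ g x → F x = a x) (h2 : ∀ x, g x ≤ 0 → F x = b x) : PLF F := by
  obtain ⟨Ps, p1, p2⟩ := hg
  obtain ⟨Qs, q1, q2⟩ := ha
  obtain ⟨Rs, r1, r2⟩ := hb
  refine ⟨Ps.flatMap fun P => (Qs.map fun Q => (P.2 :: (P.1 ++ Q.1), Q.2)) ++
    (Rs.map fun R => ((-P.2) :: (P.1 ++ R.1), R.2)), fun x => ?_, fun S hS x hx => ?_⟩
  · obtain ⟨P, hP, hPx⟩ := p1 x
    have hgx := p2 P hP x hPx
    rcases le_total 0 (g x) with h0 | h0
    · obtain ⟨Q, hQ, hQx⟩ := q1 x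
      refine ⟨(P.2 :: (P.1 ++ Q.1), Q.2), List.mem_flatMap.2 ⟨P, hP, List.mem_append_left _
        (List.mem_map.2 ⟨Q, hQ, rfl⟩)⟩, fun ℓ hℓ => ?_⟩
      rw [List.mem_cons, List.mem_append] at hℓ
      rcases hℓ with rfl | hℓ | hℓ
      · rw [← hgx]; exact h0
      · exact hPx ℓ hℓ
      · exact hQx ℓ hℓ
    · obtain ⟨R, hR, hRx⟩ := r1 x
      refine ⟨((-P.2) :: (P.1 ++ R.1), R.2), List.mem_flatMap.2 ⟨P, hP, List.mem_append_right _
        (List.mem_map.2 ⟨R, hR, rfl⟩)⟩, fun ℓ hℓ => ?_⟩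
      rw [List.mem_cons, List.mem_append] at hℓ
      rcases hℓ with rfl | hℓ | hℓ
      · rw [LinearMap.neg_apply, ← hgx]; linarith
      · exact hPx ℓ hℓ
      · exact hRx ℓ hℓ
  · obtain ⟨P, hP, hS⟩ := List.mem_flatMap.1 hS
    rcases List.mem_append.1 hS with hS | hS
    · obtain ⟨Q, hQ, rfl⟩ := List.mem_map.1 hS
      have e1 := p2 P hP x fun ℓ hℓ => hx ℓ (List.mem_cons_of_mem _ (List.mem_append_left _ hℓ))
      have e2 := hx P.2 List.mem_cons_self
      rw [← e1] at e2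
      rw [h1 x e2]
      exact q2 Q hQ x fun ℓ hℓ => hx ℓ (List.mem_cons_of_mem _ (List.mem_append_right _ hℓ))
    · obtain ⟨R, hR, rfl⟩ := List.mem_map.1 hS
      have e1 := p2 P hP x fun ℓ hℓ => hx ℓ (List.mem_cons_of_mem _ (List.mem_append_left _ hℓ))
      have e2 := hx (-P.2) List.mem_cons_self
      rw [LinearMap.neg_apply, ← e1] at e2
      rw [h2 x (by linarith)]
      exact r2 R hR x fun ℓ hℓ => hx ℓ (List.mem_cons_of_mem _ (List.mem_append_right _ hℓ))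

lemma PLF.max {g g' : V → ℝ} (hg : PLF g) (hg' : PLF g') : PLF (fun x => max (g x) (g' x)) :=
  (hg.sub hg').split hg hg' (fun x h => max_eq_left (by linarith)) (fun x h => max_eq_right (by linarith))

lemma PLF.min {g g' : V → ℝ} (hg : PLF g) (hg' : PLF g') : PLF (fun x => min (g x) (g' x)) :=
  (hg.sub hg').split hg' hg (fun x h => min_eq_right (by linarith)) (fun x h => min_eq_left (by linarith))

lemma PLF.abs {g : V → ℝ} (hg : PLF g) : PLF (fun x => |g x|) :=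
  hg.split hg (hg.smul (-1)) (fun x h => abs_of_nonneg h) (fun x h => by rw [abs_of_nonpos h]; simp)

lemma PLF.pi {m : ℕ} {g : V → Fin m → ℝ} (hg : ∀ j, PLF fun x => g x j) : PLF g := by
  induction m with
  | zero =>
    have : g = fun x => (0 : V →ₗ[ℝ] (Fin 0 → ℝ)) x := by funext x j; exact j.elim0
    rw [this]
    exact PLF.linear _
  | succ m ih =>
    have h1 : PLF fun x => (fun j : Fin m => g x j.succ) := ih fun j => hg j.succ
    refine (hg 0).bind h1 (fun T T' => LinearMap.pi (Fin.cons T fun j => (LinearMap.proj j).comp T')) ?_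
    intro x T T' hT hT'
    funext j
    refine Fin.cases ?_ (fun j => ?_) j
    · simpa using hT
    · have := congrFun hT' j
      simpa using this

lemma PLF.const_mul (c : ℝ) {g : V → ℝ} (hg : PLF g) : PLF (fun x => c * g x) := hg.smul c

lemma PLF.sum {ι : Type*} (s : Finset ι) {g : ι → V → ℝ} (hg : ∀ i ∈ s, PLF (g i)) :
    PLF (fun x => ∑ i ∈ s, g i x) := by
  classical
  induction s using Finset.induction_on with
  | empty => simpa using PLF.linear (V := V) (0 : V →ₗ[ℝ] ℝ)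
  | insert a s ha ih =>
    have h1 := (hg a (Finset.mem_insert_self _ _)).add (ih fun i hi => hg i (Finset.mem_insert_of_mem hi))
    have h2 : (fun x => ∑ i ∈ insert a s, g i x) = fun x => g a x + ∑ i ∈ s, g i x := by
      funext x; rw [Finset.sum_insert ha]
    rw [h2]; exact h1

end Pool.Agent.H95.TB
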