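import Pool.Agent.H95.TB.Surj
import Pool.Agent.H95.TB.PLF

/-!
# The untwisted models are piecewise linearly `∂Δ³` times the boundary of a cross-polytope
-/

open Finset

namespace Pool.Agent.H95.TB

open Pool.Agent.H34.PLE

/-! ### the base -/

/-- the double of a triangle as the boundary of a tetrahedron -/
noncomputable def base4 (s : Bool) (p : Fin 3 → ℝ) : Fin 4 → ℝ :=
  if s = true then ![p 0, p 1, p 2, 0]
  else ![p 0 - min (p 0) (min (p 1) (p 2)), p 1 - min (p 0) (min (p 1) (p 2)), p 2 - min (p 0) (min (p 1) (p 2)),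
    3 * min (p 0) (min (p 1) (p 2))]

lemma base4_true (p : Fin 3 → ℝ) : base4 true p = ![p 0, p 1, p 2, 0] := if_pos rfl

lemma base4_false (p : Fin 3 → ℝ) : base4 false p = ![p 0 - min (p 0) (min (p 1) (p 2)),
    p 1 - min (p 0) (min (p 1) (p 2)), p 2 - min (p 0) (min (p 1) (p 2)), 3 * min (p 0) (min (p 1) (p 2))] :=
  if_neg (by decide)

lemma min3_cases (a b c : ℝ) : (min a (min b c) = a ∧ a ≤ b ∧ a ≤ c) ∨ (min a (min b c) = b ∧ b ≤ a ∧ b ≤ c) ∨
    (min a (min b c) = c ∧ c ≤ a ∧ c ≤ b) := by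
  rcases le_total b c with h1 | h1
  · rw [min_eq_left h1]
    rcases le_total a b with h2 | h2
    · rw [min_eq_left h2]; exact Or.inl ⟨rfl, h2, h2.trans h1⟩
    · rw [min_eq_right h2]; exact Or.inr (Or.inl ⟨rfl, h2, h1⟩)
  · rw [min_eq_right h1]
    rcases le_total a c with h2 | h2
    · rw [min_eq_left h2]; exact Or.inl ⟨rfl, h2.trans h1, h2⟩
    · rw [min_eq_right h2]; exact Or.inr (Or.inr ⟨rfl, h2, h1⟩)

lemma base4_mem {p : Fin 3 → ℝ} (hp : Tri p) (s : Bool) : base4 s p ∈ bdSx 3 := by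
  have h0 := hp.1 0; have h1 := hp.1 1; have h2 := hp.1 2; have h3 := hp.2
  cases s
  · rw [base4_false]
    rcases min3_cases (p 0) (p 1) (p 2) with ⟨hm, a, b⟩ | ⟨hm, a, b⟩ | ⟨hm, a, b⟩ <;> rw [hm]
    · refine ⟨⟨fun i => ?_, ?_⟩, 0, by simp⟩
      · fin_cases i <;> simp <;> linarith
      · rw [Fin.sum_univ_four]; simp; linarith
    · refine ⟨⟨fun i => ?_, ?_⟩, 1, by simp⟩
      · fin_cases i <;> simp <;> linarith
      · rw [Fin.sum_univ_four]; simp; linarith
    · refine ⟨⟨fun i => ?_, ?_⟩, 2, by simp⟩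
      · fin_cases i <;> simp <;> linarith
      · rw [Fin.sum_univ_four]; simp; linarith
  · rw [base4_true]
    refine ⟨⟨fun i => ?_, ?_⟩, 3, by simp⟩
    · fin_cases i <;> simp <;> linarith
    · rw [Fin.sum_univ_four]; simp; linarith

lemma base4_glue {p : Fin 3 → ℝ} (hp : Tri p) {Z : Fin 3} (hZ : p Z = 0) : base4 false p = base4 true p := by
  have h0 := hp.1 0; have h1 := hp.1 1; have h2 := hp.1 2
  have hm : min (p 0) (min (p 1) (p 2)) = 0 := by
    have : Z = 0 ∨ Z = 1 ∨ Z = 2 := by fin_cases Z <;> simp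
    rcases min3_cases (p 0) (p 1) (p 2) with ⟨hm, a, b⟩ | ⟨hm, a, b⟩ | ⟨hm, a, b⟩ <;> rw [hm] <;>
      rcases this with rfl | rfl | rfl <;> linarith
  rw [base4_false, base4_true, hm]
  simp

lemma base4_inj {s s' : Bool} {p p' : Fin 3 → ℝ} (hp : Tri p) (hp' : Tri p') (h : base4 s p = base4 s' p') :
    p = p' ∧ (s = s' ∨ ∃ Z, p Z = 0) := by
  have a0 := hp.1 0; have a1 := hp.1 1; have a2 := hp.1 2; have a3 := hp.2
  have b0 := hp'.1 0; have b1 := hp'.1 1; have b2 := hp'.1 2; have b3 := hp'.2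
  have key : ∀ {p p' : Fin 3 → ℝ}, Tri p → Tri p' → base4 true p = base4 false p' → p = p' ∧ ∃ Z, p Z = 0 := by
    intro p p' hp hp' h
    rw [base4_true, base4_false] at h
    have e0 : p 0 = p' 0 - min (p' 0) (min (p' 1) (p' 2)) := congrFun h 0
    have e1 : p 1 = p' 1 - min (p' 0) (min (p' 1) (p' 2)) := congrFun h 1
    have e2 : p 2 = p' 2 - min (p' 0) (min (p' 1) (p' 2)) := congrFun h 2
    have e3 : 0 = 3 * min (p' 0) (min (p' 1) (p' 2)) := congrFun h 3
    have e4 : min (p' 0) (min (p' 1) (p' 2)) = 0 := by linarith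
    rw [e4] at e0 e1 e2
    refine ⟨?_, ?_⟩
    · funext i; fin_cases i
      · show p 0 = p' 0; linarith
      · show p 1 = p' 1; linarith
      · show p 2 = p' 2; linarith
    · rcases min3_cases (p' 0) (p' 1) (p' 2) with ⟨hm, _⟩ | ⟨hm, _⟩ | ⟨hm, _⟩
      · exact ⟨0, by linarith⟩
      · exact ⟨1, by linarith⟩
      · exact ⟨2, by linarith⟩
  cases s <;> cases s'
  · refine ⟨?_, Or.inl rfl⟩
    rw [base4_false, base4_false] at h
    have e0 : p 0 - min (p 0) (min (p 1) (p 2)) = p' 0 - min (p' 0) (min (p' 1) (p' 2)) := congrFun h 0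
    have e1 : p 1 - min (p 0) (min (p 1) (p 2)) = p' 1 - min (p' 0) (min (p' 1) (p' 2)) := congrFun h 1
    have e2 : p 2 - min (p 0) (min (p 1) (p 2)) = p' 2 - min (p' 0) (min (p' 1) (p' 2)) := congrFun h 2
    have e3 : 3 * min (p 0) (min (p 1) (p 2)) = 3 * min (p' 0) (min (p' 1) (p' 2)) := congrFun h 3
    funext i; fin_cases i
    · show p 0 = p' 0; linarith
    · show p 1 = p' 1; linarith
    · show p 2 = p' 2; linarith
  · obtain ⟨h1, Z, h2⟩ := key hp' hp h.symm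
    exact ⟨h1.symm, Or.inr ⟨Z, by rw [← h1]; exact h2⟩⟩
  · obtain ⟨h1, h2⟩ := key hp hp' h
    exact ⟨h1, Or.inr h2⟩
  · refine ⟨?_, Or.inl rfl⟩
    rw [base4_true, base4_true] at h
    have e0 : p 0 = p' 0 := congrFun h 0
    have e1 : p 1 = p' 1 := congrFun h 1
    have e2 : p 2 = p' 2 := congrFun h 2
    funext i; fin_cases i
    · exact e0
    · exact e1
    · exact e2

lemma base4_surj {q : Fin 4 → ℝ} (hq : q ∈ bdSx 3) : ∃ s p, Tri p ∧ base4 s p = q := by
  obtain ⟨⟨h0, h1⟩, i, hi⟩ := hq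
  rw [Fin.sum_univ_four] at h1
  have a0 := h0 0; have a1 := h0 1; have a2 := h0 2; have a3 := h0 3
  by_cases h3 : q 3 = 0
  · refine ⟨true, ![q 0, q 1, q 2], ⟨fun j => ?_, ?_⟩, ?_⟩
    · fin_cases j
      · exact a0
      · exact a1
      · exact a2
    · simp; linarith
    · rw [base4_true]
      funext j; fin_cases j
      · rfl
      · rfl
      · rfl
      · exact h3.symm
  · have hz : q 0 = 0 ∨ q 1 = 0 ∨ q 2 = 0 := by
      fin_cases i
      · exact Or.inl hi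
      · exact Or.inr (Or.inl hi)
      · exact Or.inr (Or.inr hi)
      · exact absurd hi h3
    refine ⟨false, ![q 0 + q 3 / 3, q 1 + q 3 / 3, q 2 + q 3 / 3], ⟨fun j => ?_, ?_⟩, ?_⟩
    · fin_cases j
      · show 0 ≤ q 0 + q 3 / 3; linarith
      · show 0 ≤ q 1 + q 3 / 3; linarith
      · show 0 ≤ q 2 + q 3 / 3; linarith
    · simp; linarith
    · rw [base4_false]
      simp only [Matrix.cons_val_zero, Matrix.cons_val_one, Matrix.cons_val]
      have hm : min (q 0 + q 3 / 3) (min (q 1 + q 3 / 3) (q 2 + q 3 / 3)) = q 3 / 3 := by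
        rcases min3_cases (q 0 + q 3 / 3) (q 1 + q 3 / 3) (q 2 + q 3 / 3) with ⟨hm, a, b⟩ | ⟨hm, a, b⟩ | ⟨hm, a, b⟩ <;>
          rw [hm] <;> rcases hz with h | h | h <;> linarith
      rw [hm]
      funext j; fin_cases j
      · show q 0 + q 3 / 3 - q 3 / 3 = q 0; ring
      · show q 1 + q 3 / 3 - q 3 / 3 = q 1; ring
      · show q 2 + q 3 / 3 - q 3 / 3 = q 2; ring
      · show 3 * (q 3 / 3) = q 3; ring

/-! ### circles -/

/-- first coordinate of the parametrisation of the circle `|a| + |b| = w` by `[0, w]` -/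
noncomputable def c1 (w X : ℝ) : ℝ := |4 * X - 2 * w| - w

/-- second coordinate -/
noncomputable def c2 (w X : ℝ) : ℝ := max (w - |4 * X - w|) (4 * X - 4 * w)

lemma c_cases {w X : ℝ} (h0 : 0 ≤ X) (h1 : X ≤ w) :
    (4 * X ≤ w ∧ c1 w X = w - 4 * X ∧ c2 w X = 4 * X) ∨
    (w ≤ 4 * X ∧ 4 * X ≤ 2 * w ∧ c1 w X = w - 4 * X ∧ c2 w X = 2 * w - 4 * X) ∨
    (2 * w ≤ 4 * X ∧ 4 * X ≤ 3 * w ∧ c1 w X = 4 * X - 3 * w ∧ c2 w X = 2 * w - 4 * X) ∨
    (3 * w ≤ 4 * X ∧ c1 w X = 4 * X - 3 * w ∧ c2 w X = 4 * X - 4 * w) := by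
  unfold c1 c2
  rcases le_total (4 * X) w with h2 | h2
  · left
    rw [abs_of_nonpos (by linarith), abs_of_nonpos (by linarith), max_eq_left (by linarith)]
    exact ⟨h2, by ring, by ring⟩
  · rcases le_total (4 * X) (2 * w) with h3 | h3
    · right; left
      rw [abs_of_nonpos (by linarith), abs_of_nonneg (by linarith), max_eq_left (by linarith)]
      exact ⟨h2, h3, by ring, by ring⟩
    · rcases le_total (4 * X) (3 * w) with h4 | h4
      · right; right; left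
        rw [abs_of_nonneg (by linarith), abs_of_nonneg (by linarith), max_eq_left (by linarith)]
        exact ⟨h3, h4, by ring, by ring⟩
      · right; right; right
        rw [abs_of_nonneg (by linarith), abs_of_nonneg (by linarith), max_eq_right (by linarith)]
        exact ⟨h4, by ring, rfl⟩

lemma c_abs {w X : ℝ} (h0 : 0 ≤ X) (h1 : X ≤ w) : |c1 w X| + |c2 w X| = w := by
  rcases c_cases h0 h1 with ⟨a, b, c⟩ | ⟨a, a', b, c⟩ | ⟨a, a', b, c⟩ | ⟨a, b, c⟩ <;> rw [b, c]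
  · rw [abs_of_nonneg (by linarith), abs_of_nonneg (by linarith)]; ring
  · rw [abs_of_nonpos (by linarith), abs_of_nonneg (by linarith)]; ring
  · rw [abs_of_nonpos (by linarith), abs_of_nonpos (by linarith)]; ring
  · rw [abs_of_nonneg (by linarith), abs_of_nonpos (by linarith)]; ring

lemma c_inj {w X X' : ℝ} (h0 : 0 ≤ X) (h1 : X ≤ w) (h0' : 0 ≤ X') (h1' : X' ≤ w) (e1 : c1 w X = c1 w X')
    (e2 : c2 w X = c2 w X') : X = X' ∨ (X = w ∧ X' = 0) ∨ (X = 0 ∧ X' = w) := by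
  rcases c_cases h0 h1 with ⟨a, b, c⟩ | ⟨a, a', b, c⟩ | ⟨a, a', b, c⟩ | ⟨a, b, c⟩ <;>
    rcases c_cases h0' h1' with ⟨d, e, f⟩ | ⟨d, d', e, f⟩ | ⟨d, d', e, f⟩ | ⟨d, e, f⟩ <;>
    rw [b, e] at e1 <;> rw [c, f] at e2 <;>
    first
    | (left; linarith)
    | (right; left; constructor <;> linarith)
    | (right; right; constructor <;> linarith)

lemma c_zero {w : ℝ} (h : 0 ≤ w) : c1 w 0 = w ∧ c2 w 0 = 0 := by
  unfold c1 c2
  rw [abs_of_nonpos (by linarith), abs_of_nonpos (by linarith), max_eq_left (by linarith)]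
  constructor <;> ring

lemma c_full {w : ℝ} (h : 0 ≤ w) : c1 w w = w ∧ c2 w w = 0 := by
  unfold c1 c2
  rw [abs_of_nonneg (by linarith), abs_of_nonneg (by linarith), max_eq_right (by linarith)]
  constructor <;> ring

lemma c_surj (a b : ℝ) : ∃ X, 0 ≤ X ∧ X ≤ |a| + |b| ∧ c1 (|a| + |b|) X = a ∧ c2 (|a| + |b|) X = b := by
  unfold c1 c2
  rcases le_total 0 a with ha | ha <;> rcases le_total 0 b with hb | hb
  · rw [abs_of_nonneg ha, abs_of_nonneg hb]
    refine ⟨b / 4, by linarith, by linarith, ?_, ?_⟩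
    · rw [abs_of_nonpos (by linarith)]; ring
    · rw [abs_of_nonpos (by linarith), max_eq_left (by linarith)]; ring
  · rw [abs_of_nonneg ha, abs_of_nonpos hb]
    refine ⟨(4 * (a + -b) + b) / 4, by linarith, by linarith, ?_, ?_⟩
    · rw [abs_of_nonneg (by linarith)]; ring
    · rw [abs_of_nonneg (by linarith), max_eq_right (by linarith)]; ring
  · rw [abs_of_nonpos ha, abs_of_nonneg hb]
    refine ⟨(2 * (-a + b) - b) / 4, by linarith, by linarith, ?_, ?_⟩
    · rw [abs_of_nonpos (by linarith)]; ring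
    · rw [abs_of_nonneg (by linarith), max_eq_left (by linarith)]; ring
  · rw [abs_of_nonpos ha, abs_of_nonpos hb]
    refine ⟨(2 * (-a + -b) - b) / 4, by linarith, by linarith, ?_, ?_⟩
    · rw [abs_of_nonneg (by linarith)]; ring
    · rw [abs_of_nonneg (by linarith), max_eq_left (by linarith)]; ring

variable {r : ℕ}

/-- the fibre coordinates -/
noncomputable def fib (w X : Fin r → ℝ) (i : Fin (r * 2)) : ℝ :=
  if (finProdFinEquiv.symm i).2 = 0 then c1 (w (finProdFinEquiv.symm i).1) (X (finProdFinEquiv.symm i).1)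
  else c2 (w (finProdFinEquiv.symm i).1) (X (finProdFinEquiv.symm i).1)

lemma fib_0 (w X : Fin r → ℝ) (k : Fin r) : fib w X (finProdFinEquiv (k, 0)) = c1 (w k) (X k) := by
  unfold fib; simp

lemma fib_1 (w X : Fin r → ℝ) (k : Fin r) : fib w X (finProdFinEquiv (k, 1)) = c2 (w k) (X k) := by
  unfold fib; simp

/-- the boundary of the cross-polytope -/
def cross (m : ℕ) : Set (Fin m → ℝ) := {v | ∑ i, |v i| = 1}

lemma sum_pairs (f : Fin (r * 2) → ℝ) : ∑ i, f i = ∑ k : Fin r, (f (finProdFinEquiv (k, 0)) + f (finProdFinEquiv (k, 1))) := by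
  rw [← finProdFinEquiv.sum_comp, Fintype.sum_prod_type]
  refine sum_congr rfl fun k _ => ?_
  rw [Fin.sum_univ_two]

lemma fib_mem {w X : Fin r → ℝ} (hw1 : ∑ k, w k = 1) (h0 : ∀ k, 0 ≤ X k) (h1 : ∀ k, X k ≤ w k) :
    fib w X ∈ cross (r * 2) := by
  show ∑ i, |fib w X i| = 1
  rw [sum_pairs (fun i => |fib w X i|), ← hw1]
  refine sum_congr rfl fun k _ => ?_
  rw [fib_0, fib_1]
  exact c_abs (h0 k) (h1 k)

lemma fib_ext {v v' : Fin (r * 2) → ℝ} (h0 : ∀ k, v (finProdFinEquiv (k, 0)) = v' (finProdFinEquiv (k, 0)))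
    (h1 : ∀ k, v (finProdFinEquiv (k, 1)) = v' (finProdFinEquiv (k, 1))) : v = v' := by
  funext i
  obtain ⟨⟨k, j⟩, rfl⟩ := finProdFinEquiv.surjective i
  fin_cases j
  · exact h0 k
  · exact h1 k

end Pool.Agent.H95.TB
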