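import Mathlib

/-!
# The function `φ w y = w exp (2 π i y / w)`
-/

namespace Pool.Agent.H95.TB

open Complex

/-- `w exp (2 π i y / w)` -/
noncomputable def φ (w y : ℝ) : ℂ := (w : ℂ) * Complex.exp (2 * Real.pi * I * ((y / w : ℝ) : ℂ))

lemma norm_e (t : ℝ) : ‖Complex.exp (2 * Real.pi * I * (t : ℂ))‖ = 1 := by
  have : (2 * Real.pi * I * (t : ℂ)) = ((2 * Real.pi * t : ℝ) : ℂ) * I := by push_cast; ring
  rw [this, Complex.norm_exp_ofReal_mul_I]

lemma norm_φ (w y : ℝ) : ‖φ w y‖ = |w| := by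
  unfold φ
  rw [norm_mul, norm_e, mul_one, Complex.norm_real, Real.norm_eq_abs]

lemma φ_zero (y : ℝ) : φ 0 y = 0 := by unfold φ; simp

lemma e_int (n : ℤ) : Complex.exp (2 * Real.pi * I * ((n : ℝ) : ℂ)) = 1 := by
  rw [Complex.exp_eq_one_iff]
  exact ⟨n, by push_cast; ring⟩

lemma φ_add_mul (w y p : ℝ) : φ w (y + p * w) = Complex.exp (2 * Real.pi * I * (p : ℂ)) * φ w y := by
  by_cases hw : w = 0
  · subst hw; rw [φ_zero, φ_zero, mul_zero]
  · unfold φ
    have : (y + p * w) / w = y / w + p := by field_simp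
    rw [this]
    push_cast
    rw [mul_add, Complex.exp_add]
    ring

lemma φ_add_int (w y : ℝ) (n : ℤ) : φ w (y + n * w) = φ w y := by
  rw [φ_add_mul, e_int, one_mul]

lemma e_eq_iff (s t : ℝ) : Complex.exp (2 * Real.pi * I * (s : ℂ)) = Complex.exp (2 * Real.pi * I * (t : ℂ)) ↔
    ∃ n : ℤ, s = t + n := by
  rw [Complex.exp_eq_exp_iff_exists_int]
  have hpi : (2 * Real.pi * I : ℂ) ≠ 0 := by
    simp [Real.pi_ne_zero]
  constructor
  · rintro ⟨n, hn⟩
    refine ⟨n, ?_⟩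
    have h : (2 * Real.pi * I : ℂ) * (s : ℂ) = (2 * Real.pi * I) * ((t + n : ℝ) : ℂ) := by
      rw [hn]; push_cast; ring
    exact_mod_cast mul_left_cancel₀ hpi h
  · rintro ⟨n, hn⟩
    refine ⟨n, ?_⟩
    rw [hn]; push_cast; ring

lemma φ_inj {w y y' : ℝ} (hw : 0 < w) (h : φ w y = φ w y') : ∃ n : ℤ, y = y' + n * w := by
  unfold φ at h
  have hw' : (w : ℂ) ≠ 0 := by exact_mod_cast hw.ne'
  obtain ⟨n, hn⟩ := (e_eq_iff _ _).1 (mul_left_cancel₀ hw' h)
  refine ⟨n, ?_⟩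
  field_simp at hn
  linarith

lemma continuous_φ : Continuous (fun p : ℝ × ℝ => φ p.1 p.2) := by
  rw [continuous_iff_continuousAt]
  rintro ⟨w, y⟩
  by_cases hw : w = 0
  · subst hw
    have h : Filter.Tendsto (fun p : ℝ × ℝ => φ p.1 p.2) (nhds (0, y)) (nhds 0) := by
      rw [tendsto_zero_iff_norm_tendsto_zero]
      have h2 : Filter.Tendsto (fun p : ℝ × ℝ => |p.1|) (nhds (0, y)) (nhds |((0:ℝ), y).1|) :=
        (continuous_abs.comp continuous_fst).tendsto _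
      simp only [norm_φ]
      simpa using h2
    unfold ContinuousAt
    simp only [φ_zero]
    exact h
  · unfold φ
    have : ContinuousAt (fun p : ℝ × ℝ => p.2 / p.1) (w, y) :=
      continuousAt_snd.div continuousAt_fst hw
    have h1 : ContinuousAt (fun p : ℝ × ℝ => ((p.2 / p.1 : ℝ) : ℂ)) (w, y) :=
      Complex.continuous_ofReal.continuousAt.comp this
    have h2 : ContinuousAt (fun p : ℝ × ℝ => (p.1 : ℂ)) (w, y) :=
      Complex.continuous_ofReal.continuousAt.comp continuousAt_fst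
    exact h2.mul (Complex.continuous_exp.continuousAt.comp (h1.const_mul _))

/-- polar form -/
lemma exists_polar (z : ℂ) : ∃ t : ℝ, 0 ≤ t ∧ t < 1 ∧ z = φ ‖z‖ (t * ‖z‖) := by
  refine ⟨Int.fract (Complex.arg z / (2 * Real.pi)), Int.fract_nonneg _, Int.fract_lt_one _, ?_⟩
  have h0 := φ_add_mul ‖z‖ 0 (Int.fract (Complex.arg z / (2 * Real.pi)))
  rw [zero_add] at h0
  have h1 : φ ‖z‖ 0 = ‖z‖ := by unfold φ; simp
  have h2 : Complex.exp (2 * Real.pi * I * ((Int.fract (Complex.arg z / (2 * Real.pi)) : ℝ) : ℂ)) =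
      Complex.exp (2 * Real.pi * I * ((Complex.arg z / (2 * Real.pi) : ℝ) : ℂ)) := by
    rw [e_eq_iff]
    exact ⟨-⌊Complex.arg z / (2 * Real.pi)⌋, by rw [Int.fract]; push_cast; ring⟩
  rw [h0, h1, h2]
  have h3 : (2 * Real.pi * I * ((Complex.arg z / (2 * Real.pi) : ℝ) : ℂ)) = (Complex.arg z : ℂ) * I := by
    have : (Real.pi : ℂ) ≠ 0 := by exact_mod_cast Real.pi_ne_zero
    push_cast
    field_simp
  rw [h3, mul_comm]
  exact (Complex.norm_mul_exp_arg_mul_I z).symm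

end Pool.Agent.H95.TB
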