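import Pool.Agent.H95.TB.Hopf

/-!
# `(S³ × S⁷) / S¹` is `S² × S⁷`

`(u, v) ↦ ([u], u⁻¹ v)` with quaternions.
-/

open Complex

namespace Pool.Agent.H95.TB

/-- coordinates of the Hopf map -/
noncomputable def hp (a b : ℂ) : Fin 3 → ℝ :=
  ![2 * (a.re * b.re + a.im * b.im), 2 * (a.im * b.re - a.re * b.im), normSq a - normSq b]

/-- first complex coordinate of `u⁻¹ v` -/
noncomputable def qa (a b c d : ℂ) : ℂ := (starRingEnd ℂ) a * c + b * (starRingEnd ℂ) d

/-- second complex coordinate of `u⁻¹ v` -/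
noncomputable def qb (a b c d : ℂ) : ℂ := (starRingEnd ℂ) a * d - b * (starRingEnd ℂ) c

lemma q_norm (a b c d : ℂ) : normSq (qa a b c d) + normSq (qb a b c d) =
    (normSq a + normSq b) * (normSq c + normSq d) := by
  unfold qa qb
  simp only [normSq_apply, add_re, add_im, sub_re, sub_im, mul_re, mul_im, conj_re, conj_im]
  ring

lemma hp_sq (a b : ℂ) : hp a b 0 ^ 2 + hp a b 1 ^ 2 + hp a b 2 ^ 2 = (normSq a + normSq b) ^ 2 := by
  unfold hp
  simp only [Matrix.cons_val_zero, Matrix.cons_val_one, Matrix.cons_val, normSq_apply]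
  ring

/-- inverse of `v ↦ u⁻¹ v` -/
lemma q_inv1 {a b : ℂ} (h : normSq a + normSq b = 1) (c d : ℂ) :
    a * qa a b c d - b * (starRingEnd ℂ) (qb a b c d) = c := by
  have h' : (starRingEnd ℂ) a * a + (starRingEnd ℂ) b * b = 1 := by
    rw [mul_comm, mul_conj, mul_comm, mul_conj, ← ofReal_add, h, ofReal_one]
  unfold qa qb
  simp only [map_sub, map_mul, conj_conj]
  linear_combination c * h'

lemma q_inv2 {a b : ℂ} (h : normSq a + normSq b = 1) (c d : ℂ) :
    a * qb a b c d + b * (starRingEnd ℂ) (qa a b c d) = d := by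
  have h' : (starRingEnd ℂ) a * a + (starRingEnd ℂ) b * b = 1 := by
    rw [mul_comm, mul_conj, mul_comm, mul_conj, ← ofReal_add, h, ofReal_one]
  unfold qa qb
  simp only [map_add, map_mul, conj_conj]
  linear_combination d * h'

/-- and the other composition -/
lemma q_inv3 {a b : ℂ} (h : normSq a + normSq b = 1) (p q : ℂ) :
    qa a b (a * p - b * (starRingEnd ℂ) q) (a * q + b * (starRingEnd ℂ) p) = p := by
  have h' : (starRingEnd ℂ) a * a + (starRingEnd ℂ) b * b = 1 := by
    rw [mul_comm, mul_conj, mul_comm, mul_conj, ← ofReal_add, h, ofReal_one]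
  unfold qa
  simp only [map_add, map_mul, conj_conj]
  linear_combination p * h'

lemma q_inv4 {a b : ℂ} (h : normSq a + normSq b = 1) (p q : ℂ) :
    qb a b (a * p - b * (starRingEnd ℂ) q) (a * q + b * (starRingEnd ℂ) p) = q := by
  have h' : (starRingEnd ℂ) a * a + (starRingEnd ℂ) b * b = 1 := by
    rw [mul_comm, mul_conj, mul_comm, mul_conj, ← ofReal_add, h, ofReal_one]
  unfold qb
  simp only [map_sub, map_mul, conj_conj]
  linear_combination q * h'

lemma qa_rot {z : ℂ} (hz : ‖z‖ = 1) (a b c d : ℂ) : qa (z * a) (z * b) (z * c) (z * d) = qa a b c d := by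
  have := conj_mul_of_norm hz
  unfold qa
  simp only [map_mul]
  linear_combination ((starRingEnd ℂ) a * c + b * (starRingEnd ℂ) d) * this

lemma qb_rot {z : ℂ} (hz : ‖z‖ = 1) (a b c d : ℂ) : qb (z * a) (z * b) (z * c) (z * d) = qb a b c d := by
  have := conj_mul_of_norm hz
  unfold qb
  simp only [map_mul]
  linear_combination ((starRingEnd ℂ) a * d - b * (starRingEnd ℂ) c) * this

lemma hp_rot {z : ℂ} (hz : ‖z‖ = 1) (a b : ℂ) : hp (z * a) (z * b) = hp a b := by
  have h1 : z.re * z.re + z.im * z.im = 1 := by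
    rw [← normSq_apply, normSq_eq_norm_sq, hz]; norm_num
  unfold hp
  funext j
  fin_cases j
  · show 2 * ((z * a).re * (z * b).re + (z * a).im * (z * b).im) = 2 * (a.re * b.re + a.im * b.im)
    simp only [mul_re, mul_im]
    linear_combination (2 * (a.re * b.re + a.im * b.im)) * h1
  · show 2 * ((z * a).im * (z * b).re - (z * a).re * (z * b).im) = 2 * (a.im * b.re - a.re * b.im)
    simp only [mul_re, mul_im]
    linear_combination (2 * (a.im * b.re - a.re * b.im)) * h1
  · show normSq (z * a) - normSq (z * b) = normSq a - normSq b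
    simp only [normSq_mul]
    rw [normSq_eq_norm_sq z, hz]; ring

/-- fibres of the Hopf map -/
lemma hp_inj {a b a' b' : ℂ} (h : normSq a + normSq b = 1) (h' : normSq a' + normSq b' = 1)
    (he : hp a b = hp a' b') : ∃ z : ℂ, ‖z‖ = 1 ∧ a' = z * a ∧ b' = z * b := by
  have e0 : 2 * (a.re * b.re + a.im * b.im) = 2 * (a'.re * b'.re + a'.im * b'.im) := congrFun he 0
  have e1 : 2 * (a.im * b.re - a.re * b.im) = 2 * (a'.im * b'.re - a'.re * b'.im) := congrFun he 1
  have e2 : normSq a - normSq b = normSq a' - normSq b' := congrFun he 2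
  have ea : normSq a = normSq a' := by linarith
  have eb : normSq b = normSq b' := by linarith
  have ec : a * (starRingEnd ℂ) b = a' * (starRingEnd ℂ) b' := by
    apply Complex.ext
    · simp only [mul_re, conj_re, conj_im]; linarith
    · simp only [mul_im, conj_re, conj_im]; linarith
  -- `z = a' conj a + b' conj b`
  refine ⟨a' * (starRingEnd ℂ) a + b' * (starRingEnd ℂ) b, ?_, ?_, ?_⟩
  · -- first compute with the identities
    have h1 : (a' * (starRingEnd ℂ) a + b' * (starRingEnd ℂ) b) * a = a' := by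
      have h2 : b' * ((starRingEnd ℂ) b * a) = a' * (b' * (starRingEnd ℂ) b') := by
        rw [mul_comm ((starRingEnd ℂ) b) a, ec]; ring
      have h3 : (starRingEnd ℂ) a * a = (normSq a : ℂ) := by rw [mul_comm, mul_conj]
      calc (a' * (starRingEnd ℂ) a + b' * (starRingEnd ℂ) b) * a =
          a' * ((starRingEnd ℂ) a * a) + b' * ((starRingEnd ℂ) b * a) := by ring
        _ = a' * ((normSq a : ℂ) + (normSq b' : ℂ)) := by rw [h2, h3, mul_conj]; ring
        _ = a' := by rw [ea, ← ofReal_add, h', ofReal_one, mul_one]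
    have h1' : (a' * (starRingEnd ℂ) a + b' * (starRingEnd ℂ) b) * b = b' := by
      have ec' : (starRingEnd ℂ) a * b = (starRingEnd ℂ) a' * b' := by
        have := congrArg (starRingEnd ℂ) ec
        simpa using this
      calc (a' * (starRingEnd ℂ) a + b' * (starRingEnd ℂ) b) * b =
          a' * ((starRingEnd ℂ) a * b) + b' * (b * (starRingEnd ℂ) b) := by ring
        _ = b' * ((normSq a' : ℂ) + (normSq b : ℂ)) := by rw [ec', mul_conj, ← mul_conj a']; ring
        _ = b' := by rw [eb, ← ofReal_add, h', ofReal_one, mul_one]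
    have h4 : normSq (a' * (starRingEnd ℂ) a + b' * (starRingEnd ℂ) b) * (normSq a + normSq b) =
        normSq a' + normSq b' := by
      rw [mul_add, ← normSq_mul, ← normSq_mul, h1, h1']
    rw [h, h', mul_one, normSq_eq_norm_sq] at h4
    exact (pow_eq_one_iff_of_nonneg (norm_nonneg _) (by norm_num)).1 h4
  · have h2 : b' * ((starRingEnd ℂ) b * a) = a' * (b' * (starRingEnd ℂ) b') := by
      rw [mul_comm ((starRingEnd ℂ) b) a, ec]; ring
    have h3 : (starRingEnd ℂ) a * a = (normSq a : ℂ) := by rw [mul_comm, mul_conj]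
    symm
    calc (a' * (starRingEnd ℂ) a + b' * (starRingEnd ℂ) b) * a =
        a' * ((starRingEnd ℂ) a * a) + b' * ((starRingEnd ℂ) b * a) := by ring
      _ = a' * ((normSq a : ℂ) + (normSq b' : ℂ)) := by rw [h2, h3, mul_conj]; ring
      _ = a' := by rw [ea, ← ofReal_add, h', ofReal_one, mul_one]
  · have ec' : (starRingEnd ℂ) a * b = (starRingEnd ℂ) a' * b' := by
      have := congrArg (starRingEnd ℂ) ec
      simpa using this
    symm
    calc (a' * (starRingEnd ℂ) a + b' * (starRingEnd ℂ) b) * b =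
        a' * ((starRingEnd ℂ) a * b) + b' * (b * (starRingEnd ℂ) b) := by ring
      _ = b' * ((normSq a' : ℂ) + (normSq b : ℂ)) := by rw [ec', mul_conj, ← mul_conj a']; ring
      _ = b' := by rw [eb, ← ofReal_add, h', ofReal_one, mul_one]

lemma exists_hp (x : Fin 3 → ℝ) (hx : x 0 ^ 2 + x 1 ^ 2 + x 2 ^ 2 = 1) :
    ∃ a b : ℂ, normSq a + normSq b = 1 ∧ hp a b = x := by
  have h2 : x 2 ^ 2 ≤ 1 := by nlinarith [sq_nonneg (x 0), sq_nonneg (x 1)]
  have h2' : -1 ≤ x 2 ∧ x 2 ≤ 1 := abs_le.1 (by rw [← sq_le_one_iff_abs_le_one]; exact h2)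
  rcases h2'.1.eq_or_lt with h3 | h3
  · refine ⟨0, 1, by simp, ?_⟩
    have h0 : x 0 = 0 := by nlinarith [sq_nonneg (x 0), sq_nonneg (x 1)]
    have h1 : x 1 = 0 := by nlinarith [sq_nonneg (x 0), sq_nonneg (x 1)]
    funext j
    fin_cases j
    · show 2 * ((0 : ℂ).re * (1 : ℂ).re + (0 : ℂ).im * (1 : ℂ).im) = x 0
      simp [h0]
    · show 2 * ((0 : ℂ).im * (1 : ℂ).re - (0 : ℂ).re * (1 : ℂ).im) = x 1
      simp [h1]
    · show normSq (0 : ℂ) - normSq (1 : ℂ) = x 2
      simp [← h3]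
  · set s : ℝ := Real.sqrt ((1 + x 2) / 2) with hs
    have hs0 : 0 < s := Real.sqrt_pos.2 (by linarith)
    have hs2 : s ^ 2 = (1 + x 2) / 2 := Real.sq_sqrt (by linarith)
    -- `a = s`, `b = (x 0 - i x 1) / (2 s)`
    have hsn : s ≠ 0 := hs0.ne'
    have e1 : normSq (s : ℂ) = (1 + x 2) / 2 := by rw [normSq_ofReal, ← hs2]; ring
    have e2 : normSq (⟨x 0 / (2 * s), -x 1 / (2 * s)⟩ : ℂ) = (1 - x 2) / 2 := by
      have h4 : x 0 ^ 2 + x 1 ^ 2 = (1 - x 2) * (1 + x 2) := by nlinarith
      have h5 : x 0 / (2 * s) * (x 0 / (2 * s)) + -x 1 / (2 * s) * (-x 1 / (2 * s)) = (x 0 ^ 2 + x 1 ^ 2) / (4 * s ^ 2) := by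
        field_simp
        ring
      rw [normSq_apply]
      show x 0 / (2 * s) * (x 0 / (2 * s)) + -x 1 / (2 * s) * (-x 1 / (2 * s)) = (1 - x 2) / 2
      rw [h5, h4, hs2]
      have : 1 + x 2 ≠ 0 := by linarith
      field_simp
      ring
    refine ⟨s, ⟨x 0 / (2 * s), -x 1 / (2 * s)⟩, by rw [e1, e2]; ring, ?_⟩
    funext j
    fin_cases j
    · show 2 * (s * (x 0 / (2 * s)) + 0 * (-x 1 / (2 * s))) = x 0
      field_simp
      ring
    · show 2 * (0 * (x 0 / (2 * s)) - s * (-x 1 / (2 * s))) = x 1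
      field_simp
      ring
    · show normSq (s : ℂ) - normSq (⟨x 0 / (2 * s), -x 1 / (2 * s)⟩ : ℂ) = x 2
      rw [e1, e2]; ring

end Pool.Agent.H95.TB
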