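import Pool.Agent.H95.TB.Quat

/-!
# The homeomorphism of `(S³ × S⁷) / S¹` with `S² × S⁷`
-/

open Complex Module

namespace Pool.Agent.H95.TB

instance (m : ℕ) : CompactSpace (HopfSphere m) :=
  inferInstanceAs (CompactSpace (Quot (HopfRel m)))

lemma mem_sphere_iff {𝕜 : Type*} [RCLike 𝕜] {m : ℕ} (x : EuclideanSpace 𝕜 (Fin m)) :
    x ∈ Metric.sphere (0 : EuclideanSpace 𝕜 (Fin m)) 1 ↔ ∑ i, ‖x i‖ ^ 2 = 1 := by
  rw [mem_sphere_zero_iff_norm, EuclideanSpace.norm_eq, Real.sqrt_eq_one]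

lemma SC2_norm (u : SC 2) : normSq (u.1 0) + normSq (u.1 1) = 1 := by
  have h := (mem_sphere_iff u.1).1 u.2
  rw [Fin.sum_univ_two] at h
  rw [normSq_eq_norm_sq, normSq_eq_norm_sq]
  exact h

lemma SC4_norm (v : SC 4) : normSq (v.1 0) + normSq (v.1 1) + (normSq (v.1 2) + normSq (v.1 3)) = 1 := by
  have h := (mem_sphere_iff v.1).1 v.2
  rw [Fin.sum_univ_four] at h
  rw [normSq_eq_norm_sq, normSq_eq_norm_sq, normSq_eq_norm_sq, normSq_eq_norm_sq, ← h]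
  ring

/-- the unit sphere of `ℝ^m` -/
abbrev SR (m : ℕ) := Metric.sphere (0 : EuclideanSpace ℝ (Fin m)) 1

/-- the Hopf map -/
noncomputable def hopf (u : SC 2) : SR 3 :=
  ⟨WithLp.toLp 2 (hp (u.1 0) (u.1 1)), by
    rw [mem_sphere_iff, Fin.sum_univ_three]
    have h := hp_sq (u.1 0) (u.1 1)
    rw [SC2_norm u] at h
    simp only [Real.norm_eq_abs, sq_abs]
    rw [h]; norm_num⟩

lemma hopf_continuous : Continuous hopf := by
  refine Continuous.subtype_mk ?_ _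
  refine (PiLp.continuous_toLp 2 (fun _ : Fin 3 => ℝ)).comp ?_
  have c : ∀ j, Continuous fun p : SC 2 => p.1 j := fun j => by fun_prop
  have c0 := c 0
  have c1 := c 1
  have n : Continuous normSq := continuous_normSq
  refine continuous_pi fun j => ?_
  fin_cases j
  · exact continuous_const.mul (((continuous_re.comp c0).mul (continuous_re.comp c1)).add
      ((continuous_im.comp c0).mul (continuous_im.comp c1)))
  · exact continuous_const.mul (((continuous_im.comp c0).mul (continuous_re.comp c1)).sub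
      ((continuous_re.comp c0).mul (continuous_im.comp c1)))
  · exact (n.comp c0).sub (n.comp c1)

/-- `u⁻¹ v` -/
noncomputable def quo (p : SC 2 × SC 4) : SC 4 :=
  ⟨WithLp.toLp 2 ![qa (p.1.1 0) (p.1.1 1) (p.2.1 0) (p.2.1 1), qb (p.1.1 0) (p.1.1 1) (p.2.1 0) (p.2.1 1),
    qa (p.1.1 0) (p.1.1 1) (p.2.1 2) (p.2.1 3), qb (p.1.1 0) (p.1.1 1) (p.2.1 2) (p.2.1 3)], by
    rw [mem_sphere_iff, Fin.sum_univ_four]
    have h1 := q_norm (p.1.1 0) (p.1.1 1) (p.2.1 0) (p.2.1 1)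
    have h2 := q_norm (p.1.1 0) (p.1.1 1) (p.2.1 2) (p.2.1 3)
    have h3 := SC4_norm p.2
    rw [SC2_norm, one_mul, normSq_eq_norm_sq, normSq_eq_norm_sq] at h1 h2
    show ‖qa (p.1.1 0) (p.1.1 1) (p.2.1 0) (p.2.1 1)‖ ^ 2 + ‖qb (p.1.1 0) (p.1.1 1) (p.2.1 0) (p.2.1 1)‖ ^ 2 +
      ‖qa (p.1.1 0) (p.1.1 1) (p.2.1 2) (p.2.1 3)‖ ^ 2 + ‖qb (p.1.1 0) (p.1.1 1) (p.2.1 2) (p.2.1 3)‖ ^ 2 = 1
    linarith⟩

lemma quo_continuous : Continuous quo := by
  refine Continuous.subtype_mk ?_ _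
  refine (PiLp.continuous_toLp 2 (fun _ : Fin 4 => ℂ)).comp ?_
  have c1 : ∀ j, Continuous fun p : SC 2 × SC 4 => p.1.1 j := fun j => by fun_prop
  have c2 : ∀ k, Continuous fun p : SC 2 × SC 4 => p.2.1 k := fun k => by fun_prop
  have cj : Continuous (starRingEnd ℂ) := continuous_conj
  have ca : ∀ j k, Continuous fun p : SC 2 × SC 4 => qa (p.1.1 0) (p.1.1 1) (p.2.1 j) (p.2.1 k) := fun j k =>
    ((cj.comp (c1 0)).mul (c2 j)).add ((c1 1).mul (cj.comp (c2 k)))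
  have cb : ∀ j k, Continuous fun p : SC 2 × SC 4 => qb (p.1.1 0) (p.1.1 1) (p.2.1 j) (p.2.1 k) := fun j k =>
    ((cj.comp (c1 0)).mul (c2 k)).sub ((c1 1).mul (cj.comp (c2 j)))
  refine continuous_pi fun j => ?_
  fin_cases j
  · exact ca 0 1
  · exact cb 0 1
  · exact ca 2 3
  · exact cb 2 3

/-- the map `(u, v) ↦ ([u], u⁻¹ v)` -/
noncomputable def hq (p : SC 2 × SC 4) : SR 3 × SC 4 := (hopf p.1, quo p)

lemma hq_rel (p q : SC 2 × SC 4) (h : HopfRel 4 p q) : hq p = hq q := by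
  obtain ⟨z, hz, h1, h2⟩ := h
  have e1 : ∀ j, q.1.1 j = z * p.1.1 j := fun j => by rw [h1]; rfl
  have e2 : ∀ j, q.2.1 j = z * p.2.1 j := fun j => by rw [h2]; rfl
  refine Prod.ext ?_ ?_
  · apply Subtype.ext
    show WithLp.toLp 2 (hp (p.1.1 0) (p.1.1 1)) = WithLp.toLp 2 (hp (q.1.1 0) (q.1.1 1))
    rw [e1, e1, hp_rot hz]
  · apply Subtype.ext
    show WithLp.toLp 2 _ = WithLp.toLp 2 _
    simp only [e1, e2, qa_rot hz, qb_rot hz]

lemma rel_of_hq {p q : SC 2 × SC 4} (h : hq p = hq q) : HopfRel 4 p q := by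
  have h1 : hopf p.1 = hopf q.1 := congrArg Prod.fst h
  have h2 : quo p = quo q := congrArg Prod.snd h
  have h3 : hp (p.1.1 0) (p.1.1 1) = hp (q.1.1 0) (q.1.1 1) := by
    have := congrArg Subtype.val h1
    exact congrArg (fun x : EuclideanSpace ℝ (Fin 3) => (x : Fin 3 → ℝ)) this
  obtain ⟨z, hz, e1, e2⟩ := hp_inj (SC2_norm p.1) (SC2_norm q.1) h3
  have h4 : ∀ j, (quo p).1 j = (quo q).1 j := fun j => by rw [h2]
  have k0 : qa (p.1.1 0) (p.1.1 1) (p.2.1 0) (p.2.1 1) = qa (q.1.1 0) (q.1.1 1) (q.2.1 0) (q.2.1 1) := h4 0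
  have k1 : qb (p.1.1 0) (p.1.1 1) (p.2.1 0) (p.2.1 1) = qb (q.1.1 0) (q.1.1 1) (q.2.1 0) (q.2.1 1) := h4 1
  have k2 : qa (p.1.1 0) (p.1.1 1) (p.2.1 2) (p.2.1 3) = qa (q.1.1 0) (q.1.1 1) (q.2.1 2) (q.2.1 3) := h4 2
  have k3 : qb (p.1.1 0) (p.1.1 1) (p.2.1 2) (p.2.1 3) = qb (q.1.1 0) (q.1.1 1) (q.2.1 2) (q.2.1 3) := h4 3
  have n1 := SC2_norm p.1
  have n2 := SC2_norm q.1
  refine ⟨z, hz, ?_, ?_⟩
  · ext j
    fin_cases j
    · exact e1
    · exact e2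
  · ext j
    fin_cases j
    · show q.2.1 0 = z * p.2.1 0
      rw [← q_inv1 n2 (q.2.1 0) (q.2.1 1), ← k0, ← k1]
      conv_rhs => rw [← q_inv1 n1 (p.2.1 0) (p.2.1 1)]
      rw [e1, e2]; ring
    · show q.2.1 1 = z * p.2.1 1
      rw [← q_inv2 n2 (q.2.1 0) (q.2.1 1), ← k0, ← k1]
      conv_rhs => rw [← q_inv2 n1 (p.2.1 0) (p.2.1 1)]
      rw [e1, e2]; ring
    · show q.2.1 2 = z * p.2.1 2
      rw [← q_inv1 n2 (q.2.1 2) (q.2.1 3), ← k2, ← k3]
      conv_rhs => rw [← q_inv1 n1 (p.2.1 2) (p.2.1 3)]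
      rw [e1, e2]; ring
    · show q.2.1 3 = z * p.2.1 3
      rw [← q_inv2 n2 (q.2.1 2) (q.2.1 3), ← k2, ← k3]
      conv_rhs => rw [← q_inv2 n1 (p.2.1 2) (p.2.1 3)]
      rw [e1, e2]; ring

lemma hq_surj (x : SR 3) (y : SC 4) : ∃ p, hq p = (x, y) := by
  have hx := (mem_sphere_iff x.1).1 x.2
  rw [Fin.sum_univ_three] at hx
  simp only [Real.norm_eq_abs, sq_abs] at hx
  obtain ⟨a, b, h1, h2⟩ := exists_hp (fun j => x.1 j) hx
  have hu : (WithLp.toLp 2 ![a, b] : EuclideanSpace ℂ (Fin 2)) ∈ Metric.sphere (0 : EuclideanSpace ℂ (Fin 2)) 1 := by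
    rw [mem_sphere_iff, Fin.sum_univ_two, ← normSq_eq_norm_sq, ← normSq_eq_norm_sq]
    exact h1
  have key : ∀ p q : ℂ, normSq (a * p - b * (starRingEnd ℂ) q) + normSq (a * q + b * (starRingEnd ℂ) p) =
      normSq p + normSq q := by
    intro p q
    have := q_norm a b (a * p - b * (starRingEnd ℂ) q) (a * q + b * (starRingEnd ℂ) p)
    rw [q_inv3 h1, q_inv4 h1, h1, one_mul] at this
    exact this.symm
  have hv : (WithLp.toLp 2 ![a * y.1 0 - b * (starRingEnd ℂ) (y.1 1), a * y.1 1 + b * (starRingEnd ℂ) (y.1 0),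
      a * y.1 2 - b * (starRingEnd ℂ) (y.1 3), a * y.1 3 + b * (starRingEnd ℂ) (y.1 2)] : EuclideanSpace ℂ (Fin 4)) ∈
      Metric.sphere (0 : EuclideanSpace ℂ (Fin 4)) 1 := by
    rw [mem_sphere_iff, Fin.sum_univ_four, ← normSq_eq_norm_sq, ← normSq_eq_norm_sq, ← normSq_eq_norm_sq,
      ← normSq_eq_norm_sq]
    have k1 := key (y.1 0) (y.1 1)
    have k2 := key (y.1 2) (y.1 3)
    have k3 := SC4_norm y
    show normSq (a * y.1 0 - b * (starRingEnd ℂ) (y.1 1)) + normSq (a * y.1 1 + b * (starRingEnd ℂ) (y.1 0)) +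
      normSq (a * y.1 2 - b * (starRingEnd ℂ) (y.1 3)) + normSq (a * y.1 3 + b * (starRingEnd ℂ) (y.1 2)) = 1
    linarith
  refine ⟨(⟨_, hu⟩, ⟨_, hv⟩), ?_⟩
  refine Prod.ext ?_ ?_
  · apply Subtype.ext
    ext j
    show hp a b j = x.1 j
    rw [h2]
  · apply Subtype.ext
    ext j
    fin_cases j
    · show qa a b (a * y.1 0 - b * (starRingEnd ℂ) (y.1 1)) (a * y.1 1 + b * (starRingEnd ℂ) (y.1 0)) = y.1 0
      exact q_inv3 h1 _ _
    · show qb a b (a * y.1 0 - b * (starRingEnd ℂ) (y.1 1)) (a * y.1 1 + b * (starRingEnd ℂ) (y.1 0)) = y.1 1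
      exact q_inv4 h1 _ _
    · show qa a b (a * y.1 2 - b * (starRingEnd ℂ) (y.1 3)) (a * y.1 3 + b * (starRingEnd ℂ) (y.1 2)) = y.1 2
      exact q_inv3 h1 _ _
    · show qb a b (a * y.1 2 - b * (starRingEnd ℂ) (y.1 3)) (a * y.1 3 + b * (starRingEnd ℂ) (y.1 2)) = y.1 3
      exact q_inv4 h1 _ _

/-- `(S³ × S⁷) / S¹` is homeomorphic to `S² × S⁷`, where `S⁷` is the unit sphere of `ℂ⁴` -/
noncomputable def hopf4 : HopfSphere 4 ≃ₜ SR 3 × SC 4 := by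
  let f : HopfSphere 4 → SR 3 × SC 4 := Quot.lift hq hq_rel
  have hc : Continuous f := continuous_quot_lift _ ((hopf_continuous.comp continuous_fst).prodMk quo_continuous)
  have hi : Function.Injective f := by
    intro x y hxy
    induction x using Quot.ind with
    | mk p =>
      induction y using Quot.ind with
      | mk q => exact Quot.sound (rel_of_hq hxy)
  have hs : Function.Surjective f := by
    rintro ⟨x, y⟩
    obtain ⟨p, hp⟩ := hq_surj x y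
    exact ⟨Quot.mk _ p, hp⟩
  exact Continuous.homeoOfEquivCompactToT2 (f := Equiv.ofBijective f ⟨hi, hs⟩) hc

/-- the unit sphere of `ℂ⁴` is the unit sphere of `ℝ⁸` -/
noncomputable def sphere8 : SC 4 ≃ₜ SR 8 := by
  have h : finrank ℝ (EuclideanSpace ℂ (Fin 4)) = 8 := by
    have h1 := Module.finrank_mul_finrank ℝ ℂ (EuclideanSpace ℂ (Fin 4))
    rw [Complex.finrank_real_complex, finrank_euclideanSpace, Fintype.card_fin] at h1
    exact h1.symm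
  let e : EuclideanSpace ℂ (Fin 4) ≃ₗᵢ[ℝ] EuclideanSpace ℝ (Fin 8) :=
    ((stdOrthonormalBasis ℝ (EuclideanSpace ℂ (Fin 4))).reindex (finCongr h)).repr
  exact e.toHomeomorph.subtype fun x => by
    rw [mem_sphere_zero_iff_norm, mem_sphere_zero_iff_norm]
    show ‖x‖ = 1 ↔ ‖e x‖ = 1
    rw [e.norm_map]

/-- `(S³ × S⁷) / S¹` is homeomorphic to the product of the unit spheres of `ℝ³` and `ℝ⁸` -/
noncomputable def hopf4' : HopfSphere 4 ≃ₜ SR 3 × SR 8 :=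
  hopf4.trans ((Homeomorph.refl _).prodCongr sphere8)

end Pool.Agent.H95.TB
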