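import Pool.Agent.H95.TB.Tab

/-!
# Soundness of the checks
-/

open Finset

namespace Pool.Agent.H95.TB

open Pool.Agent.H34.PLE

/-- letter with given place in the order -/
def ltr (b : Bool) (q : ℕ) : Fin 3 := od b ⟨q % 3, Nat.mod_lt _ (by norm_num)⟩

lemma ltr_val (b : Bool) (q : ℕ) : (ltr b q : ℕ) = ltN b (q % 3) := by
  unfold ltr
  have h : q % 3 = 0 ∨ q % 3 = 1 ∨ q % 3 = 2 := by omega
  rcases h with h | h | h <;> simp only [h] <;> cases b <;> rfl

lemma sg_eq (b : Bool) (X : Fin 3) : sg b X = ltN b X := by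
  cases b <;> fin_cases X <;> rfl

lemma ltN_lt (b : Bool) (q : ℕ) : ltN b (q % 3) < 3 := by
  rw [← ltr_val]; exact (ltr b q).2

lemma sg_ltr (b : Bool) (q : ℕ) : sg b (ltr b q) = q % 3 := by
  unfold ltr; rw [Mdl.sg_od]

lemma ltr_eq_of (b : Bool) (q : ℕ) (X : Fin 3) (h : q % 3 = sg b X) : ltr b q = X := by
  apply sg_inj b
  rw [sg_ltr, h]

lemma exists_base3 (m : ℕ) (f : ℕ → ℕ) (hf : ∀ k < m, f k < 3) : ∃ E < 3 ^ m, ∀ k < m, Tab.dE E k = f k := by
  induction m with
  | zero => exact ⟨0, by norm_num, fun a ha => absurd ha (Nat.not_lt_zero a)⟩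
  | succ m ih =>
    obtain ⟨E, hE, h⟩ := ih fun k hk => hf k (by omega)
    have hfm := hf m (Nat.lt_succ_self m)
    refine ⟨E + 3 ^ m * f m, ?_, ?_⟩
    · rw [pow_succ]
      have : 3 ^ m * f m ≤ 3 ^ m * 2 := Nat.mul_le_mul_left _ (by omega)
      omega
    · intro k hk
      unfold Tab.dE
      rcases Nat.lt_succ_iff_lt_or_eq.1 hk with h1 | rfl
      · obtain ⟨d, hd⟩ := Nat.exists_eq_add_of_lt h1
        have e1 : E + 3 ^ m * f m = E + 3 ^ k * (3 * (3 ^ d * f m)) := by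
          rw [hd]; ring
        rw [e1, Nat.add_mul_div_left _ _ (by positivity), Nat.add_mul_mod_self_left]
        exact h k h1
      · rw [Nat.add_mul_div_left _ _ (by positivity), Nat.div_eq_of_lt hE, zero_add]
        exact Nat.mod_eq_of_lt hfm

namespace Tab

variable {D : Tab}

/-- the complex -/
abbrev K (D : Tab) : Glue D.n := glueL D.n 24 D.rows

/-- number of a facet -/
def ix (i : (K D).ι) : ℕ := Fin.val (n := D.rows.length) i

/-- the model -/
def model (D : Tab) (hr : 0 < D.r) : Mdl D.n D.r (K D) where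
  tw k := D.tw.testBit k
  ε i := D.eps (ix i)
  kk i a := ⟨D.S (ix i) a / 6 % D.r, Nat.mod_lt _ hr⟩
  rn i a := decide (3 ≤ D.S (ix i) a % 6)
  ll i a := ltr (D.tw.testBit (D.S (ix i) a / 6) && !(D.eps (ix i))) (D.S (ix i) a)

lemma face_eq (i : (K D).ι) (a : Fin (D.n + 1)) : (K D).face i a = D.F (ix i) a := by
  show row D.n 24 (D.rows.get i) a = _
  unfold row F
  congr 1
  exact (List.getD_eq_getElem _ 0 (Fin.isLt (n := D.rows.length) i)).symm

section

variable (h : D.OK)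

include h

lemma ix_lt (i : (K D).ι) : ix i < D.N :=
  lt_of_lt_of_eq (Fin.isLt (n := D.rows.length) i) h.len

lemma slt {i a : ℕ} (hi : i < D.N) (ha : a < D.n + 1) : D.S i a < 6 * D.r ∧
    D.L i a = 3 * (D.S i a / 6) + ltN (D.tw.testBit (D.S i a / 6) && !(D.eps i)) (D.S i a % 3) ∧
    (a = D.n ∨ D.S i a < D.S i (a + 1)) ∧ ∀ b < D.n + 1, (D.L i a % 3 < D.L i b % 3 → D.L i a / 3 ≤ D.L i b / 3) ∧
      (D.S i a / 6 = D.S i b / 6 → D.S i a % 6 < 3 → 3 ≤ D.S i b % 6 → D.S i b % 3 ≤ D.S i a % 3) := by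
  have h1 := h.cF i hi
  simp only [chkF, fc_eq, List.all_eq_true, List.mem_range, decide_eq_true_eq, Bool.and_eq_true] at h1
  obtain ⟨⟨h2, h3, h4⟩, h5⟩ := h1 a ha
  exact ⟨h2, h3, h4, h5⟩

lemma kk_val (i : (K D).ι) (a : Fin (D.n + 1)) : ((model D h.hr).kk i a : ℕ) = D.S (ix i) a / 6 := by
  show D.S (ix i) a / 6 % D.r = _
  have := (slt h (ix_lt h i) a.2).1
  exact Nat.mod_eq_of_lt (by omega)

lemma L_eq (i : (K D).ι) (a : Fin (D.n + 1)) :
    D.L (ix i) a = 3 * ((model D h.hr).kk i a : ℕ) + ((model D h.hr).ll i a : ℕ) := by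
  rw [kk_val h, (slt h (ix_lt h i) a.2).2.1]
  congr 1
  exact (ltr_val _ _).symm

lemma L_div (i : (K D).ι) (a : Fin (D.n + 1)) : D.L (ix i) a / 3 = ((model D h.hr).kk i a : ℕ) := by
  have := ((model D h.hr).ll i a).2
  rw [L_eq h]; omega

lemma L_mod (i : (K D).ι) (a : Fin (D.n + 1)) : D.L (ix i) a % 3 = ((model D h.hr).ll i a : ℕ) := by
  have := ((model D h.hr).ll i a).2
  rw [L_eq h]; omega

lemma tw_kk (i : (K D).ι) (a : Fin (D.n + 1)) :
    (model D h.hr).tw ((model D h.hr).kk i a) = D.tw.testBit (D.S (ix i) a / 6) := by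
  show D.tw.testBit ((model D h.hr).kk i a : ℕ) = _
  rw [kk_val h]

lemma sg_ll (i : (K D).ι) (a : Fin (D.n + 1)) :
    sg ((model D h.hr).tw ((model D h.hr).kk i a) && !(model D h.hr).ε i) ((model D h.hr).ll i a) =
      D.S (ix i) a % 3 := by
  rw [tw_kk h]
  exact sg_ltr _ _

lemma cd_slot (i : (K D).ι) (a : Fin (D.n + 1)) :
    (model D h.hr).cd ((model D h.hr).ε i) ((model D h.hr).slot i a) = D.S (ix i) a := by
  unfold Mdl.cd Mdl.slot
  have h1 := sg_ll h i a
  have h2 := kk_val h i a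
  have h3 : ((model D h.hr).rn i a = true) ↔ 3 ≤ D.S (ix i) a % 6 := by
    show decide (3 ≤ D.S (ix i) a % 6) = true ↔ _
    rw [decide_eq_true_eq]
  simp only [h1, h2]
  by_cases h4 : 3 ≤ D.S (ix i) a % 6
  · rw [if_pos (h3.2 h4)]; omega
  · rw [if_neg (fun h5 => h4 (h3.1 h5))]; omega

lemma S_mono {i : ℕ} (hi : i < D.N) : ∀ b a, a < b → b < D.n + 1 → D.S i a < D.S i b := by
  intro b
  induction b with
  | zero => intro a ha; omega
  | succ b ih =>
    intro a ha hb
    have h1 := (slt h hi (a := b) (by omega)).2.2.1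
    have h2 : D.S i b < D.S i (b + 1) := by
      rcases h1 with h1 | h1
      · omega
      · exact h1
    rcases Nat.lt_succ_iff_lt_or_eq.1 ha with h3 | rfl
    · exact (ih a h3 (by omega)).trans h2
    · exact h2

lemma ind_rn (i : (K D).ι) (a : Fin (D.n + 1)) :
    Mdl.ind ((model D h.hr).rn i a) = ((D.S (ix i) a % 6 / 3 : ℕ) : ℤ) := by
  show Mdl.ind (decide (3 ≤ D.S (ix i) a % 6)) = _
  unfold Mdl.ind
  by_cases h1 : 3 ≤ D.S (ix i) a % 6
  · rw [if_pos (decide_eq_true h1)]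
    have : D.S (ix i) a % 6 / 3 = 1 := by omega
    rw [this]; rfl
  · rw [if_neg (by simpa using h1)]
    have : D.S (ix i) a % 6 / 3 = 0 := by omega
    rw [this]; rfl

lemma windows {i j : (K D).ι} {a b : Fin (D.n + 1)} {Z : ℕ}
    (hc : D.cmpW (D.slot.getD (ix i) 0) (D.lab.getD (ix i) 0) (D.slot.getD (ix j) 0) a b Z = true) (k : Fin D.r) :
    ∃ c : ℤ, ∀ s : Fin D.n, (model D h.hr).kk i (a.succAbove s) = k →
      Mdl.ind ((model D h.hr).rn j (b.succAbove s)) = Mdl.ind ((model D h.hr).rn i (a.succAbove s)) + c -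
        if Z = 0 ∧ (model D h.hr).tw k = true ∧ ((model D h.hr).ll i (a.succAbove s)) = 1 then 1 else 0 := by
  simp only [cmpW, fc_eq, List.all_eq_true, List.mem_range, decide_eq_true_eq, List.any_eq_true] at hc
  obtain ⟨c, _, hc⟩ := hc k k.2
  refine ⟨(c : ℤ) - 1, fun s hs => ?_⟩
  have h1 := hc s s.2 (by
    have := kk_val h i (a.succAbove s)
    rw [val_succAbove] at this
    show D.S (ix i) (sa a s) / 6 = k
    rw [← this, hs])
  rw [ind_rn h, ind_rn h, val_succAbove, val_succAbove]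
  have h2 : (if Z = 0 ∧ D.tw.testBit k = true ∧ dg 4 (D.lab.getD (ix i) 0) (sa a s) % 3 = 1 then 1 else 0 : ℕ) =
      if Z = 0 ∧ (model D h.hr).tw k = true ∧ ((model D h.hr).ll i (a.succAbove s)) = 1 then 1 else 0 := by
    refine if_congr (and_congr_right fun _ => and_congr_right fun _ => ?_) rfl rfl
    have h3 := L_mod h i (a.succAbove s)
    rw [val_succAbove] at h3
    show D.L (ix i) (sa a s) % 3 = 1 ↔ _
    rw [h3, Fin.ext_iff]
    rfl
  rw [h2] at h1
  have h3 : D.S (ix j) (sa b s) % 6 / 3 + 1 +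
      (if Z = 0 ∧ (model D h.hr).tw k = true ∧ ((model D h.hr).ll i (a.succAbove s)) = 1 then 1 else 0) =
      D.S (ix i) (sa a s) % 6 / 3 + c := h1
  have h4 : ((D.S (ix j) (sa b s) % 6 / 3 : ℕ) : ℤ) + 1 +
      (if Z = 0 ∧ (model D h.hr).tw k = true ∧ ((model D h.hr).ll i (a.succAbove s)) = 1 then 1 else 0) =
      ((D.S (ix i) (sa a s) % 6 / 3 : ℕ) : ℤ) + c := by
    have := congrArg (Nat.cast (R := ℤ)) h3
    push_cast at this ⊢
    exact this
  linarith

lemma comp {i j : (K D).ι} {a b : Fin (D.n + 1)} (hc : D.cmpB (ix i) a (ix j) b = true) :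
    (model D h.hr).Comp1 i a j b := by
  unfold cmpB at hc
  simp only [fc_eq, List.all_eq_true, List.mem_range, decide_eq_true_eq, Bool.and_eq_true, Bool.or_eq_true,
    beq_iff_eq, List.any_eq_true, Bool.not_eq_true'] at hc
  obtain ⟨h1, h2⟩ := hc
  have hl : ∀ s : Fin D.n, D.L (ix i) (sa a s) = D.L (ix j) (sa b s) := fun s => h1 s s.2
  refine ⟨fun s => ⟨?_, ?_⟩, ?_⟩
  · apply Fin.ext
    rw [← L_div h, ← L_div h, val_succAbove, val_succAbove, hl]
  · apply Fin.ext
    rw [← L_mod h, ← L_mod h, val_succAbove, val_succAbove, hl]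
  · rcases h2 with ⟨he, hw⟩ | ⟨hi, hj, Z, hZ, hZ2, hw⟩
    · left
      refine ⟨he, fun k => ?_⟩
      obtain ⟨c, hc⟩ := windows h hw k
      exact ⟨c, fun s hs => by rw [hc s hs, if_neg (fun h => absurd h.1 (by norm_num)), sub_zero]⟩
    · right
      have hZ3 : Z < 3 := by simp at hZ; omega
      refine ⟨hi, hj, ⟨Z, hZ3⟩, fun s hs => ?_, fun k => ?_⟩
      · apply hZ2 s s.2
        show D.L (ix i) (sa a s) % 3 = Z
        have := L_mod h i (a.succAbove s)
        rw [val_succAbove] at this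
        rw [this, hs]
      · obtain ⟨c, hc⟩ := windows h hw k
        refine ⟨c, fun s hs => ?_⟩
        rw [hc s hs]
        congr 1
        refine if_congr (and_congr_left fun _ => ?_) rfl rfl
        rw [Fin.ext_iff]
        rfl

lemma comp_refl (i : (K D).ι) (a : Fin (D.n + 1)) : (model D h.hr).Comp1 i a i a :=
  ⟨fun _ => ⟨rfl, rfl⟩, Or.inl ⟨rfl, fun _ => ⟨0, fun _ _ => (add_zero _).symm⟩⟩⟩

lemma glue (i j : (K D).ι) (a b : Fin (D.n + 1)) (hf : (K D).face i a = (K D).face j b) :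
    (model D h.hr).Comp1 i a j b ∨ (model D h.hr).Comp1 j b i a := by
  rw [face_eq, face_eq] at hf
  have hn := h.hn
  have h1 := h.cP (ix i) (ix_lt h i) a a.2
  have h2 := h.cP (ix j) (ix_lt h j) b b.2
  simp only [chkP, fc_eq, decide_eq_true_eq, Bool.and_eq_true, Bool.or_eq_true, Bool.not_eq_true',
    decide_eq_false_iff_not] at h1 h2
  rw [hf] at h1
  set e := dg 24 D.PT (D.F (ix j) b)
  have ha := a.2
  have hb := b.2
  have key : ∀ (i j : (K D).ι) (a b : Fin (D.n + 1)), 16 * ix i + a = e % 4096 → 16 * ix j + b = e / 4096 →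
      (¬16 * ix i + a = e % 4096 ∨ D.cmpB (e % 4096 / 16) (e % 4096 % 16) (e / 4096 / 16) (e / 4096 % 16) = true ∨
        D.cmpB (e / 4096 / 16) (e / 4096 % 16) (e % 4096 / 16) (e % 4096 % 16) = true) →
      (model D h.hr).Comp1 i a j b ∨ (model D h.hr).Comp1 j b i a := by
    intro i j a b hi hj hc
    have ha := a.2
    have hb := b.2
    have e1 : e % 4096 / 16 = ix i := by omega
    have e2 : e % 4096 % 16 = a := by omega
    have e3 : e / 4096 / 16 = ix j := by omega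
    have e4 : e / 4096 % 16 = b := by omega
    rw [e1, e2, e3, e4] at hc
    rcases hc with hc | hc | hc
    · exact absurd hi hc
    · exact Or.inl (comp h hc)
    · exact Or.inr (comp h hc)
  have same : ∀ (i j : (K D).ι) (a b : Fin (D.n + 1)), 16 * ix i + (a : ℕ) = 16 * ix j + b →
      (model D h.hr).Comp1 i a j b ∨ (model D h.hr).Comp1 j b i a := by
    intro i j a b hab
    have ha := a.2
    have hb := b.2
    have e1 : i = j := Fin.ext (n := D.rows.length) (by show ix i = ix j; omega)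
    have e2 : a = b := Fin.ext (by omega)
    subst e1 e2
    exact Or.inl (comp_refl h i a)
  rcases h1 with ⟨h1 | h1, h3⟩
  · rcases h2 with ⟨h2 | h2, h4⟩
    · exact same i j a b (h1.trans h2.symm)
    · exact key i j a b h1 h2 h3
  · rcases h2 with ⟨h2 | h2, h4⟩
    · exact (key j i b a h2 h1 h4).symm
    · exact same i j a b (h1.trans h2.symm)

end

end Tab

end Pool.Agent.H95.TB
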