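import Pool.Agent.H95.TB.Inj

/-!
# Surjectivity and the main theorem for models
-/

open Finset

namespace Pool.Agent.H95.TB

open Pool.Agent.H34.PLE

variable {n r : ℕ} {K : Glue n} {M : Mdl n r K}

lemma φ_smul {c w y : ℝ} (hc : c ≠ 0) : φ (c * w) (c * y) = (c : ℂ) * φ w y := by
  rw [φ_eq, φ_eq, mul_div_mul_left _ _ hc]
  push_cast
  ring

namespace Mdl

/-- every configuration is realised -/
theorem exists_config (hM : M.Good) (hr : r ≠ 0) (e : Bool) {P : Fin 3 → ℝ} {w X : Fin r → ℝ} (hP : Tri P)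
    (hw : ∀ k, 0 ≤ w k) (hw1 : ∑ k, w k = 1) (hX0 : ∀ k, 0 ≤ X k) (hX1 : ∀ k, X k ≤ w k) :
    ∃ (i : K.ι) (x : Sx n), M.ε i = e ∧ M.pX i x.1 = P ∧ M.wk i x.1 = w ∧ M.XX i x.1 = X ∧
      M.lw i x.1 = nw P w := by
  have hP1 : ∑ X, P X = 1 := by rw [Fin.sum_univ_three]; exact hP.2
  have hl0 := nw_nonneg (P := P) (w := w) hP.1 hw
  have hrow := nw_row (P := P) (w := w) hw hP1 hw1
  have hcol := nw_col (P := P) (w := w) hP.1 hP1 hw1
  have hmono : ∀ k, ept P w k ≤ ept P w (k + 1) := fun k => ept_mono hw (Nat.le_succ k)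
  have hwin : ∀ k : Fin r, ∃ q : Fin 3, (ept P w k ≤ q ∧ (q : ℕ) ≤ ept P w (k + 1)) ∧
      (∀ Y, sg (M.tw k && !e) Y < sg (M.tw k && !e) q → cl (sg (M.tw k && !e)) (nw P w k) (X k) Y = nw P w k Y) ∧
      (∀ Y, sg (M.tw k && !e) q < sg (M.tw k && !e) Y → cl (sg (M.tw k && !e)) (nw P w k) (X k) Y = 0) ∧
      ∑ Y, cl (sg (M.tw k && !e)) (nw P w k) (X k) Y = X k := by
    intro k
    refine exists_window (sg_inj _) (hl0 k) (fun q => ept P w k ≤ q ∧ (q : ℕ) ≤ ept P w (k + 1)) ?_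
      (fun Y hY => ept_supp hP.1 hw hY) (hX0 k) (by rw [hrow]; exact hX1 k)
    exact ⟨⟨ept P w k, by have := ept_le (P := P) (w := w) k; omega⟩, le_rfl, hmono k⟩
  choose q hq1 hq2 hq3 hq4 using hwin
  obtain ⟨i, hi, hslot⟩ := hM.facet e (ept P w) q ept_zero (ept_r hP.1 hP1 hw1 hr) (fun k _ => hmono k) hq1
  -- the weights of the slots
  let C : Fin r × Bool × Fin 3 → ℝ := fun s =>
    if s.2.1 = true then cl (sg (M.tw s.1 && !e)) (nw P w s.1) (X s.1) s.2.2
    else nw P w s.1 s.2.2 - cl (sg (M.tw s.1 && !e)) (nw P w s.1) (X s.1) s.2.2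
  have hC0 : ∀ s, 0 ≤ C s := by
    intro s
    simp only [C]
    split_ifs
    · exact cl_nonneg _ _ _ _
    · exact sub_nonneg.2 (cl_le (hl0 _) _ _)
  have hCle : ∀ s, C s ≤ nw P w s.1 s.2.2 := by
    intro s
    simp only [C]
    split_ifs
    · exact cl_le (hl0 _) _ _
    · linarith [cl_nonneg (sg (M.tw s.1 && !e)) (nw P w s.1) (X s.1) s.2.2]
  have hCs : ∀ s, C s ≠ 0 → ∃ a, M.slot i a = s := by
    rintro ⟨k, b, Y⟩ hs
    have hpos : 0 < nw P w k Y := lt_of_lt_of_le (lt_of_le_of_ne (hC0 _) (Ne.symm hs)) (hCle (k, b, Y))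
    obtain ⟨h1, h2⟩ := ept_supp hP.1 hw hpos
    refine hslot k b Y h1 h2 ?_
    cases b
    · rw [if_neg (by decide)]
      by_contra hlt
      push Not at hlt
      apply hs
      simp only [C]
      rw [if_neg (by decide), hq2 k Y hlt, sub_self]
    · rw [if_pos rfl]
      by_contra hlt
      push Not at hlt
      apply hs
      simp only [C]
      rw [if_pos trivial, hq3 k Y hlt]
  let x : Fin (n + 1) → ℝ := fun a => C (M.slot i a)
  have hcc : ∀ b k Y, M.cc i x b k Y = C (k, b, Y) := by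
    intro b k Y
    by_cases h : ∃ a, M.slot i a = (k, b, Y)
    · obtain ⟨a, ha⟩ := h
      have h1 := cc_slot hM i x a
      have e1 : M.kk i a = k := congrArg Prod.fst ha
      have e2 : M.rn i a = b := congrArg (fun s => s.2.1) ha
      have e3 : M.ll i a = Y := congrArg (fun s => s.2.2) ha
      rw [e1, e2, e3] at h1
      rw [h1]
      simp only [x, ha]
    · have h1 : C (k, b, Y) = 0 := by
        by_contra hne
        exact h (hCs _ hne)
      have h2 : M.cc i x b k Y = 0 := by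
        by_contra hne
        obtain ⟨a, h3, h4, h5⟩ := exists_of_cc_pos hne
        exact h ⟨a, Prod.ext h3 (Prod.ext h4 h5)⟩
      rw [h1, h2]
  have hlw : M.lw i x = nw P w := by
    funext k Y
    rw [M.lw_eq, hcc, hcc]
    simp only [C]
    rw [if_neg (by decide), if_pos trivial]
    ring
  have hsum : ∑ a, x a = 1 := by
    have h1 : ∑ k, M.wk i x k = ∑ a, x a := by
      rw [sum_congr rfl fun X _ => M.wk_eq i x X, sum_comm]
      refine sum_congr rfl fun a _ => ?_
      simp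
    rw [← h1]
    unfold wk
    rw [hlw, sum_congr rfl fun k _ => hrow k, hw1]
  refine ⟨i, ⟨x, fun a => hC0 _, hsum⟩, hi, ?_, ?_, ?_, hlw⟩
  · funext Y
    unfold pX
    rw [hlw]
    exact hcol Y
  · funext k
    unfold wk
    rw [hlw]
    exact hrow k
  · funext k
    unfold XX
    show ∑ Y, M.cc i x true k Y = X k
    rw [sum_congr rfl fun Y _ => hcc true k Y]
    simp only [C, if_true]
    exact hq4 k

theorem GG_surjective (hM : M.Good) (hr : r ≠ 0) : Function.Surjective (GG hM) := by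
  intro t
  induction t using Quot.ind with
  | mk p =>
  obtain ⟨u, v⟩ := p
  have hu : u.1 0 ≠ 0 ∨ u.1 1 ≠ 0 := by
    obtain ⟨j, hj⟩ := exists_ne_zero u
    fin_cases j
    · exact Or.inl hj
    · exact Or.inr hj
  obtain ⟨s, P, hP, c, hc, h1, h2⟩ := U_surj _ _ hu
  have hcn : 0 < ‖c‖ := norm_pos_iff.2 hc
  have hcc : (‖c‖ : ℂ) ≠ 0 := by exact_mod_cast hcn.ne'
  set z : ℂ := c / ‖c‖ with hz
  have hz1 : ‖z‖ = 1 := by
    rw [hz, norm_div, Complex.norm_real, norm_norm, div_self hcn.ne']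
  have hz0 : z ≠ 0 := by
    intro h; rw [h, norm_zero] at hz1; exact zero_ne_one hz1
  -- the fibre
  obtain ⟨j0, hj0⟩ := exists_ne_zero v
  have hS : 0 < ∑ k, ‖v.1 k‖ :=
    lt_of_lt_of_le (norm_pos_iff.2 hj0) (single_le_sum (f := fun k => ‖v.1 k‖) (fun k _ => norm_nonneg _) (mem_univ j0))
  set S := ∑ k, ‖v.1 k‖ with hSd
  let w : Fin r → ℝ := fun k => ‖v.1 k‖ / S
  have hw : ∀ k, 0 ≤ w k := fun k => div_nonneg (norm_nonneg _) hS.le
  have hw1 : ∑ k, w k = 1 := by
    simp only [w]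
    rw [← sum_div, ← hSd, div_self hS.ne']
  let v' : Fin r → ℂ := fun k => (if M.tw k = true then z⁻¹ else 1) * v.1 k
  have hv' : ∀ k, ‖v' k‖ = ‖v.1 k‖ := by
    intro k
    simp only [v', norm_mul]
    split_ifs
    · rw [norm_inv, hz1, inv_one, one_mul]
    · rw [norm_one, one_mul]
  have hpol : ∀ k, ∃ t : ℝ, v' k = φ ‖v.1 k‖ (t * ‖v.1 k‖) := by
    intro k
    obtain ⟨t, _, _, ht⟩ := exists_polar (v' k)
    exact ⟨t, by rw [hv' k] at ht; exact ht⟩
  choose t ht using hpol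
  let σ : Fin r → ℝ := fun k => ss (M.tw k && !s) P (nw P w k)
  let X : Fin r → ℝ := fun k => w k * Int.fract (t k + σ k / w k)
  obtain ⟨i, x, hi, e1, e2, e3, e4⟩ := exists_config hM hr s hP hw hw1 (X := X)
    (fun k => mul_nonneg (hw k) (Int.fract_nonneg _))
    (fun k => mul_le_of_le_one_right (hw k) (Int.fract_lt_one _).le)
  refine ⟨K.pt i x, ?_⟩
  rw [GG_pt, mk_eq_cls]
  refine cls_eq' (z := z) hz1 (α := ‖c‖) (β := S) hcn hS (fun j => ?_) (fun k => ?_)
  · rw [hi, e1]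
    have hz2 : (‖c‖ : ℂ) * z = c := by rw [hz]; field_simp
    rw [← mul_assoc, hz2]
    fin_cases j
    · exact h1
    · exact h2
  · rw [VV_apply, e2]
    have e5 : M.yy i x.1 k = X k - σ k := by
      unfold yy
      rw [e3, e1, hi, e4]
    rw [e5]
    have e6 : φ (w k) (X k - σ k) = φ (w k) (t k * w k) := by
      by_cases h0 : w k = 0
      · rw [h0, φ_zero, φ_zero]
      · have e7 : X k - σ k = t k * w k + ((-⌊t k + σ k / w k⌋ : ℤ) : ℝ) * w k := by
          simp only [X, Int.fract]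
          push_cast
          field_simp
          ring
        rw [e7, φ_add_int]
    rw [e6]
    have e8 : (S : ℂ) * φ (w k) (t k * w k) = v' k := by
      rw [← φ_smul hS.ne', ht k]
      congr 1
      · simp only [w]; field_simp
      · simp only [w]; field_simp
    have e9 : (S : ℂ) * ((if M.tw k = true then z else 1) * φ (w k) (t k * w k)) =
        (if M.tw k = true then z else 1) * v' k := by rw [← e8]; ring
    rw [e9]
    simp only [v']
    split_ifs
    · rw [← mul_assoc, mul_inv_cancel₀ hz0, one_mul]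
    · rw [one_mul, one_mul]

/-- The realisation of a gluing complex with a model is the quotient of a product of two spheres by a circle
action. -/
theorem homeo (hM : M.Good) (hr : r ≠ 0) [Finite K.ι] : Nonempty (K.Real ≃ₜ Tw M.tw) := by
  let e : K.Real ≃ Tw M.tw := Equiv.ofBijective (GG hM) ⟨GG_injective hM, GG_surjective hM hr⟩
  have hc : Continuous e := GG_continuous hM
  exact ⟨hc.homeoOfEquivCompactToT2⟩

end Mdl

end Pool.Agent.H95.TB
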