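import Pool.Agent.H95.TB.T4
import Pool.Agent.H95.TB.SoundC
import Pool.Agent.H95.TB.Quat4

/-!
# The gluing complex with 72 facets of dimension 9
-/

namespace Pool.Agent.H95.TB.T4

open Pool.Agent.H34.PLE

theorem cF : ((List.range 72).all fun i => D.chkF i) = true := by decide +kernel

theorem cP : ((List.range 72).all fun i => (List.range 10).all fun a => D.chkP i a) = true := by decide +kernel

theorem cE : D.chkEE = true := by decide +kernel

theorem cN : ((List.range 72).all fun i => D.chkN i) = true := by decide +kernel

theorem cC0 : ((List.range 8).all fun i => D.chkC (0 + i)) = true := by decide +kernel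

theorem cC1 : ((List.range 8).all fun i => D.chkC (8 + i)) = true := by decide +kernel

theorem cC2 : ((List.range 8).all fun i => D.chkC (16 + i)) = true := by decide +kernel

theorem cC3 : ((List.range 8).all fun i => D.chkC (24 + i)) = true := by decide +kernel

theorem cC4 : ((List.range 8).all fun i => D.chkC (32 + i)) = true := by decide +kernel

theorem cC5 : ((List.range 8).all fun i => D.chkC (40 + i)) = true := by decide +kernel

theorem cC6 : ((List.range 8).all fun i => D.chkC (48 + i)) = true := by decide +kernel

theorem cC7 : ((List.range 8).all fun i => D.chkC (56 + i)) = true := by decide +kernel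

theorem cC8 : ((List.range 8).all fun i => D.chkC (64 + i)) = true := by decide +kernel

theorem cR : ((List.range 6856).all fun i => D.chkR i) = true := by decide +kernel

lemma cC_of {a c : ℕ} (h : ((List.range c).all fun i => D.chkC (a + i)) = true) {i : ℕ} (h1 : a ≤ i)
    (h2 : i < a + c) : D.chkC i = true := by
  have := List.all_eq_true.1 h (i - a) (List.mem_range.2 (by omega))
  rwa [Nat.add_sub_cancel' h1] at this

lemma cC {i : ℕ} (hi : i < 72) : D.chkC i = true := by
  rcases lt_or_ge i 8 with h0 | h0
  · exact cC_of cC0 (by omega) (by omega)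
  rcases lt_or_ge i 16 with h1 | h1
  · exact cC_of cC1 (by omega) (by omega)
  rcases lt_or_ge i 24 with h2 | h2
  · exact cC_of cC2 (by omega) (by omega)
  rcases lt_or_ge i 32 with h3 | h3
  · exact cC_of cC3 (by omega) (by omega)
  rcases lt_or_ge i 40 with h4 | h4
  · exact cC_of cC4 (by omega) (by omega)
  rcases lt_or_ge i 48 with h5 | h5
  · exact cC_of cC5 (by omega) (by omega)
  rcases lt_or_ge i 56 with h6 | h6
  · exact cC_of cC6 (by omega) (by omega)
  rcases lt_or_ge i 64 with h7 | h7
  · exact cC_of cC7 (by omega) (by omega)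
  exact cC_of cC8 (by omega) (by omega)

theorem ok : D.OK where
  hr := by decide
  hn := by decide
  hN := by decide
  len := by decide +kernel
  cF i hi := List.all_eq_true.1 cF i (List.mem_range.2 hi)
  cP i hi a ha := List.all_eq_true.1 (List.all_eq_true.1 cP i (List.mem_range.2 hi)) a (List.mem_range.2 ha)
  cE := cE
  cN i hi := List.all_eq_true.1 cN i (List.mem_range.2 hi)
  cC _ hi := cC hi
  cR i hi := List.all_eq_true.1 cR i (List.mem_range.2 hi)

/-- The realisation of the complex with 72 facets is `(S³ × S⁷) / S¹`. -/
theorem homeo : Nonempty ((glueL 9 24 rowsT).Real ≃ₜ HopfSphere 4) := by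
  refine homeo_hopf ?_ (Tab.homeo ok)
  decide

/-- The realisation of the complex with 72 facets is `S² × S⁷`. -/
theorem homeo' : Nonempty ((glueL 9 24 rowsT).Real ≃ₜ
    Metric.sphere (0 : EuclideanSpace ℝ (Fin 3)) 1 × Metric.sphere (0 : EuclideanSpace ℝ (Fin 8)) 1) := by
  obtain ⟨e⟩ := homeo
  exact ⟨e.trans hopf4'⟩

end Pool.Agent.H95.TB.T4
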