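import Pool.Agent.H95.TB.Bits
import Pool.Agent.H95.TB.Surj

/-!
# Tables and their checks
-/

open Finset

namespace Pool.Agent.H95.TB

open Pool.Agent.H34.PLE

/-- exchange of 1 and 2 -/
def ltN (b : Bool) (q : ℕ) : ℕ := cond b (cond (Nat.beq q 1) 2 (cond (Nat.beq q 2) 1 q)) q

/-- The tables.  `rows`: names of the faces (24 bits each); `nb`: neighbours (16 bits: facet times 16 plus vertex);
`lab`: labels (4 bits: 3 times the circle plus the letter); `slot`: slots (8 bits); `cls`: classes of faces (24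
bits); `clsC`: codes and roots of the classes (64 bits, lists of 1024); `PT`: positions of the names (24 bits);
`BT`: first facets of the paths (8 bits). -/
structure Tab where
  n : ℕ
  r : ℕ
  N : ℕ
  h : ℕ
  NC : ℕ
  tw : ℕ
  rows : List ℕ
  nb : List ℕ
  lab : List ℕ
  slot : List ℕ
  cls : List ℕ
  clsC : List ℕ
  PT : ℕ
  BT : ℕ

namespace Tab

variable (D : Tab)

/-- labels -/
def L (i a : ℕ) : ℕ := dg 4 (D.lab.getD i 0) a

/-- slots -/
def S (i a : ℕ) : ℕ := dg 8 (D.slot.getD i 0) a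

/-- names -/
def F (i a : ℕ) : ℕ := dg 24 (D.rows.getD i 0) a

/-- signs -/
def eps (i : ℕ) : Bool := Nat.blt i D.h

/-- check of a facet -/
def chkF (i : ℕ) : Bool :=
  fc (D.slot.getD i 0) fun SL => fc (D.lab.getD i 0) fun LB =>
  (List.range (D.n + 1)).all fun a => fc (dg 8 SL a) fun s => fc (dg 4 LB a) fun l =>
    decide (s < 6 * D.r ∧ l = 3 * (s / 6) + ltN (D.tw.testBit (s / 6) && !(D.eps i)) (s % 3) ∧
      (a = D.n ∨ s < dg 8 SL (a + 1))) &&
    (List.range (D.n + 1)).all fun b => fc (dg 8 SL b) fun s' => fc (dg 4 LB b) fun l' =>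
      decide ((l % 3 < l' % 3 → l / 3 ≤ l' / 3) ∧ (s / 6 = s' / 6 → s % 6 < 3 → 3 ≤ s' % 6 → s' % 3 ≤ s % 3))

/-- check of the windows -/
def cmpW (SL LB SL' a b Z : ℕ) : Bool :=
  (List.range D.r).all fun k => [0, 1, 2].any fun c => (List.range D.n).all fun s =>
    fc (dg 8 SL (sa a s)) fun u => decide (u / 6 = k → (dg 8 SL' (sa b s) % 6) / 3 + 1 +
      (if Z = 0 ∧ D.tw.testBit k = true ∧ dg 4 LB (sa a s) % 3 = 1 then 1 else 0) = (u % 6) / 3 + c)

/-- check of a gluing -/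
def cmpB (i a j b : ℕ) : Bool :=
  fc (D.slot.getD i 0) fun SL => fc (D.lab.getD i 0) fun LB => fc (D.slot.getD j 0) fun SL' =>
  fc (D.lab.getD j 0) fun LB' =>
    (List.range D.n).all (fun s => decide (dg 4 LB (sa a s) = dg 4 LB' (sa b s))) &&
    ((D.eps i == D.eps j && D.cmpW SL LB SL' a b 3) ||
      (D.eps i && (!(D.eps j) && [0, 1, 2].any fun Z =>
        (List.range D.n).all (fun s => decide (dg 4 LB (sa a s) % 3 ≠ Z)) && D.cmpW SL LB SL' a b Z)))

/-- check of a name -/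
def chkP (i a : ℕ) : Bool :=
  fc (dg 24 D.PT (D.F i a)) fun e => fc (e % 4096) fun lo => fc (e / 4096) fun hi =>
    decide (16 * i + a = lo ∨ 16 * i + a = hi) &&
    (!(decide (16 * i + a = lo)) || (D.cmpB (lo / 16) (lo % 16) (hi / 16) (hi % 16) ||
      D.cmpB (hi / 16) (hi % 16) (lo / 16) (lo % 16)))

/-- digits in base 3 -/
def dE (E k : ℕ) : ℕ := E / 3 ^ k % 3

/-- valid paths -/
def vE (E : ℕ) : Bool :=
  decide (dE E 0 = 0 ∧ dE E D.r = 2) && (List.range D.r).all fun k => decide (dE E k ≤ dE E (k + 1))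

/-- valid windows -/
def vQ (E Q : ℕ) : Bool :=
  (List.range D.r).all fun k => decide (dE E k ≤ dE Q k ∧ dE Q k ≤ dE E (k + 1))

/-- the facet with given path and windows -/
def fnd (e : Bool) (E Q : ℕ) : ℕ :=
  dg 8 D.BT (cond e E (E + 3 ^ (D.r + 1))) + (List.range D.r).foldl (fun acc k =>
    acc * (dE E (k + 1) - dE E k + 1) + ((List.range 3).filter (fun X => decide (dE E k ≤ X ∧ X ≤ dE E (k + 1) ∧
      ltN (D.tw.testBit k && !e) X < ltN (D.tw.testBit k && !e) (dE Q k)))).length) 0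

/-- check of the facet with given path and windows -/
def chkE (e : Bool) (E Q : ℕ) : Bool :=
  fc (D.fnd e E Q) fun i => fc (D.slot.getD i 0) fun SL => fc (mkS (fun a => dg 8 SL a) (D.n + 1)) fun MK =>
    decide (i < D.N ∧ D.eps i = e) && (List.range D.r).all fun k => [false, true].all fun b =>
      (List.range 3).all fun X => decide (dE E k ≤ X → X ≤ dE E (k + 1) →
        (if b = true then ltN (D.tw.testBit k && !e) X ≤ ltN (D.tw.testBit k && !e) (dE Q k)
          else ltN (D.tw.testBit k && !e) (dE Q k) ≤ ltN (D.tw.testBit k && !e) X) →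
        bit MK (6 * k + (if b = true then 3 else 0) + ltN (D.tw.testBit k && !e) X) = true)

/-- check of all facets with given path and windows -/
def chkEE : Bool := [false, true].all fun e => (List.range (3 ^ (D.r + 1))).all fun E =>
  !(D.vE E) || (List.range (3 ^ D.r)).all fun Q => !(D.vQ E Q) || D.chkE e E Q

/-- check of the neighbours of a facet -/
def chkN (i : ℕ) : Bool :=
  fc (D.nb.getD i 0) fun NB => (List.range (D.n + 1)).all fun a => fc (dg 16 NB a) fun nb =>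
    decide (nb / 16 < D.N ∧ nb % 16 < D.n + 1 ∧ D.F i a = D.F (nb / 16) (nb % 16))

/-- code and root of a class -/
def cdx (ρ : ℕ) : ℕ := dg 64 (D.clsC.getD (Nat.div ρ 1024) 0) (Nat.mod ρ 1024)

/-- check of one face -/
def chk1 (i P LB CL NB mA mB mC S : ℕ) : Bool :=
  fc (dg 24 CL S) fun e => fc (Nat.div e 256) fun ρ => fc (D.cdx ρ) fun cc => fc (Nat.mod e 16) fun a =>
    Nat.blt ρ D.NC && (Nat.beq (Nat.add (Nat.mul (cdA LB S (D.n + 1)) 4)
        (cond (meets S mA && (meets S mB && meets S mC)) (cond (D.eps i) 0 1) 2)) (Nat.mod cc (Nat.pow 2 44)) &&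
    cond (Nat.beq a 15) (Nat.beq (Nat.div cc (Nat.pow 2 44)) (Nat.add (Nat.mul i P) S))
      (fc (dg 16 NB a) fun nb => fc (Nat.div nb 16) fun j => fc (tr S a (Nat.mod nb 16)) fun S' =>
        fc (dg 24 (D.cls.getD j 0) S') fun e' =>
        Nat.blt a (D.n + 1) && (cond (bit S a) false (Nat.blt 0 S' && (Nat.blt S' P &&
          (Nat.blt (Nat.mod (Nat.div e' 16) 16) (Nat.mod (Nat.div e 16) 16) && Nat.beq (Nat.div e' 256) ρ))))))

/-- check of the faces of a facet -/
def chkC (i : ℕ) : Bool :=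
  fc (Nat.pow 2 (D.n + 1)) fun P => fc (D.lab.getD i 0) fun LB => fc (D.cls.getD i 0) fun CL =>
  fc (D.nb.getD i 0) fun NB => fc (mkP (fun a => Nat.beq (Nat.mod (dg 4 LB a) 3) 0) (D.n + 1)) fun mA =>
  fc (mkP (fun a => Nat.beq (Nat.mod (dg 4 LB a) 3) 1) (D.n + 1)) fun mB =>
  fc (mkP (fun a => Nat.beq (Nat.mod (dg 4 LB a) 3) 2) (D.n + 1)) fun mC =>
    (List.range (P - 1)).all fun S => D.chk1 i P LB CL NB mA mB mC (S + 1)

/-- check of one class -/
def chkR (ρ : ℕ) : Bool :=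
  fc (D.cdx ρ) fun c => (decide (ρ = 0) || Nat.blt (D.cdx (ρ - 1) % 2 ^ 44) (c % 2 ^ 44)) &&
    decide ((c % 2 ^ 44) % 4 = 2 → c / 2 ^ 44 / 2 ^ (D.n + 1) < D.h)

/-- all checks -/
structure OK : Prop where
  hr : 0 < D.r
  hn : D.n < 15
  hN : 0 < D.N
  len : D.rows.length = D.N
  cF : ∀ i < D.N, D.chkF i = true
  cP : ∀ i < D.N, ∀ a < D.n + 1, D.chkP i a = true
  cE : D.chkEE = true
  cN : ∀ i < D.N, D.chkN i = true
  cC : ∀ i < D.N, D.chkC i = true
  cR : ∀ ρ < D.NC, D.chkR ρ = true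

end Tab

end Pool.Agent.H95.TB
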