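import Pool.Agent.H95.TB.Base

/-!
# The target space: the quotient of a product of two spheres by a circle action
-/

open Set

namespace Pool.Agent.H95.TB

/-- the unit sphere of `ℂ^m` -/
abbrev SC (m : ℕ) := Metric.sphere (0 : EuclideanSpace ℂ (Fin m)) 1

variable {r : ℕ}

/-- `q` is obtained from `p` by multiplying the first point by `z`, `|z| = 1`, and the coordinates `k` with
`tw k = true` of the second point by `z` -/
def TwRel (tw : Fin r → Bool) (p q : SC 2 × SC r) : Prop :=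
  ∃ z : ℂ, ‖z‖ = 1 ∧ (∀ j, q.1.1 j = z * p.1.1 j) ∧ ∀ k, q.2.1 k = (if tw k = true then z else 1) * p.2.1 k

lemma conj_mul_of_norm {z : ℂ} (hz : ‖z‖ = 1) : (starRingEnd ℂ) z * z = 1 := by
  rw [mul_comm, Complex.mul_conj, Complex.normSq_eq_norm_sq, hz]; simp

lemma TwRel.refl (tw : Fin r → Bool) (p : SC 2 × SC r) : TwRel tw p p := by
  refine ⟨1, norm_one, fun j => (one_mul _).symm, fun k => ?_⟩
  split_ifs <;> rw [one_mul]

lemma TwRel.symm {tw : Fin r → Bool} {p q : SC 2 × SC r} (h : TwRel tw p q) : TwRel tw q p := by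
  obtain ⟨z, hz, h1, h2⟩ := h
  refine ⟨(starRingEnd ℂ) z, by rw [RCLike.norm_conj, hz], fun j => ?_, fun k => ?_⟩
  · rw [h1, ← mul_assoc, conj_mul_of_norm hz, one_mul]
  · rw [h2]
    split_ifs
    · rw [← mul_assoc, conj_mul_of_norm hz, one_mul]
    · rw [one_mul, one_mul]

lemma TwRel.trans {tw : Fin r → Bool} {p q s : SC 2 × SC r} (h : TwRel tw p q) (h' : TwRel tw q s) :
    TwRel tw p s := by
  obtain ⟨z, hz, h1, h2⟩ := h
  obtain ⟨z', hz', h1', h2'⟩ := h'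
  refine ⟨z' * z, by rw [norm_mul, hz, hz', one_mul], fun j => ?_, fun k => ?_⟩
  · rw [h1', h1, mul_assoc]
  · rw [h2', h2]
    split_ifs
    · rw [mul_assoc]
    · rw [one_mul, one_mul]

/-- the quotient of `S³ × S^(2r-1)` by the circle action with the weights 1 on `S³` and 1 or 0 on the
coordinates of the second factor -/
def Tw (tw : Fin r → Bool) : Type := Quot (TwRel tw)

instance (tw : Fin r → Bool) : TopologicalSpace (Tw tw) := inferInstanceAs (TopologicalSpace (Quot (TwRel tw)))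

lemma Tw_exact {tw : Fin r → Bool} {p q : SC 2 × SC r} (h : (Quot.mk (TwRel tw) p : Tw tw) = Quot.mk (TwRel tw) q) :
    TwRel tw p q :=
  (Equivalence.quot_mk_eq_iff ⟨TwRel.refl tw, TwRel.symm, TwRel.trans⟩ p q).1 h

/-- the invariants of the action -/
noncomputable def inv (tw : Fin r → Bool) (p : SC 2 × SC r) :
    (Fin 2 → Fin 2 → ℂ) × (Fin 2 → Fin r → ℂ) × (Fin r → ℂ) :=
  (fun a b => p.1.1 a * (starRingEnd ℂ) (p.1.1 b),
    fun a k => if tw k = true then (starRingEnd ℂ) (p.1.1 a) * p.2.1 k else 0,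
    fun k => if tw k = true then 0 else p.2.1 k)

lemma inv_continuous (tw : Fin r → Bool) : Continuous (inv tw) := by
  have c1 : ∀ j, Continuous fun p : SC 2 × SC r => p.1.1 j := fun j => by fun_prop
  have c2 : ∀ k, Continuous fun p : SC 2 × SC r => p.2.1 k := fun k => by fun_prop
  refine Continuous.prodMk ?_ (Continuous.prodMk ?_ ?_)
  · exact continuous_pi fun a => continuous_pi fun b => (c1 a).mul (Complex.continuous_conj.comp (c1 b))
  · refine continuous_pi fun a => continuous_pi fun k => ?_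
    split_ifs
    · exact (Complex.continuous_conj.comp (c1 a)).mul (c2 k)
    · exact continuous_const
  · refine continuous_pi fun k => ?_
    split_ifs
    · exact continuous_const
    · exact c2 k

lemma inv_rel {tw : Fin r → Bool} {p q : SC 2 × SC r} (h : TwRel tw p q) : inv tw p = inv tw q := by
  obtain ⟨z, hz, h1, h2⟩ := h
  have hz' := conj_mul_of_norm hz
  unfold inv
  refine Prod.ext ?_ (Prod.ext ?_ ?_)
  · funext a b
    simp only [h1, map_mul]
    calc p.1.1 a * (starRingEnd ℂ) (p.1.1 b) = ((starRingEnd ℂ) z * z) * (p.1.1 a * (starRingEnd ℂ) (p.1.1 b)) := by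
          rw [hz', one_mul]
      _ = _ := by ring
  · funext a k
    simp only [h1, h2, map_mul]
    split_ifs
    · calc (starRingEnd ℂ) (p.1.1 a) * p.2.1 k = ((starRingEnd ℂ) z * z) * ((starRingEnd ℂ) (p.1.1 a) * p.2.1 k) := by
            rw [hz', one_mul]
        _ = _ := by ring
    · rfl
  · funext k
    simp only [h2]
    split_ifs
    · rfl
    · rw [one_mul]

lemma exists_ne_zero {m : ℕ} (u : SC m) : ∃ j, u.1 j ≠ 0 := by
  by_contra h
  push Not at h
  have h1 : u.1 = 0 := by ext j; exact h j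
  have h2 : ‖u.1‖ = 1 := mem_sphere_zero_iff_norm.1 u.2
  rw [h1, norm_zero] at h2
  exact zero_ne_one h2

lemma rel_of_inv {tw : Fin r → Bool} {p q : SC 2 × SC r} (h : inv tw p = inv tw q) : TwRel tw p q := by
  have h1 : ∀ a b, p.1.1 a * (starRingEnd ℂ) (p.1.1 b) = q.1.1 a * (starRingEnd ℂ) (q.1.1 b) := fun a b =>
    congrFun (congrFun (congrArg Prod.fst h) a) b
  have h2 : ∀ a k, (if tw k = true then (starRingEnd ℂ) (p.1.1 a) * p.2.1 k else 0) =
      (if tw k = true then (starRingEnd ℂ) (q.1.1 a) * q.2.1 k else 0) := fun a k =>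
    congrFun (congrFun (congrArg Prod.fst (congrArg Prod.snd h)) a) k
  have h3 : ∀ k, (if tw k = true then 0 else p.2.1 k) = (if tw k = true then 0 else q.2.1 k) := fun k =>
    congrFun (congrArg Prod.snd (congrArg Prod.snd h)) k
  obtain ⟨b, hb⟩ := exists_ne_zero p.1
  have hbb := h1 b b
  rw [Complex.mul_conj, Complex.mul_conj, Complex.normSq_eq_norm_sq, Complex.normSq_eq_norm_sq] at hbb
  have hbb' : ‖p.1.1 b‖ ^ 2 = ‖q.1.1 b‖ ^ 2 := Complex.ofReal_injective hbb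
  have hnorm : ‖p.1.1 b‖ = ‖q.1.1 b‖ := (pow_left_inj₀ (norm_nonneg _) (norm_nonneg _) (by norm_num)).1 hbb'
  have hqb : q.1.1 b ≠ 0 := by
    intro h0
    rw [h0, norm_zero] at hnorm
    exact hb (norm_eq_zero.1 hnorm)
  have hcb : (starRingEnd ℂ) (q.1.1 b) ≠ 0 := by simpa using hqb
  have hz : ‖(starRingEnd ℂ) (p.1.1 b) / (starRingEnd ℂ) (q.1.1 b)‖ = 1 := by
    rw [norm_div, RCLike.norm_conj, RCLike.norm_conj, hnorm, div_self (by simpa using hqb)]
  have hu : ∀ j, q.1.1 j = (starRingEnd ℂ) (p.1.1 b) / (starRingEnd ℂ) (q.1.1 b) * p.1.1 j := by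
    intro j
    have := h1 j b
    field_simp
    rw [← this]; ring
  refine ⟨_, hz, hu, fun k => ?_⟩
  split_ifs with hk
  · have h4 := h2 b k
    rw [if_pos hk, if_pos hk] at h4
    field_simp
    rw [h4]; ring
  · have h4 := h3 k
    rw [if_neg hk, if_neg hk] at h4
    rw [one_mul, h4]

instance (tw : Fin r → Bool) : T2Space (Tw tw) := by
  let f : Tw tw → (Fin 2 → Fin 2 → ℂ) × (Fin 2 → Fin r → ℂ) × (Fin r → ℂ) :=
    Quot.lift (inv tw) fun p q h => inv_rel h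
  have hc : Continuous f := continuous_quot_lift _ (inv_continuous tw)
  refine T2Space.of_injective_continuous (f := f) ?_ hc
  intro x y hxy
  induction x using Quot.ind with
  | mk p =>
    induction y using Quot.ind with
    | mk q => exact Quot.sound (rel_of_inv hxy)

/-- normalisation of a vector -/
noncomputable def nz {m : ℕ} (u : EuclideanSpace ℂ (Fin m)) (h : u ≠ 0) : SC m :=
  ⟨((‖u‖⁻¹ : ℝ) : ℂ) • u, by
    rw [mem_sphere_zero_iff_norm, norm_smul, Complex.norm_real, norm_inv, norm_norm,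
      inv_mul_cancel₀ (norm_ne_zero_iff.2 h)]⟩

lemma nz_apply {m : ℕ} (u : EuclideanSpace ℂ (Fin m)) (h : u ≠ 0) (j : Fin m) :
    (nz u h).1 j = ((‖u‖⁻¹ : ℝ) : ℂ) * u j := rfl

lemma nz_continuous {m : ℕ} {X : Type*} [TopologicalSpace X] {u : X → EuclideanSpace ℂ (Fin m)}
    (hu : Continuous u) (h : ∀ x, u x ≠ 0) : Continuous fun x => nz (u x) (h x) := by
  refine Continuous.subtype_mk ?_ _
  have h1 : Continuous fun x => ‖u x‖⁻¹ := hu.norm.inv₀ fun x => norm_ne_zero_iff.2 (h x)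
  exact (Complex.continuous_ofReal.comp h1).smul hu

/-- the class of a pair of nonzero vectors -/
noncomputable def cls (tw : Fin r → Bool) (u : EuclideanSpace ℂ (Fin 2)) (hu : u ≠ 0)
    (v : EuclideanSpace ℂ (Fin r)) (hv : v ≠ 0) : Tw tw := Quot.mk _ (nz u hu, nz v hv)

lemma norm_eq_of_comp {m : ℕ} {u u' : EuclideanSpace ℂ (Fin m)} (h : ∀ j, ‖u j‖ = ‖u' j‖) : ‖u‖ = ‖u'‖ := by
  rw [EuclideanSpace.norm_eq, EuclideanSpace.norm_eq]
  simp only [h]

lemma cls_eq' {tw : Fin r → Bool} {u u' : EuclideanSpace ℂ (Fin 2)} {hu : u ≠ 0} {hu' : u' ≠ 0}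
    {v v' : EuclideanSpace ℂ (Fin r)} {hv : v ≠ 0} {hv' : v' ≠ 0} {z : ℂ} (hz : ‖z‖ = 1) {α β : ℝ} (hα : 0 < α)
    (hβ : 0 < β) (h1 : ∀ j, u' j = (α : ℂ) * (z * u j))
    (h2 : ∀ k, v' k = (β : ℂ) * ((if tw k = true then z else 1) * v k)) :
    cls tw u hu v hv = cls tw u' hu' v' hv' := by
  have n1 : ‖u'‖ = α * ‖u‖ := by
    have : ‖u'‖ = ‖(α : ℂ) • u‖ := norm_eq_of_comp fun j => by
      rw [h1, PiLp.smul_apply, smul_eq_mul, norm_mul, norm_mul, norm_mul, hz, one_mul]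
    rw [this, norm_smul, Complex.norm_real, Real.norm_of_nonneg hα.le]
  have n2 : ‖v'‖ = β * ‖v‖ := by
    have : ‖v'‖ = ‖(β : ℂ) • v‖ := norm_eq_of_comp fun k => by
      rw [h2, PiLp.smul_apply, smul_eq_mul, norm_mul, norm_mul, norm_mul]
      split_ifs
      · rw [hz, one_mul]
      · rw [norm_one, one_mul]
    rw [this, norm_smul, Complex.norm_real, Real.norm_of_nonneg hβ.le]
  have hαc : (α : ℂ) ≠ 0 := by exact_mod_cast hα.ne'
  have hβc : (β : ℂ) ≠ 0 := by exact_mod_cast hβ.ne'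
  refine Quot.sound ⟨z, hz, fun j => ?_, fun k => ?_⟩
  · simp only [nz_apply, n1, h1]
    push_cast
    rw [mul_inv]
    calc (α : ℂ)⁻¹ * (‖u‖ : ℂ)⁻¹ * ((α : ℂ) * (z * u j)) = ((α : ℂ)⁻¹ * α) * (z * ((‖u‖ : ℂ)⁻¹ * u j)) := by ring
      _ = _ := by rw [inv_mul_cancel₀ hαc, one_mul]
  · simp only [nz_apply, n2, h2]
    push_cast
    rw [mul_inv]
    calc (β : ℂ)⁻¹ * (‖v‖ : ℂ)⁻¹ * ((β : ℂ) * ((if tw k = true then z else 1) * v k)) =
          ((β : ℂ)⁻¹ * β) * ((if tw k = true then z else 1) * ((‖v‖ : ℂ)⁻¹ * v k)) := by ring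
      _ = _ := by rw [inv_mul_cancel₀ hβc, one_mul]

lemma cls_eq {tw : Fin r → Bool} {u u' : EuclideanSpace ℂ (Fin 2)} {hu : u ≠ 0} {hu' : u' ≠ 0}
    {v v' : EuclideanSpace ℂ (Fin r)} {hv : v ≠ 0} {hv' : v' ≠ 0} {z : ℂ} (hz : ‖z‖ = 1)
    (h1 : ∀ j, u' j = z * u j) (h2 : ∀ k, v' k = (if tw k = true then z else 1) * v k) :
    cls tw u hu v hv = cls tw u' hu' v' hv' :=
  cls_eq' hz one_pos one_pos (fun j => by rw [h1]; simp) (fun k => by rw [h2]; simp)

lemma SC_ne {m : ℕ} (u : SC m) : u.1 ≠ 0 := by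
  obtain ⟨j, hj⟩ := exists_ne_zero u
  intro h
  exact hj (by rw [h]; rfl)

lemma mk_eq_cls (tw : Fin r → Bool) (u : SC 2) (v : SC r) :
    (Quot.mk (TwRel tw) (u, v) : Tw tw) = cls tw u.1 (SC_ne u) v.1 (SC_ne v) := by
  have h : ∀ {m : ℕ} (u : SC m), nz u.1 (SC_ne u) = u := by
    intro m u
    apply Subtype.ext
    have h2 : ‖u.1‖ = 1 := mem_sphere_zero_iff_norm.1 u.2
    show ((‖u.1‖⁻¹ : ℝ) : ℂ) • u.1 = u.1
    rw [h2]; simp
  unfold cls
  rw [h, h]

lemma cls_inj {tw : Fin r → Bool} {u u' : EuclideanSpace ℂ (Fin 2)} {hu : u ≠ 0} {hu' : u' ≠ 0}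
    {v v' : EuclideanSpace ℂ (Fin r)} {hv : v ≠ 0} {hv' : v' ≠ 0}
    (h : cls tw u hu v hv = cls tw u' hu' v' hv') :
    ∃ z : ℂ, ‖z‖ = 1 ∧ (∀ j, u' j = ((‖u'‖ / ‖u‖ : ℝ) : ℂ) * z * u j) ∧
      ∀ k, v' k = ((‖v'‖ / ‖v‖ : ℝ) : ℂ) * (if tw k = true then z else 1) * v k := by
  obtain ⟨z, hz, h1, h2⟩ := Tw_exact h
  have nu' : ((‖u'‖ : ℝ) : ℂ) ≠ 0 := by exact_mod_cast norm_ne_zero_iff.2 hu'
  have nv' : ((‖v'‖ : ℝ) : ℂ) ≠ 0 := by exact_mod_cast norm_ne_zero_iff.2 hv'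
  refine ⟨z, hz, fun j => ?_, fun k => ?_⟩
  · have := h1 j
    simp only [nz_apply] at this
    push_cast at this ⊢
    have h3 : u' j = (‖u'‖ : ℂ) * ((‖u'‖ : ℂ)⁻¹ * u' j) := by rw [mul_inv_cancel_left₀ nu']
    rw [h3, this]; ring
  · have := h2 k
    simp only [nz_apply] at this
    push_cast at this ⊢
    have h3 : v' k = (‖v'‖ : ℂ) * ((‖v'‖ : ℂ)⁻¹ * v' k) := by rw [mul_inv_cancel_left₀ nv']
    rw [h3, this]; ring

/-- the base vector -/
noncomputable def UU (s : Bool) (p : Fin 3 → ℝ) : EuclideanSpace ℂ (Fin 2) :=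
  WithLp.toLp 2 ![(U s p).1, (U s p).2]

lemma UU_0 (s : Bool) (p : Fin 3 → ℝ) : UU s p 0 = (U s p).1 := rfl

lemma UU_1 (s : Bool) (p : Fin 3 → ℝ) : UU s p 1 = (U s p).2 := rfl

lemma UU_ne (s : Bool) (p : Fin 3 → ℝ) : UU s p ≠ 0 := by
  intro h
  refine U_ne s p (Prod.ext ?_ ?_)
  · rw [← UU_0, h]; rfl
  · rw [← UU_1, h]; rfl

lemma UU_continuous (s : Bool) {X : Type*} [TopologicalSpace X] {p : X → Fin 3 → ℝ} (hp : Continuous p)
    (ht : ∀ x, Tri (p x)) : Continuous fun x => UU s (p x) := by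
  have h := U_continuous s hp ht
  refine (PiLp.continuous_toLp 2 (fun _ : Fin 2 => ℂ)).comp (continuous_pi fun j => ?_)
  fin_cases j
  · exact continuous_fst.comp h
  · exact continuous_snd.comp h

/-- the fibre vector -/
noncomputable def VV (w y : Fin r → ℝ) : EuclideanSpace ℂ (Fin r) := WithLp.toLp 2 fun k => φ (w k) (y k)

lemma VV_apply (w y : Fin r → ℝ) (k : Fin r) : VV w y k = φ (w k) (y k) := rfl

lemma VV_ne {w : Fin r → ℝ} (h1 : ∑ k, w k = 1) (y : Fin r → ℝ) : VV w y ≠ 0 := by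
  intro h
  have h2 : ∀ k, w k = 0 := by
    intro k
    have h3 : φ (w k) (y k) = 0 := by rw [← VV_apply w y, h]; rfl
    have h4 := congrArg norm h3
    rw [norm_φ, norm_zero] at h4
    exact abs_eq_zero.1 h4
  rw [Finset.sum_congr rfl fun k _ => h2 k] at h1
  simp at h1

lemma VV_continuous {X : Type*} [TopologicalSpace X] {w y : X → Fin r → ℝ} (hw : Continuous w) (hy : Continuous y) :
    Continuous fun x => VV (w x) (y x) := by
  refine (PiLp.continuous_toLp 2 (fun _ : Fin r => ℂ)).comp (continuous_pi fun k => ?_)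
  exact continuous_φ.comp (((continuous_apply k).comp hw).prodMk ((continuous_apply k).comp hy))

end Pool.Agent.H95.TB
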